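import Pool.Agent.Work.MP_ccf6ab_al.Bd.Ind

set_option autoImplicit false

namespace Pool.Agent.Work.MP_ccf6ab_al

open Module Filter

variable {k : Type} [Field k] {A : Type} [Ring A] [Algebra k A]

theorem Brick.surj_of_perp {X Y : FM k A} (hY : Brick Y)
    (h : ∀ M, HZ X M ↔ HZ Y M) : ∃ ρ : X →ₗ[A] Y, Function.Surjective ρ := by
  have := hY.1
  obtain ⟨ρ, hρ⟩ : ∃ ρ : X →ₗ[A] Y, ρ ≠ 0 := by
    by_contra hc
    push Not at hc
    exact not_subsingleton Y (HZ.self ((h Y).1 hc))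
  obtain ⟨σ, hσ⟩ : ∃ σ : Y →ₗ[A] Y.sub (LinearMap.range ρ), σ ≠ 0 := by
    by_contra hc
    push Not at hc
    have h1 := (h _).2 hc ρ.rangeRestrict
    apply hρ
    ext x
    exact congrArg Subtype.val (LinearMap.congr_fun h1 x)
  rcases hY.2 ((LinearMap.range ρ).subtype ∘ₗ σ) with h1 | h1
  · refine absurd ?_ hσ
    ext x
    exact LinearMap.congr_fun h1 x
  · refine ⟨ρ, fun y => ?_⟩
    obtain ⟨x, rfl⟩ := h1.2 y
    exact (σ x).2

theorem Brick.iso_of_perp {X Y : FM k A} (hX : Brick X) (hY : Brick Y)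
    (h : ∀ M, HZ X M ↔ HZ Y M) : Nonempty (X ≃ₗ[A] Y) := by
  obtain ⟨a, ha⟩ := hY.surj_of_perp h
  obtain ⟨b, hb⟩ := hX.surj_of_perp fun M => (h M).symm
  refine hX.iso a b ha fun h0 => ?_
  have := hX.1
  obtain ⟨x, hx⟩ := exists_ne (0 : X)
  obtain ⟨y, rfl⟩ := hb x
  exact hx (by rw [h0]; rfl)

theorem finite_bounded_bricks [Module.Finite k A] (hA : AllRigid k A) (D : ℕ) :
    ∃ s : Finset (FM k A), ∀ B : FM k A, Brick B → finrank k B ≤ D →
      ∃ L ∈ s, Nonempty (L ≃ₗ[A] B) := by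
  by_contra hc
  push Not at hc
  obtain ⟨X, h1, h2⟩ := exists_seq_of_forall_finset_exists
    (fun B : FM k A => Brick B ∧ finrank k B ≤ D) (fun L B => IsEmpty (L ≃ₗ[A] B))
    (fun s _ => by
      obtain ⟨B, b1, b2, b3⟩ := hc s
      exact ⟨B, ⟨b1, b2⟩, b3⟩)
  obtain ⟨z, -, hz⟩ := bounded_family hA (hyperfilter ℕ) X D fun i => (h1 i).2
  obtain ⟨i, hi⟩ := hz.exists
  obtain ⟨j, hj, hij⟩ := (hz.and (Nat.hyperfilter_le_atTop (eventually_gt_atTop i))).exists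
  obtain ⟨e⟩ := (h1 i).1.iso_of_perp (h1 j).1 fun M => (hi M).symm.trans (hj M)
  exact (h2 i j hij).false e

end Pool.Agent.Work.MP_ccf6ab_al
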