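import Pool.Agent.Work.MP_ccf6ab_al.Main
import Mathlib

-- merged part: Pool.Agent.Work.MP_ccf6ab_al.Bd.Stab
section
set_option autoImplicit false

namespace Pool.Agent.Work.MP_ccf6ab_al

open Module

variable {k : Type} [Field k] {A : Type} [Ring A] [Algebra k A]

/-- no nonzero map -/
def HZ (X Y : FM k A) : Prop := ∀ ρ : X →ₗ[A] Y, ρ = 0

theorem HZ.quot {X X' Y : FM k A} (h : HZ X Y) (p : X →ₗ[A] X') (hp : Function.Surjective p) :
    HZ X' Y := zero_of_surj p hp h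

theorem HZ.sub {X Y Y' : FM k A} (h : HZ X Y) (i : Y' →ₗ[A] Y) (hi : Function.Injective i) :
    HZ X Y' := by
  intro ρ
  ext x
  apply hi
  simpa using LinearMap.congr_fun (h (i ∘ₗ ρ)) x

theorem HZ.self {X : FM k A} (h : HZ X X) : Subsingleton X := sub_of_id (h _)

theorem HZ.of_sub_left {X Y : FM k A} (h : Subsingleton X) : HZ X Y := fun ρ => by
  ext x; rw [Subsingleton.elim x 0]; simp

theorem HZ.of_sub_right {X Y : FM k A} (h : Subsingleton Y) : HZ X Y := fun ρ => by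
  ext x; exact Subsingleton.elim _ _

theorem HZ.ext_left {Z Y : FM k A} (N : Submodule A Z) (h1 : HZ (Z.sub N) Y)
    (h2 : HZ (Z.quo N) Y) : HZ Z Y := by
  intro ρ
  apply factor_zero (X'' := Z.quo N) N.mkQ N.mkQ_surjective ρ _ h2
  intro x hx
  rw [Submodule.ker_mkQ] at hx
  exact LinearMap.congr_fun (h1 (ρ ∘ₗ N.subtype)) ⟨x, hx⟩

theorem HZ.ext_right {X Z : FM k A} (N : Submodule A Z) (h1 : HZ X (Z.sub N))
    (h2 : HZ X (Z.quo N)) : HZ X Z := by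
  intro ρ
  have h3 : ∀ x, ρ x ∈ N := fun x =>
    (Submodule.Quotient.mk_eq_zero N).1 (LinearMap.congr_fun (h2 (N.mkQ ∘ₗ ρ)) x)
  ext x
  exact congrArg Subtype.val (LinearMap.congr_fun (h1 (LinearMap.codRestrict N ρ h3)) x)

theorem orthTors (𝒞 : FM k A → Prop) : Tors (fun X : FM k A => ∀ Z, 𝒞 Z → HZ X Z) where
  zero X hX := fun Z _ => HZ.of_sub_left hX
  quot X Y p hp h := fun Z hZ => (h Z hZ).quot p hp
  ext X' X X'' i p hp hk h1 h2 := by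
    intro Z hZ ρ
    apply factor_zero p hp ρ _ (h2 Z hZ)
    intro x hx
    obtain ⟨y, rfl⟩ := hk hx
    exact LinearMap.congr_fun (h1 Z hZ (ρ ∘ₗ i)) y

theorem Tors.ses {𝒯 : FM k A → Prop} (h : Tors 𝒯) {Z : FM k A} (N : Submodule A Z)
    (h1 : 𝒯 (Z.sub N)) (h2 : 𝒯 (Z.quo N)) : 𝒯 Z :=
  h.ext (Z.sub N) Z (Z.quo N) N.subtype N.mkQ N.mkQ_surjective
    (by rw [Submodule.ker_mkQ, Submodule.range_subtype]) h1 h2

theorem nontriv_range {X Y : FM k A} {ρ : X →ₗ[A] Y} (h : ρ ≠ 0) :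
    Nontrivial (Y.sub (LinearMap.range ρ)) :=
  Submodule.nontrivial_iff_ne_bot.2 (fun h' => h (LinearMap.range_eq_bot.1 h'))

theorem dim_pos {X : FM k A} (h : Nontrivial X) : 0 < finrank k X := Module.finrank_pos

theorem dim_ses (Z : FM k A) (N : Submodule A Z) :
    finrank k Z = finrank k (Z.sub N) + finrank k (Z.quo N) := by
  have := finrank_ses Z N
  change _ = finrank k N + finrank k (Z ⧸ N)
  omega

theorem dim_le_of_inj {X Y : FM k A} (i : X →ₗ[A] Y) (hi : Function.Injective i) :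
    finrank k X ≤ finrank k Y :=
  LinearMap.finrank_le_finrank_of_injective (f := i.restrictScalars k) hi

theorem dim_le_of_surj {X Y : FM k A} (p : X →ₗ[A] Y) (hp : Function.Surjective p) :
    finrank k Y ≤ finrank k X :=
  LinearMap.finrank_le_finrank_of_surjective (f := p.restrictScalars k) hp

theorem dim_congr {X Y : FM k A} (e : X ≃ₗ[A] Y) : finrank k X = finrank k Y :=
  le_antisymm (dim_le_of_inj e.toLinearMap e.injective)
    (dim_le_of_surj e.toLinearMap e.surjective)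

theorem quo_lt {Z : FM k A} {N : Submodule A Z} (h : N ≠ ⊥) :
    finrank k (Z.quo N) < finrank k Z := by
  have h1 := dim_ses Z N
  have h2 := dim_pos (X := Z.sub N) (Submodule.nontrivial_iff_ne_bot.2 h)
  omega

section Gen
variable {Γ : Type} [AddCommGroup Γ]

/-- additive functions -/
structure Adv (Θ : FM k A → Γ) : Prop where
  ses : ∀ (Z : FM k A) (N : Submodule A Z), Θ Z = Θ (Z.sub N) + Θ (Z.quo N)
  congr : ∀ {Y Z : FM k A}, (Y ≃ₗ[A] Z) → Θ Y = Θ Z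

theorem Adv.zero {Θ : FM k A → Γ} (h : Adv Θ) {Z : FM k A} (hZ : Subsingleton Z) : Θ Z = 0 := by
  have h1 := h.ses Z ⊥
  have h2 : Θ (Z.sub ⊥) = Θ Z := h.congr (LinearEquiv.ofSubsingleton _ _)
  have h3 : Θ (Z.quo ⊥) = Θ Z := h.congr (Submodule.quotEquivOfEqBot _ rfl)
  rw [h2, h3] at h1
  simpa using h1

theorem Adv.surj {Θ : FM k A → Γ} (h : Adv Θ) {X Y : FM k A} (p : X →ₗ[A] Y)
    (hp : Function.Surjective p) : Θ X = Θ (X.sub (LinearMap.ker p)) + Θ Y := by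
  rw [h.ses X (LinearMap.ker p),
    h.congr (Y := X.quo (LinearMap.ker p)) (Z := Y) (p.quotKerEquivOfSurjective hp)]

theorem Adv.inj {Θ : FM k A → Γ} (h : Adv Θ) {X Y : FM k A} (i : Y →ₗ[A] X)
    (hi : Function.Injective i) : Θ X = Θ Y + Θ (X.quo (LinearMap.range i)) := by
  rw [h.ses X (LinearMap.range i),
    h.congr (Y := Y) (Z := X.sub (LinearMap.range i)) (LinearEquiv.ofInjective i hi)]

theorem pr_adv (U : Cx k A) : Adv (pr U) := ⟨pr_ses U, fun e => pr_congr U e⟩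

variable [LinearOrder Γ]

def sT (Θ : FM k A → Γ) (M : FM k A) : Prop :=
  ∀ (Y : FM k A) (p : M →ₗ[A] Y), Function.Surjective p → 0 ≤ Θ Y
def sG (Θ : FM k A → Γ) (M : FM k A) : Prop :=
  ∀ (Y : FM k A) (p : M →ₗ[A] Y), Function.Surjective p → Nontrivial Y → 0 < Θ Y
def sF (Θ : FM k A → Γ) (M : FM k A) : Prop :=
  ∀ (Y : FM k A) (i : Y →ₗ[A] M), Function.Injective i → Θ Y ≤ 0
def sP (Θ : FM k A → Γ) (M : FM k A) : Prop :=
  ∀ (Y : FM k A) (i : Y →ₗ[A] M), Function.Injective i → Nontrivial Y → Θ Y < 0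

/-- stable modules -/
def Stb (Θ : FM k A → Γ) (S : FM k A) : Prop :=
  Nontrivial S ∧ sT Θ S ∧ sF Θ S ∧ ∀ N : Submodule A S, sT Θ (S.sub N) → N = ⊥ ∨ N = ⊤

variable {Θ : FM k A → Γ}

theorem sT.quot {X Y : FM k A} (h : sT Θ X) (p : X →ₗ[A] Y) (hp : Function.Surjective p) :
    sT Θ Y := fun Z q hq => h Z (q ∘ₗ p) (hq.comp hp)
theorem sG.quot {X Y : FM k A} (h : sG Θ X) (p : X →ₗ[A] Y) (hp : Function.Surjective p) :
    sG Θ Y := fun Z q hq => h Z (q ∘ₗ p) (hq.comp hp)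
theorem sF.sub {X Y : FM k A} (h : sF Θ X) (i : Y →ₗ[A] X) (hi : Function.Injective i) :
    sF Θ Y := fun Z q hq => h Z (i ∘ₗ q) (hi.comp hq)
theorem sP.sub {X Y : FM k A} (h : sP Θ X) (i : Y →ₗ[A] X) (hi : Function.Injective i) :
    sP Θ Y := fun Z q hq => h Z (i ∘ₗ q) (hi.comp hq)

theorem sT.nonneg {X : FM k A} (h : sT Θ X) : 0 ≤ Θ X := h X LinearMap.id Function.surjective_id
theorem sG.pos {X : FM k A} (h : sG Θ X) (hX : Nontrivial X) : 0 < Θ X :=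
  h X LinearMap.id Function.surjective_id hX
theorem sF.nonpos {X : FM k A} (h : sF Θ X) : Θ X ≤ 0 := h X LinearMap.id Function.injective_id
theorem sP.neg {X : FM k A} (h : sP Θ X) (hX : Nontrivial X) : Θ X < 0 :=
  h X LinearMap.id Function.injective_id hX

theorem sG.toT (hΘ : Adv Θ) {X : FM k A} (h : sG Θ X) : sT Θ X := fun Y p hp => by
  rcases subsingleton_or_nontrivial Y with hY | hY
  · exact (hΘ.zero hY).ge
  · exact (h Y p hp hY).le

theorem sP.toF (hΘ : Adv Θ) {X : FM k A} (h : sP Θ X) : sF Θ X := fun Y p hp => by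
  rcases subsingleton_or_nontrivial Y with hY | hY
  · exact (hΘ.zero hY).le
  · exact (h Y p hp hY).le

theorem sT.hz {X Y : FM k A} (h : sT Θ X) (h' : sP Θ Y) : HZ X Y := by
  intro ρ
  by_contra hρ
  exact (h (Y.sub (LinearMap.range ρ)) ρ.rangeRestrict ρ.surjective_rangeRestrict).not_gt
    (h' _ (Submodule.subtype _) Subtype.val_injective (nontriv_range hρ))

theorem sG.hz {X Y : FM k A} (h : sG Θ X) (h' : sF Θ Y) : HZ X Y := by
  intro ρ
  by_contra hρ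
  exact (h (Y.sub (LinearMap.range ρ)) ρ.rangeRestrict ρ.surjective_rangeRestrict
    (nontriv_range hρ)).not_ge (h' _ (Submodule.subtype _) Subtype.val_injective)

variable [IsOrderedAddMonoid Γ]

theorem sT_of (hΘ : Adv Θ) {X : FM k A} (h : ∀ Z, sP Θ Z → HZ X Z) : sT Θ X := by
  by_contra hc
  have hex : ∃ Y : FM k A, (∃ p : X →ₗ[A] Y, Function.Surjective p) ∧ Θ Y < 0 := by
    by_contra h2
    push Not at h2
    exact hc fun Y p hp => h2 Y ⟨p, hp⟩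
  obtain ⟨Y, ⟨⟨p, hp⟩, hY⟩, hmin⟩ := exists_minimalFor_of_wellFoundedLT _
    (fun Y : FM k A => finrank k Y) hex
  have hP : sP Θ Y := by
    intro L i hi hL
    have h1 := hΘ.inj i hi
    have h2 : finrank k (Y.quo (LinearMap.range i)) < finrank k Y := quo_lt (by
      intro hb
      obtain ⟨x, hx⟩ := exists_ne (0 : L)
      exact hx (hi (by rw [LinearMap.range_eq_bot.1 hb]; simp)))
    have h3 : 0 ≤ Θ (Y.quo (LinearMap.range i)) := by
      by_contra h4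
      exact h2.not_ge (hmin (j := Y.quo (LinearMap.range i))
        ⟨⟨(LinearMap.range i).mkQ ∘ₗ p, (Submodule.mkQ_surjective _).comp hp⟩, not_le.1 h4⟩ h2.le)
    by_contra h4
    exact hY.not_ge (h1 ▸ add_nonneg (not_lt.1 h4) h3)
  have := ((h Y hP).quot p hp).self
  exact hY.ne (hΘ.zero this)

theorem sG_of (hΘ : Adv Θ) {X : FM k A} (h : ∀ Z, sF Θ Z → HZ X Z) : sG Θ X := by
  by_contra hc
  have hex : ∃ Y : FM k A, (∃ p : X →ₗ[A] Y, Function.Surjective p) ∧ Nontrivial Y ∧ Θ Y ≤ 0 := by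
    by_contra h2
    push Not at h2
    exact hc fun Y p hp hY => h2 Y ⟨p, hp⟩ hY
  obtain ⟨Y, ⟨⟨p, hp⟩, hn, hY⟩, hmin⟩ := exists_minimalFor_of_wellFoundedLT _
    (fun Y : FM k A => finrank k Y) hex
  have hP : sF Θ Y := by
    intro L i hi
    rcases subsingleton_or_nontrivial L with hL | hL
    · exact (hΘ.zero hL).le
    have h1 := hΘ.inj i hi
    have h2 : finrank k (Y.quo (LinearMap.range i)) < finrank k Y := quo_lt (by
      intro hb
      obtain ⟨x, hx⟩ := exists_ne (0 : L)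
      exact hx (hi (by rw [LinearMap.range_eq_bot.1 hb]; simp)))
    have h3 : 0 ≤ Θ (Y.quo (LinearMap.range i)) := by
      rcases subsingleton_or_nontrivial (Y.quo (LinearMap.range i)) with h5 | h5
      · exact (hΘ.zero h5).ge
      by_contra h4
      exact h2.not_ge (hmin (j := Y.quo (LinearMap.range i))
        ⟨⟨(LinearMap.range i).mkQ ∘ₗ p, (Submodule.mkQ_surjective _).comp hp⟩, h5,
          (not_le.1 h4).le⟩ h2.le)
    by_contra h4
    exact hY.not_gt (h1 ▸ add_pos_of_pos_of_nonneg (not_le.1 h4) h3)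
  exact not_subsingleton Y ((h Y hP).quot p hp).self

theorem ker_lt {X Y : FM k A} (p : X →ₗ[A] Y) (hp : Function.Surjective p) (hY : Nontrivial Y) :
    finrank k (X.sub (LinearMap.ker p)) < finrank k X := by
  apply sub_lt
  intro ht
  obtain ⟨y, hy⟩ := exists_ne (0 : Y)
  obtain ⟨x, rfl⟩ := hp y
  exact hy (ht ▸ trivial : x ∈ LinearMap.ker p)

theorem sP_of (hΘ : Adv Θ) {X : FM k A} (h : ∀ Z, sT Θ Z → HZ Z X) : sP Θ X := by
  by_contra hc
  have hex : ∃ Y : FM k A, (∃ p : Y →ₗ[A] X, Function.Injective p) ∧ Nontrivial Y ∧ 0 ≤ Θ Y := by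
    by_contra h2
    push Not at h2
    exact hc fun Y p hp hY => h2 Y ⟨p, hp⟩ hY
  obtain ⟨Y, ⟨⟨p, hp⟩, hn, hY⟩, hmin⟩ := exists_minimalFor_of_wellFoundedLT _
    (fun Y : FM k A => finrank k Y) hex
  have hP : sT Θ Y := by
    intro L i hi
    rcases subsingleton_or_nontrivial L with hL | hL
    · exact (hΘ.zero hL).ge
    have h1 := hΘ.surj i hi
    have h2 := ker_lt i hi hL
    have h3 : Θ (Y.sub (LinearMap.ker i)) ≤ 0 := by
      rcases subsingleton_or_nontrivial (Y.sub (LinearMap.ker i)) with h5 | h5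
      · exact (hΘ.zero h5).le
      by_contra h4
      exact h2.not_ge (hmin (j := Y.sub (LinearMap.ker i))
        ⟨⟨p ∘ₗ (LinearMap.ker i).subtype, hp.comp Subtype.val_injective⟩, h5,
          (not_le.1 h4).le⟩ h2.le)
    by_contra h4
    exact hY.not_gt (h1 ▸ add_neg_of_nonpos_of_neg h3 (not_le.1 h4))
  exact not_subsingleton Y ((h Y hP).sub p hp).self

theorem sF_of (hΘ : Adv Θ) {X : FM k A} (h : ∀ Z, sG Θ Z → HZ Z X) : sF Θ X := by
  by_contra hc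
  have hex : ∃ Y : FM k A, (∃ p : Y →ₗ[A] X, Function.Injective p) ∧ 0 < Θ Y := by
    by_contra h2
    push Not at h2
    exact hc fun Y p hp => h2 Y ⟨p, hp⟩
  obtain ⟨Y, ⟨⟨p, hp⟩, hY⟩, hmin⟩ := exists_minimalFor_of_wellFoundedLT _
    (fun Y : FM k A => finrank k Y) hex
  have hP : sG Θ Y := by
    intro L i hi hL
    have h1 := hΘ.surj i hi
    have h2 := ker_lt i hi hL
    have h3 : Θ (Y.sub (LinearMap.ker i)) ≤ 0 := by
      by_contra h4
      exact h2.not_ge (hmin (j := Y.sub (LinearMap.ker i))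
        ⟨⟨p ∘ₗ (LinearMap.ker i).subtype, hp.comp Subtype.val_injective⟩, not_le.1 h4⟩ h2.le)
    by_contra h4
    exact hY.not_ge (h1 ▸ add_nonpos h3 (not_lt.1 h4))
  have := ((h Y hP).sub p hp).self
  exact hY.ne' (hΘ.zero this)

theorem sT_tors (hΘ : Adv Θ) : Tors (sT Θ) := by
  have : sT Θ = fun X : FM k A => ∀ Z, sP Θ Z → HZ X Z :=
    funext fun X => propext ⟨fun h Z hZ => h.hz hZ, sT_of hΘ⟩
  rw [this]
  exact orthTors _

theorem sG_tors (hΘ : Adv Θ) : Tors (sG Θ) := by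
  have : sG Θ = fun X : FM k A => ∀ Z, sF Θ Z → HZ X Z :=
    funext fun X => propext ⟨fun h Z hZ => h.hz hZ, sG_of hΘ⟩
  rw [this]
  exact orthTors _

theorem sT_part (hΘ : Adv Θ) (X : FM k A) :
    ∃ t : Submodule A X, sT Θ (X.sub t) ∧ sP Θ (X.quo t) := by
  obtain ⟨t, h1, h2⟩ := (sT_tors hΘ).part X
  exact ⟨t, h1, sP_of hΘ h2⟩

theorem sG_part (hΘ : Adv Θ) (X : FM k A) :
    ∃ t : Submodule A X, sG Θ (X.sub t) ∧ sF Θ (X.quo t) := by
  obtain ⟨t, h1, h2⟩ := (sG_tors hΘ).part X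
  exact ⟨t, h1, sF_of hΘ h2⟩

theorem sF.toT (hΘ : Adv Θ) {X : FM k A} (h : sF Θ X) (h0 : 0 ≤ Θ X) : sT Θ X := by
  intro Y p hp
  have h1 := hΘ.surj p hp
  have h2 := h (X.sub (LinearMap.ker p)) (Submodule.subtype _) Subtype.val_injective
  by_contra h4
  exact h0.not_gt (h1 ▸ add_neg_of_nonpos_of_neg h2 (not_le.1 h4))

theorem sT.toF (hΘ : Adv Θ) {X : FM k A} (h : sT Θ X) (h0 : Θ X ≤ 0) : sF Θ X := by
  intro Y p hp
  have h1 := hΘ.inj p hp
  have h2 := h (X.quo (LinearMap.range p)) (Submodule.mkQ _) (Submodule.mkQ_surjective _)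
  by_contra h4
  exact h0.not_gt (h1 ▸ add_pos_of_pos_of_nonneg (not_le.1 h4) h2)

omit [IsOrderedAddMonoid Γ] in
theorem sT.zero {X : FM k A} (h : sT Θ X) (h' : sF Θ X) : Θ X = 0 := le_antisymm h'.nonpos h.nonneg

theorem sW_quo (hΘ : Adv Θ) {X : FM k A} (h : sT Θ X) (h' : sF Θ X) (N : Submodule A X)
    (hN : sT Θ (X.sub N)) : sF Θ (X.quo N) := by
  have h1 := hΘ.ses X N
  have h2 := hN.zero (h'.sub N.subtype Subtype.val_injective)
  rw [h.zero h', h2, zero_add] at h1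
  exact (h.quot N.mkQ N.mkQ_surjective).toF hΘ h1.ge

theorem sW_ker (hΘ : Adv Θ) {X Y : FM k A} (h : sT Θ X) (p : X →ₗ[A] Y) (h' : sF Θ Y) :
    sT Θ (X.sub (LinearMap.ker p)) := by
  apply sT_of hΘ
  intro Z hZ ρ
  by_contra hρ
  let K : Submodule A X := (LinearMap.ker ρ).map (LinearMap.ker p).subtype
  have hle : K ≤ LinearMap.ker p := Submodule.map_subtype_le _ _
  have e1 := hΘ.ses X K
  have e2 := hΘ.ses X (LinearMap.ker p)
  have e3 := hΘ.ses (X.sub (LinearMap.ker p)) (LinearMap.ker ρ)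
  have e4 : Θ ((X.sub (LinearMap.ker p)).sub (LinearMap.ker ρ)) = Θ (X.sub K) :=
    hΘ.congr (Submodule.equivMapOfInjective _ Subtype.val_injective _)
  have e5 : Θ ((X.sub (LinearMap.ker p)).quo (LinearMap.ker ρ)) < 0 :=
    hZ _ ((LinearMap.ker ρ).liftQ ρ le_rfl) (by
      rw [← LinearMap.ker_eq_bot]; exact Submodule.ker_liftQ_eq_bot _ _ _ le_rfl)
      (Submodule.Quotient.nontrivial_iff.2 (fun ht => hρ (LinearMap.ker_eq_top.1 ht)))
  have e6 : Θ (X.quo (LinearMap.ker p)) ≤ 0 :=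
    h' _ ((LinearMap.ker p).liftQ p le_rfl) (by
      rw [← LinearMap.ker_eq_bot]; exact Submodule.ker_liftQ_eq_bot _ _ _ le_rfl)
  have e7 := h (X.quo K) K.mkQ K.mkQ_surjective
  rw [e3, e4, e1, add_assoc] at e2
  have e8 := add_left_cancel e2
  exact e7.not_gt (e8 ▸ add_neg_of_neg_of_nonpos e5 e6)

omit [IsOrderedAddMonoid Γ] in
theorem exists_stb_sub {X : FM k A} (hX : Nontrivial X) (h : sT Θ X) (h' : sF Θ X) :
    ∃ N : Submodule A X, N ≠ ⊥ ∧ Stb Θ (X.sub N) := by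
  obtain ⟨N, ⟨hb, hN⟩, hmin⟩ := exists_minimal_of_wellFoundedLT
    (fun N : Submodule A X => N ≠ ⊥ ∧ sT Θ (X.sub N))
    ⟨⊤, top_ne_bot, h.quot Submodule.topEquiv.symm.toLinearMap Submodule.topEquiv.symm.surjective⟩
  refine ⟨N, hb, Submodule.nontrivial_iff_ne_bot.2 hb, hN,
    h'.sub N.subtype Subtype.val_injective, fun L hL => ?_⟩
  by_cases hLb : L = ⊥
  · exact Or.inl hLb
  right
  have h1 : N ≤ L.map N.subtype := hmin ⟨fun h0 => hLb (by
      rw [eq_bot_iff]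
      intro x hx
      have : (x : X) ∈ L.map N.subtype := ⟨x, hx, rfl⟩
      rw [h0] at this
      exact Subtype.ext this),
    hL.quot (Submodule.equivMapOfInjective _ Subtype.val_injective L).toLinearMap
      (Submodule.equivMapOfInjective _ Subtype.val_injective L).surjective⟩
    (Submodule.map_subtype_le _ _)
  rw [eq_top_iff]
  intro x _
  obtain ⟨y, hy, e⟩ := h1 x.2
  exact (Subtype.ext e : y = x) ▸ hy

theorem exists_stb_quo (hΘ : Adv Θ) {X : FM k A} (hX : Nontrivial X) (h : sT Θ X) (h' : sF Θ X) :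
    ∃ (S : FM k A) (p : X →ₗ[A] S), Function.Surjective p ∧ Stb Θ S := by
  obtain ⟨Y, ⟨⟨p, hp⟩, hn, hY⟩, hmin⟩ := exists_minimalFor_of_wellFoundedLT
    (fun Y : FM k A => (∃ p : X →ₗ[A] Y, Function.Surjective p) ∧ Nontrivial Y ∧ sF Θ Y)
    (fun Y : FM k A => finrank k Y) ⟨X, ⟨LinearMap.id, Function.surjective_id⟩, hX, h'⟩
  refine ⟨Y, p, hp, hn, h.quot p hp, hY, fun L hL => ?_⟩
  by_contra hc
  push Not at hc
  have h2 := quo_lt hc.1
  exact h2.not_ge (hmin (j := Y.quo L) ⟨⟨L.mkQ ∘ₗ p, L.mkQ_surjective.comp hp⟩,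
    Submodule.Quotient.nontrivial_iff.2 hc.2, sW_quo hΘ (h.quot p hp) hY L hL⟩ h2.le)

omit [IsOrderedAddMonoid Γ] in
theorem Stb.surj {X S : FM k A} (hS : Stb Θ S) (hX : sT Θ X) {ρ : X →ₗ[A] S} (hρ : ρ ≠ 0) :
    Function.Surjective ρ := by
  rcases hS.2.2.2 (LinearMap.range ρ) (hX.quot ρ.rangeRestrict ρ.surjective_rangeRestrict) with
    h | h
  · exact absurd (LinearMap.range_eq_bot.1 h) hρ
  · exact LinearMap.range_eq_top.1 h

theorem Stb.inj (hΘ : Adv Θ) {S Y : FM k A} (hS : Stb Θ S) (hY : sF Θ Y) {ρ : S →ₗ[A] Y}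
    (hρ : ρ ≠ 0) : Function.Injective ρ := by
  rcases hS.2.2.2 (LinearMap.ker ρ) (sW_ker hΘ hS.2.1 ρ hY) with h | h
  · exact LinearMap.ker_eq_bot.1 h
  · exact absurd (LinearMap.ker_eq_top.1 h) hρ

end Gen

theorem Stb.congr {Γ Γ' : Type} [AddCommGroup Γ] [LinearOrder Γ] [AddCommGroup Γ'] [LinearOrder Γ']
    {Θ : FM k A → Γ} {Θ' : FM k A → Γ'} (h1 : ∀ M, sT Θ M ↔ sT Θ' M) (h2 : ∀ M, sF Θ M ↔ sF Θ' M)
    {S : FM k A} (h : Stb Θ S) : Stb Θ' S :=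
  ⟨h.1, (h1 _).1 h.2.1, (h2 _).1 h.2.2.1, fun N hN => h.2.2.2 N ((h1 _).2 hN)⟩

theorem T.st {U : Cx k A} {M : FM k A} (h : T U M) : sT (pr U) M :=
  fun _ p hp => (h.quot p hp).nonneg

theorem F.sf {U : Cx k A} {M : FM k A} (h : F U M) : sF (pr U) M :=
  fun _ p hp => (h.sub p hp).nonpos

theorem EZ.T_iff {U : Cx k A} (hU : EZ U U) {M : FM k A} : T U M ↔ sT (pr U) M := by
  refine ⟨T.st, fun h => ?_⟩
  obtain ⟨t, h1, h2⟩ := G_part U M
  exact (T_tors U).ses t (hU.T_of_G h1) (h2.toT (h _ t.mkQ t.mkQ_surjective))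

theorem EZ.F_iff {U : Cx k A} (hU : EZ U U) {M : FM k A} : F U M ↔ sF (pr U) M := by
  refine ⟨F.sf, fun h => ?_⟩
  obtain ⟨t, h1, h2⟩ := G_part U M
  have h3 := (hU.T_of_G h1).toF (h _ t.subtype Subtype.val_injective)
  have h4 : Subsingleton t := HZ.self (h1 _ h3)
  exact h2.sub t.mkQ (of_bot Submodule.eq_bot_of_subsingleton)

theorem EZ.G_iff {U : Cx k A} (hU : EZ U U) {M : FM k A} : G U M ↔ sG (pr U) M :=
  ⟨fun h => sG_of (pr_adv U) fun Z hZ => h Z (hU.F_iff.2 hZ), fun h _ hZ => h.hz hZ.sf⟩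

theorem EZ.TP_iff {U : Cx k A} (hU : EZ U U) {M : FM k A} : TP U M ↔ sP (pr U) M :=
  ⟨fun h => sP_of (pr_adv U) fun Z hZ => h Z (hU.T_iff.2 hZ), fun h _ hZ => hZ.st.hz h⟩

theorem T_of_TP {U : Cx k A} {M : FM k A} (h : ∀ Z, TP U Z → HZ M Z) : T U M := by
  obtain ⟨t, h1, h2⟩ := T_part U M
  exact (T_tors U).of_top (top_of_mkQ (h _ h2 _)) h1

theorem F.hz {U : Cx k A} {M : FM k A} (h : F U M) : HZ U.H M := G_H U M h

end Pool.Agent.Work.MP_ccf6ab_al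
end

-- merged part: Pool.Agent.Work.MP_ccf6ab_al.Bd.Cpx
section
set_option autoImplicit false

namespace Pool.Agent.Work.MP_ccf6ab_al

open Module

variable {k : Type} [Field k] {A : Type} [Ring A] [Algebra k A]

/-- direct sum of complexes -/
abbrev Cx.sum (U V : Cx k A) : Cx k A :=
  Cx.mk (U.P1.prod V.P1) (U.P0.prod V.P0) (U.f.prodMap V.f)

theorem pr_sum (U V : Cx k A) (M : FM k A) : pr (U.sum V) M = pr U M + pr V M := by
  unfold pr
  simp only [hd_prod]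
  push_cast
  ring

/-- first summand -/
def Retr.inl (U V : Cx k A) : Retr U (U.sum V) :=
  { i1 := LinearMap.inl A _ _, i0 := LinearMap.inl A _ _, r1 := LinearMap.fst A _ _,
    r0 := LinearMap.fst A _ _, s := 0, hi := fun x => by simp, hr := fun x => rfl,
    h1 := fun x => by simp, h0 := fun x => by simp }

/-- second summand -/
def Retr.inr (U V : Cx k A) : Retr V (U.sum V) :=
  { i1 := LinearMap.inr A _ _, i0 := LinearMap.inr A _ _, r1 := LinearMap.snd A _ _,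
    r0 := LinearMap.snd A _ _, s := 0, hi := fun x => by simp, hr := fun x => rfl,
    h1 := fun x => by simp, h0 := fun x => by simp }

/-- identity -/
def Retr.refl (U : Cx k A) : Retr U U :=
  { i1 := LinearMap.id, i0 := LinearMap.id, r1 := LinearMap.id, r0 := LinearMap.id, s := 0,
    hi := fun x => rfl, hr := fun x => rfl, h1 := fun x => by simp, h0 := fun x => by simp }

/-- composition -/
def Retr.trans {U V W : Cx k A} (R : Retr U V) (R' : Retr V W) : Retr U W :=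
  { i1 := R'.i1 ∘ₗ R.i1, i0 := R'.i0 ∘ₗ R.i0, r1 := R.r1 ∘ₗ R'.r1, r0 := R.r0 ∘ₗ R'.r0,
    s := R.s + R.r1 ∘ₗ R'.s ∘ₗ R.i0,
    hi := fun x => by simp [R.hi, R'.hi], hr := fun x => by simp [R.hr, R'.hr],
    h1 := fun x => by simp [R.h1, R'.h1, R.hi, add_assoc],
    h0 := fun x => by simp [R.h0, R'.h0, R.hr, add_assoc] }

theorem Retr.T {U V : Cx k A} (R : Retr U V) {M : FM k A} (h : T V M) : T U M := by
  intro g
  obtain ⟨a, ha⟩ := h (g ∘ₗ R.r1)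
  refine ⟨a ∘ₗ R.i0 - g ∘ₗ R.s, ?_⟩
  ext x
  have h1 := LinearMap.congr_fun ha (R.i1 x)
  simp only [LinearMap.comp_apply, R.h1, map_add] at h1
  simp [R.hi, ← h1]

theorem Retr.F {U V : Cx k A} (R : Retr U V) {M : FM k A} (h : F V M) : F U M := by
  intro a ha
  have h0 : ∀ x, a (U.f x) = 0 := fun x => LinearMap.congr_fun ha x
  have h1 := h (a ∘ₗ R.r0) (by ext x; simp [R.hr, h0])
  ext x
  have h2 := LinearMap.congr_fun h1 (R.i0 x)
  simpa [R.h0, h0] using h2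

theorem Retr.surjH {U V : Cx k A} (R : Retr U V) :
    ∃ p : V.H →ₗ[A] U.H, Function.Surjective p := by
  refine ⟨(LinearMap.range V.f).liftQ ((LinearMap.range U.f).mkQ ∘ₗ R.r0) ?_, ?_⟩
  · rintro _ ⟨x, rfl⟩
    exact (Submodule.Quotient.mk_eq_zero _).2 ⟨R.r1 x, (R.hr x).symm⟩
  · intro y
    obtain ⟨x, rfl⟩ := (LinearMap.range U.f).mkQ_surjective y
    refine ⟨Submodule.Quotient.mk (R.i0 x), ?_⟩
    change (LinearMap.range U.f).mkQ (R.r0 (R.i0 x)) = _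
    rw [R.h0, map_add]
    have : (LinearMap.range U.f).mkQ (U.f (R.s x)) = 0 :=
      (Submodule.Quotient.mk_eq_zero _).2 ⟨R.s x, rfl⟩
    rw [this, add_zero]

theorem T_sum {U V : Cx k A} {M : FM k A} (h1 : T U M) (h2 : T V M) : T (U.sum V) M := by
  intro g
  obtain ⟨a, ha⟩ := h1 (g ∘ₗ LinearMap.inl A _ _)
  obtain ⟨b, hb⟩ := h2 (g ∘ₗ LinearMap.inr A _ _)
  refine ⟨LinearMap.coprod a b, ?_⟩
  apply LinearMap.ext
  rintro ⟨x, y⟩
  have e1 := LinearMap.congr_fun ha x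
  have e2 := LinearMap.congr_fun hb y
  have e3 : g (x, y) = g (x, 0) + g (0, y) := by rw [← map_add]; simp
  simp only [LinearMap.comp_apply, LinearMap.inl_apply, LinearMap.inr_apply] at e1 e2
  rw [e3, e1, e2]
  simp

theorem F_sum {U V : Cx k A} {M : FM k A} (h1 : F U M) (h2 : F V M) : F (U.sum V) M := by
  intro a ha
  have e1 := h1 (a ∘ₗ LinearMap.inl A _ _) (by
    ext x; simpa using LinearMap.congr_fun ha (x, 0))
  have e2 := h2 (a ∘ₗ LinearMap.inr A _ _) (by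
    ext x; simpa using LinearMap.congr_fun ha (0, x))
  apply LinearMap.ext
  rintro ⟨x, y⟩
  have e3 : a (x, y) = a (x, 0) + a (0, y) := by rw [← map_add]; simp
  rw [e3]
  exact (congrArg₂ (· + ·) (LinearMap.congr_fun e1 x) (LinearMap.congr_fun e2 y)).trans (by simp)

theorem EZ_of_T {U V : Cx k A} (h : T U V.H) : EZ U V := by
  intro g
  obtain ⟨a, ha⟩ := h ((LinearMap.range V.f).mkQ ∘ₗ g)
  obtain ⟨a', rfl⟩ := Module.projective_lifting_property (LinearMap.range V.f).mkQ a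
    (Submodule.mkQ_surjective _)
  have hm : ∀ x, (g - a' ∘ₗ U.f) x ∈ LinearMap.range V.f := fun x => by
    apply (Submodule.Quotient.mk_eq_zero _).1
    have := LinearMap.congr_fun ha x
    simp only [LinearMap.comp_apply, Submodule.mkQ_apply] at this
    simp [this]
  obtain ⟨b, hb⟩ := Module.projective_lifting_property V.f.rangeRestrict
    (LinearMap.codRestrict _ _ hm) V.f.surjective_rangeRestrict
  refine ⟨a', b, ?_⟩
  ext x
  have := congrArg Subtype.val (LinearMap.congr_fun hb x)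
  simp only [LinearMap.comp_apply, LinearMap.codRestrict_apply, LinearMap.sub_apply,
    LinearMap.rangeRestrict] at this
  simp [this]

/-- `Y` is projective in the torsion class of `U` -/
def Pj (U Y : Cx k A) : Prop := T U Y.H ∧ ∀ M, T U M → T Y M

theorem Pj.ez {U Y : Cx k A} (h : Pj U Y) : EZ Y Y := EZ_of_T (h.2 _ h.1)

theorem EZ.pj {U : Cx k A} (h : EZ U U) : Pj U U := ⟨h.T_H, fun _ h => h⟩

theorem Pj.retr {U Y Y' : Cx k A} (h : Pj U Y) (R : Retr Y' Y) : Pj U Y' := by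
  obtain ⟨p, hp⟩ := R.surjH
  exact ⟨h.1.quot p hp, fun M hM => R.T (h.2 M hM)⟩

theorem Pj.sum {U Y Y' : Cx k A} (h : Pj U Y) (h' : Pj U Y') : Pj U (Y.sum Y') :=
  ⟨T_of_TP fun _ hZ => F.hz (F_sum (F_of_hom (hZ _ h.1)) (F_of_hom (hZ _ h'.1))),
    fun M hM => T_sum (h.2 M hM) (h'.2 M hM)⟩

theorem Pj.F_of_TP {U Y : Cx k A} (h : Pj U Y) {M : FM k A} (hM : TP U M) : F Y M :=
  F_of_hom (hM _ h.1)

theorem Pj.T_of_G {U Y : Cx k A} (h : Pj U Y) {M : FM k A} (hM : G Y M) : T U M :=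
  T_of_TP fun Z hZ => hM Z (h.F_of_TP hZ)

/-- `U` lies in the star of `U0` -/
def Star (U0 U : Cx k A) : Prop := (∀ M, T U M → T U0 M) ∧ ∀ M, F U M → F U0 M

theorem Star.refl (U : Cx k A) : Star U U := ⟨fun _ h => h, fun _ h => h⟩

theorem Star.trans {U V W : Cx k A} (h : Star U V) (h' : Star V W) : Star U W :=
  ⟨fun M hM => h.1 M (h'.1 M hM), fun M hM => h.2 M (h'.2 M hM)⟩

theorem Star.G {U0 U : Cx k A} (h : Star U0 U) {M : FM k A} (hM : G U0 M) : G U M :=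
  fun Z hZ => hM Z (h.2 Z hZ)

theorem Star.TP {U0 U : Cx k A} (h : Star U0 U) {M : FM k A} (hM : TP U0 M) : TP U M :=
  fun Z hZ => hM Z (h.1 Z hZ)

theorem Star.pj {U0 U : Cx k A} (h : Star U0 U) (hU : EZ U U) : Pj U U0 :=
  ⟨hU.T_of_G (h.G (G_H U0)), h.1⟩

theorem Star.sum (U V : Cx k A) : Star U (U.sum V) :=
  ⟨fun _ h => (Retr.inl U V).T h, fun _ h => (Retr.inl U V).F h⟩

theorem Star.of_sum {U0 U V : Cx k A} (h : Star U0 U) (R : Retr V U) : Star (U0.sum V) U :=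
  ⟨fun M hM => T_sum (h.1 M hM) (R.T hM), fun M hM => F_sum (h.2 M hM) (R.F hM)⟩

theorem T.liftS {U : Cx k A} {X Y : FM k A} (p : X →ₗ[A] Y) (hp : Function.Surjective p)
    (h : T U (X.sub (LinearMap.ker p))) (c : U.P0 →ₗ[A] Y) (hc : c ∘ₗ U.f = 0) :
    ∃ c' : U.P0 →ₗ[A] X, c' ∘ₗ U.f = 0 ∧ p ∘ₗ c' = c := by
  obtain ⟨c0, rfl⟩ := Module.projective_lifting_property p c hp
  obtain ⟨a, ha⟩ := h (LinearMap.codRestrict (LinearMap.ker p) (c0 ∘ₗ U.f) fun x =>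
    LinearMap.congr_fun hc x)
  refine ⟨c0 - (LinearMap.ker p).subtype ∘ₗ a, ?_, ?_⟩
  · ext x
    have := congrArg Subtype.val (LinearMap.congr_fun ha x)
    simp only [LinearMap.codRestrict_apply, LinearMap.comp_apply] at this
    simp [this]
  · ext x
    have : p (a x) = 0 := (a x).2
    simp [this]

theorem F.quo {U : Cx k A} {X : FM k A} (h : F U X) {N : Submodule A X} (hN : T U (X.sub N)) :
    F U (X.quo N) := by
  intro c hc
  obtain ⟨c', h1, rfl⟩ := hN.lift c hc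
  rw [h c' h1, LinearMap.comp_zero]

theorem exists_chain2 (Y' Y : Cx k A) (c : Y'.P0 →ₗ[A] Y.H) (hc : c ∘ₗ Y'.f = 0) :
    ∃ r1 : Y'.P1 →ₗ[A] Y.P1, ∃ r0 : Y'.P0 →ₗ[A] Y.P0, (∀ x, r0 (Y'.f x) = Y.f (r1 x)) ∧
      ∀ x, (LinearMap.range Y.f).mkQ (r0 x) = c x := by
  obtain ⟨p0, h0⟩ := Module.projective_lifting_property (LinearMap.range Y.f).mkQ c
    (Submodule.mkQ_surjective _)
  have hm : ∀ x, (p0 ∘ₗ Y'.f) x ∈ LinearMap.range Y.f := fun x => by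
    apply (Submodule.Quotient.mk_eq_zero _).1
    exact (LinearMap.congr_fun h0 (Y'.f x)).trans (LinearMap.congr_fun hc x)
  obtain ⟨p1, h1⟩ := Module.projective_lifting_property Y.f.rangeRestrict
    (LinearMap.codRestrict _ _ hm) Y.f.surjective_rangeRestrict
  exact ⟨p1, p0, fun x => (congrArg Subtype.val (LinearMap.congr_fun h1 x)).symm,
    fun x => LinearMap.congr_fun h0 x⟩

theorem split2 (W : Cx k A) {N1 N1' : Submodule A W.P1} {N0 N0' : Submodule A W.P0}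
    (h1 : IsCompl N1 N1') (h0 : IsCompl N0 N0') (a : ∀ x ∈ N1, W.f x ∈ N0)
    (b : ∀ x ∈ N1', W.f x ∈ N0') :
    ∃ W' : Cx k A, ∃ R : Retr W' W, LinearMap.range R.i0 = N0 ∧
      Nonempty (W'.P0 ≃ₗ[A] N0) ∧ Nonempty (W'.P1 ≃ₗ[A] N1) := by
  have := proj_of_compl h1
  have := proj_of_compl h0
  refine ⟨Cx.mk (W.P1.sub N1) (W.P0.sub N0) (W.f.restrict a),
    { i1 := N1.subtype, i0 := N0.subtype, r1 := N1.projectionOnto N1' h1,
      r0 := N0.projectionOnto N0' h0, s := 0, hi := fun x => rfl, hr := fun x => ?_,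
      h1 := fun x => by simp, h0 := fun x => by simp }, Submodule.range_subtype _,
      ⟨LinearEquiv.refl _ _⟩, ⟨LinearEquiv.refl _ _⟩⟩
  obtain ⟨u, hu, v, hv, rfl⟩ := Submodule.mem_sup.1 (h1.sup_eq_top ▸ Submodule.mem_top (x := x))
  rw [map_add, map_add, map_add, Submodule.projectionOnto_apply_of_mem_right h1 hv,
    Submodule.projectionOnto_apply_of_mem_right h0 (b v hv),
    Submodule.projectionOnto_apply_of_mem_left h1 hu,
    Submodule.projectionOnto_apply_of_mem_left h0 (a u hu), add_zero, add_zero]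
  rfl

/-- size of a complex -/
noncomputable def Cx.sz (U : Cx k A) : ℕ := finrank k U.P0 + finrank k U.P1

theorem surj_of_pow {X : FM k A} (p : X →ₗ[A] X) (n : ℕ)
    (h : finrank k X ≤ finrank k (X.sub (LinearMap.range (p ^ (n + 1))))) :
    Function.Bijective p := by
  have h1 : LinearMap.range (p ^ (n + 1)) = ⊤ := by
    by_contra hc
    exact (sub_lt hc).not_ge h
  have h2 : Function.Surjective p := by
    intro y
    obtain ⟨x, rfl⟩ : y ∈ LinearMap.range (p ^ (n + 1)) := h1 ▸ trivial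
    exact ⟨(p ^ n) x, by rw [pow_succ', Module.End.mul_apply]⟩
  exact ⟨(LinearMap.injective_iff_surjective (f := p.restrictScalars k)).2 h2, h2⟩

theorem fitting2 (W : Cx k A) (p1 : W.P1 →ₗ[A] W.P1) (p0 : W.P0 →ₗ[A] W.P0)
    (hc : ∀ x, p0 (W.f x) = W.f (p1 x)) : ∃ n : ℕ, ∃ W' : Cx k A, ∃ R : Retr W' W,
      LinearMap.range R.i0 = LinearMap.range (p0 ^ (n + 1)) ∧ W'.sz ≤ W.sz ∧
      (W.sz ≤ W'.sz → Function.Bijective p0 ∧ Function.Bijective p1) := by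
  obtain ⟨n, hn⟩ := Filter.eventually_atTop.1
    ((LinearMap.eventually_isCompl_ker_pow_range_pow (R := A) (M := W.P1) p1).and
    (LinearMap.eventually_isCompl_ker_pow_range_pow (R := A) (M := W.P0) p0))
  obtain ⟨h1, h0⟩ := hn (n + 1) (by omega)
  have hp : ∀ m : ℕ, ∀ x, (p0 ^ m) (W.f x) = W.f ((p1 ^ m) x) := by
    intro m
    induction m with
    | zero => intro x; rfl
    | succ m ih => intro x; rw [pow_succ', pow_succ', Module.End.mul_apply, Module.End.mul_apply, ih, hc]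
  obtain ⟨W', R, e1, ⟨e2⟩, ⟨e3⟩⟩ := split2 W h1.symm h0.symm
    (by rintro _ ⟨x, rfl⟩; exact ⟨W.f x, hp _ x⟩)
    (fun x hx => by rw [LinearMap.mem_ker] at hx ⊢; rw [hp, hx, map_zero])
  have d0 := dim_congr (Y := W.P0.sub (LinearMap.range (p0 ^ (n + 1)))) e2
  have d1 := dim_congr (Y := W.P1.sub (LinearMap.range (p1 ^ (n + 1)))) e3
  have l0 := dim_le_of_inj (X := W.P0.sub (LinearMap.range (p0 ^ (n + 1)))) (Submodule.subtype _)
    Subtype.val_injective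
  have l1 := dim_le_of_inj (X := W.P1.sub (LinearMap.range (p1 ^ (n + 1)))) (Submodule.subtype _)
    Subtype.val_injective
  refine ⟨n, W', R, e1, by unfold Cx.sz; omega, fun h => ?_⟩
  unfold Cx.sz at h
  exact ⟨surj_of_pow p0 n (by omega), surj_of_pow p1 n (by omega)⟩

theorem compl_of_bij {X Y : FM k A} (r : X →ₗ[A] Y) (s : Y →ₗ[A] X)
    (h : Function.Bijective (s ∘ₗ r)) : IsCompl (LinearMap.range r) (LinearMap.ker s) := by
  constructor
  · rw [Submodule.disjoint_def]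
    rintro _ ⟨x, rfl⟩ hx
    have : x = 0 := h.1 (by rw [map_zero]; exact hx)
    rw [this, map_zero]
  · rw [codisjoint_iff, eq_top_iff]
    intro y _
    obtain ⟨x, hx⟩ := h.2 (s y)
    refine Submodule.mem_sup.2 ⟨r x, ⟨x, rfl⟩, y - r x, ?_, by abel⟩
    rw [LinearMap.mem_ker, map_sub]
    exact sub_eq_zero.2 hx.symm

theorem hd_compl {X Y Y' : FM k A} (r : X →ₗ[A] Y) (s : Y →ₗ[A] X)
    (h : Function.Bijective (s ∘ₗ r)) (e : Y' ≃ₗ[A] LinearMap.ker s) :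
    (∀ M, hd Y M = hd X M + hd Y' M) ∧ finrank k Y = finrank k X + finrank k Y' := by
  have hr : Function.Injective r := Function.Injective.of_comp (f := s) h.1
  let E : (X.prod Y') ≃ₗ[A] Y := ((LinearEquiv.ofInjective r hr).prodCongr e).trans
    (Submodule.prodEquivOfIsCompl _ _ (compl_of_bij r s h))
  refine ⟨fun M => by rw [← hd_prod, hd_congr E], ?_⟩
  rw [← dim_congr E]
  exact Module.finrank_prod

theorem split_off (Tj Y : Cx k A) (r1 : Tj.P1 →ₗ[A] Y.P1) (r0 : Tj.P0 →ₗ[A] Y.P0)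
    (s1 : Y.P1 →ₗ[A] Tj.P1) (s0 : Y.P0 →ₗ[A] Tj.P0) (hr : ∀ x, r0 (Tj.f x) = Y.f (r1 x))
    (hs : ∀ x, s0 (Y.f x) = Tj.f (s1 x)) (b1 : Function.Bijective (s1 ∘ₗ r1))
    (b0 : Function.Bijective (s0 ∘ₗ r0)) :
    ∃ Y' : Cx k A, Nonempty (Retr Y' Y) ∧ (∀ M, pr Y M = pr Tj M + pr Y' M) ∧
      Y.sz = Tj.sz + Y'.sz := by
  obtain ⟨W', R, -, ⟨e0⟩, ⟨e1⟩⟩ := split2 Y (compl_of_bij r1 s1 b1).symm (compl_of_bij r0 s0 b0).symm
    (fun x hx => by rw [LinearMap.mem_ker] at hx ⊢; rw [hs, hx, map_zero])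
    (by rintro _ ⟨x, rfl⟩; exact ⟨Tj.f x, hr x⟩)
  obtain ⟨a0, d0⟩ := hd_compl r0 s0 b0 e0
  obtain ⟨a1, d1⟩ := hd_compl r1 s1 b1 e1
  refine ⟨W', ⟨R⟩, fun M => ?_, by unfold Cx.sz; omega⟩
  unfold pr
  rw [a0, a1]
  push_cast
  ring

theorem Retr.pr_bound {U V : Cx k A} (R : Retr U V) (M : FM k A) :
    -(hd V.P1 M : ℤ) ≤ pr U M ∧ pr U M ≤ hd V.P0 M := by
  have h1 : finrank k (LinearMap.ker (pre M U.f)) ≤ hd V.P0 M := by
    apply LinearMap.finrank_le_finrank_of_injective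
      (f := pre M R.r0 ∘ₗ (LinearMap.ker (pre M U.f)).subtype)
    rw [← LinearMap.ker_eq_bot, eq_bot_iff]
    rintro ⟨a, ha⟩ h
    have h0 : ∀ x, a (U.f x) = 0 := fun x => LinearMap.congr_fun ha x
    apply Subtype.ext
    ext x
    have h2 := LinearMap.congr_fun h (R.i0 x)
    simpa [R.h0, h0] using h2
  have h2 : finrank k ((U.P1 →ₗ[A] M) ⧸ LinearMap.range (pre M U.f)) ≤ hd V.P1 M := by
    apply LinearMap.finrank_le_finrank_of_surjective
      (f := (LinearMap.range (pre M U.f)).mkQ ∘ₗ pre M R.i1)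
    intro y
    obtain ⟨y, rfl⟩ := (LinearMap.range (pre M U.f)).mkQ_surjective y
    refine ⟨y ∘ₗ R.r1, (Submodule.Quotient.eq _).2 ⟨y ∘ₗ R.s, ?_⟩⟩
    ext x
    simp [R.h1]
  rw [pr_eq]
  omega

end Pool.Agent.Work.MP_ccf6ab_al
end

-- merged part: Pool.Agent.Work.MP_ccf6ab_al.Bd.Bong
section
set_option autoImplicit false

namespace Pool.Agent.Work.MP_ccf6ab_al

open Module

variable {k : Type} [Field k] {A : Type} [Ring A] [Algebra k A]

/-- the regular module -/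
abbrev FM.reg (k : Type) [Field k] (A : Type) [Ring A] [Algebra k A] [Module.Finite k A] :
    FM k A := FM.mk A

/-- finite powers -/
abbrev FM.pow (P : FM k A) (e : ℕ) : FM k A := FM.mk (Fin e → P)

instance FM.projPow (P : FM k A) [Projective A P] (e : ℕ) : Projective A (P.pow e) :=
  Module.Projective.of_equiv' (M := Π₀ _ : Fin e, P) DFinsupp.linearEquivFunOnFintype

theorem hd_pow (P M : FM k A) (e : ℕ) : hd (P.pow e) M = e * hd P M := by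
  unfold hd
  rw [← (LinearMap.lsum A (fun _ : Fin e => P) k).finrank_eq, Module.finrank_pi_fintype]
  simp

theorem hd_reg [Module.Finite k A] (M : FM k A) : hd (FM.reg k A) M = finrank k M :=
  (LinearMap.ringLmapEquivSelf A k M).finrank_eq

theorem hd_le (P M : FM k A) : hd P M ≤ finrank k P * finrank k M := by
  rw [← Module.finrank_linearMap k k]
  apply LinearMap.finrank_le_finrank_of_injective (f := LinearMap.restrictScalarsₗ k A P M k)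
  intro a b h
  ext x
  exact LinearMap.congr_fun h x

/-- Bongartz data -/
structure Bong (U B : Cx k A) (e : ℕ) : Prop where
  pj : Pj U B
  cls : ∀ M, pr B M = finrank k M + e * pr U M
  gen : ∃ b0 : B.P0, ∀ M, T U M → ∀ x : M, ∃ g : B.P0 →ₗ[A] M, g ∘ₗ B.f = 0 ∧ g b0 = x

theorem exists_bong [Module.Finite k A] {U : Cx k A} (hU : EZ U U) : ∃ B e, Bong U B e := by
  let c := Module.finBasis k (U.P1 →ₗ[A] FM.reg k A)
  set e := finrank k (U.P1 →ₗ[A] FM.reg k A)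
  let C : U.P1.pow e →ₗ[A] FM.reg k A := ∑ i, c i ∘ₗ LinearMap.proj i
  have hC : ∀ x, C x = ∑ i, c i (x i) := fun x => by simp [C]
  let B : Cx k A := Cx.mk (U.P1.pow e) ((FM.reg k A).prod (U.P0.pow e))
    (LinearMap.prod C (LinearMap.pi fun i => U.f ∘ₗ LinearMap.proj i))
  have hB : ∀ x, B.f x = (C x, fun i => U.f (x i)) := fun x => rfl
  refine ⟨B, e, ⟨EZ.T_H (fun χ => ?_), fun M hM h => ?_⟩, fun M => ?_, ⟨(1, 0), fun M hM x => ?_⟩⟩
  · choose h h' hh using fun i => hU (LinearMap.proj i ∘ₗ LinearMap.snd A _ _ ∘ₗ χ)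
    let a' : U.P1 →ₗ[A] FM.reg k A := LinearMap.fst A _ _ ∘ₗ χ - C ∘ₗ LinearMap.pi h'
    refine ⟨LinearMap.inr A _ _ ∘ₗ LinearMap.pi fun i => h i - c.repr a' i • LinearMap.id,
      LinearMap.pi fun i => h' i + c.repr a' i • LinearMap.id, ?_⟩
    apply LinearMap.ext
    intro x
    have e1 := LinearMap.congr_fun (c.sum_repr a') x
    apply Prod.ext
    · change (χ x).1 = 0 + C fun i => h' i x + c.repr a' i • x
      simp only [LinearMap.coe_sum, Finset.sum_apply, LinearMap.smul_apply] at e1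
      simp only [zero_add, hC, map_add, LinearMap.map_smul_of_tower, Finset.sum_add_distrib, e1]
      change _ = _ + ((χ x).1 - C fun i => h' i x)
      rw [hC]
      abel
    · funext i
      have e2 : (χ x).2 i = h i (U.f x) + U.f (h' i x) := LinearMap.congr_fun (hh i) x
      change (χ x).2 i = h i (U.f x) - c.repr a' i • U.f x + U.f (h' i x + c.repr a' i • x)
      rw [e2, map_add, LinearMap.map_smul_of_tower]
      abel
  · choose u hu using fun i => hM (h ∘ₗ LinearMap.single A (fun _ : Fin e => U.P1) i)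
    refine ⟨(∑ i, u i ∘ₗ LinearMap.proj i) ∘ₗ LinearMap.snd A _ _, ?_⟩
    apply LinearMap.ext
    intro x
    have e1 : h x = ∑ i, h (Pi.single i (x i)) := by
      rw [← map_sum, Finset.univ_sum_single]
    rw [e1, LinearMap.comp_apply, hB]
    change _ = (∑ i, u i ∘ₗ LinearMap.proj i : U.P0.pow e →ₗ[A] M) (fun i => U.f (x i))
    simp only [LinearMap.comp_apply, LinearMap.coe_sum, Finset.sum_apply, LinearMap.proj_apply]
    exact Finset.sum_congr rfl fun i _ => LinearMap.congr_fun (hu i) (x i)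
  · unfold pr
    simp only [B, hd_prod, hd_pow, hd_reg]
    push_cast
    ring
  · choose u hu using fun i => hM (-(LinearMap.toSpanSingleton A M x ∘ₗ c i))
    refine ⟨LinearMap.coprod (LinearMap.toSpanSingleton A M x) (∑ i, u i ∘ₗ LinearMap.proj i),
      ?_, ?_⟩
    swap
    · change (1 : A) • x + (∑ i, u i ∘ₗ LinearMap.proj i : U.P0.pow e →ₗ[A] M) 0 = x
      rw [map_zero, one_smul, add_zero]
    apply LinearMap.ext
    intro y
    change LinearMap.toSpanSingleton A M x (C y) +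
      (∑ i, u i ∘ₗ LinearMap.proj i : U.P0.pow e →ₗ[A] M) (fun i => U.f (y i)) = 0
    rw [hC]
    simp only [map_sum, LinearMap.coe_sum, Finset.sum_apply,
      LinearMap.comp_apply, LinearMap.proj_apply]
    rw [← Finset.sum_add_distrib]
    refine Finset.sum_eq_zero fun i _ => ?_
    have := LinearMap.congr_fun (hu i) (y i)
    simp only [LinearMap.comp_apply, LinearMap.neg_apply] at this
    rw [← this, add_neg_cancel]

theorem Bong.notF {U B : Cx k A} {e : ℕ} (h : Bong U B e) {M : FM k A} (hM : T U M)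
    (hn : Nontrivial M) : ¬ F B M := by
  intro hF
  obtain ⟨b0, hb⟩ := h.gen
  obtain ⟨x, hx⟩ := exists_ne (0 : M)
  obtain ⟨g, h1, h2⟩ := hb M hM x
  rw [hF g h1] at h2
  exact hx h2.symm

theorem bgF [Module.Finite k A] (U : Cx k A) {M : FM k A} (hM : TP U M) (hn : Nontrivial M) :
    ∃ K : Submodule A M, K ≠ ⊤ ∧ finrank k (M.quo K) ≤ hd U.P1 (FM.reg k A) ∧ TP U (M.quo K) := by
  have h1 : LinearMap.range (pre M U.f) < ⊤ := lt_top_iff_ne_top.2 fun h =>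
    not_subsingleton M (HZ.self (hM M (T_iff.2 h)))
  obtain ⟨l, hl0, hl⟩ := Submodule.exists_le_ker_of_lt_top _ h1
  let Λ : M →ₗ[k] ((U.P1 →ₗ[A] FM.reg k A) →ₗ[k] k) := LinearMap.mk₂ k
    (fun x ψ => l (LinearMap.toSpanSingleton A M x ∘ₗ ψ))
    (fun x y ψ => by rw [← map_add]; congr 1; ext p; simp)
    (fun c x ψ => by rw [← map_smul]; congr 1; ext p; simp [smul_comm c])
    (fun x ψ φ => by rw [← map_add, LinearMap.comp_add])
    (fun c x ψ => by rw [← map_smul]; congr 1; ext p; simp)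
  let K : Submodule A M :=
    { carrier := {x | ∀ ψ, Λ x ψ = 0}
      add_mem' := fun {x y} hx hy ψ => by rw [map_add, LinearMap.add_apply, hx ψ, hy ψ, add_zero]
      zero_mem' := fun ψ => by simp
      smul_mem' := fun a x hx ψ => by
        have := hx (LinearMap.toSpanSingleton A A a ∘ₗ ψ)
        rw [← this]
        change l _ = l _
        congr 1
        ext p
        simp [mul_smul] }
  have kill : ∀ χ : U.P1 →ₗ[A] M, (∀ p, χ p ∈ K) → l χ = 0 := by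
    intro χ hχ
    have : Module.Finite A U.P1 := Module.Finite.of_restrictScalars_finite k A _
    obtain ⟨n, f, g, -, -, hfg⟩ := Module.Finite.exists_comp_eq_id_of_projective A U.P1
    have e1 : χ = ∑ i, LinearMap.toSpanSingleton A M (χ (f (Pi.single i 1))) ∘ₗ
        (LinearMap.proj i ∘ₗ g) := by
      ext p
      have e2 : p = f (∑ i, g p i • Pi.single i 1) := by
        rw [← pi_eq_sum_univ' (g p)]
        exact (LinearMap.congr_fun hfg p).symm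
      conv_lhs => rw [e2]
      simp
    rw [e1, map_sum]
    exact Finset.sum_eq_zero fun i _ => hχ _ _
  refine ⟨K, fun h => hl0 (LinearMap.ext fun χ => kill χ fun p => h ▸ trivial), ?_, ?_⟩
  · have e1 : K.restrictScalars k = LinearMap.ker Λ := by
      ext x
      exact ⟨fun h => LinearMap.ext h, fun h ψ => LinearMap.congr_fun h ψ⟩
    have e2 : finrank k (M.sub K) = finrank k (LinearMap.ker Λ) := by rw [← e1]; rfl
    have e3 := LinearMap.finrank_range_add_finrank_ker Λ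
    have e4 := dim_ses M K
    have e5 := Submodule.finrank_le (LinearMap.range Λ)
    rw [Subspace.dual_finrank_eq] at e5
    unfold hd
    omega
  · intro Y hY ρ
    ext y
    obtain ⟨x, hx⟩ := K.mkQ_surjective (ρ y)
    rw [← hx]
    refine (Submodule.Quotient.mk_eq_zero K).2 fun ψ => ?_
    obtain ⟨a, ha⟩ := hY (LinearMap.toSpanSingleton A Y y ∘ₗ ψ)
    obtain ⟨a', ha'⟩ := Module.projective_lifting_property K.mkQ (ρ ∘ₗ a) K.mkQ_surjective
    have e1 := kill (LinearMap.toSpanSingleton A M x ∘ₗ ψ - a' ∘ₗ U.f) fun p => by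
      apply (Submodule.Quotient.mk_eq_zero K).1
      have e2 := LinearMap.congr_fun ha p
      have e3 := LinearMap.congr_fun ha' (U.f p)
      simp only [LinearMap.comp_apply, LinearMap.toSpanSingleton_apply] at e2 e3
      change K.mkQ _ = 0
      simp only [LinearMap.sub_apply, LinearMap.comp_apply, LinearMap.toSpanSingleton_apply,
        map_sub, map_smul, hx, e3, ← e2, sub_self]
    have e4 : l (a' ∘ₗ U.f) = 0 := hl ⟨a', rfl⟩
    rw [map_sub, e4, sub_zero] at e1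
    exact e1

theorem bgF_ind [Module.Finite k A] {Γ : Type} [AddCommGroup Γ] [LinearOrder Γ]
    [IsOrderedAddMonoid Γ] (U : Cx k A) {φ : FM k A → Γ} (hφ : Adv φ) (𝒞 : FM k A → Prop)
    (h𝒞 : ∀ (M : FM k A) (K : Submodule A M), TP U (M.sub K) → TP U (M.quo K) → 𝒞 M →
      𝒞 (M.sub K) ∧ 𝒞 (M.quo K))
    (hb : ∀ Y, TP U Y → 𝒞 Y → Nontrivial Y → finrank k Y ≤ hd U.P1 (FM.reg k A) → φ Y ≤ 0)
    (M : FM k A) (hM : TP U M) (hc : 𝒞 M) : φ M ≤ 0 := by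
  induction hn : finrank k M using Nat.strong_induction_on generalizing M with
  | _ n ih =>
  rcases subsingleton_or_nontrivial M with h | h
  · exact (hφ.zero h).le
  obtain ⟨K, h1, h2, h3⟩ := bgF U hM h
  have h4 : TP U (M.sub K) := hM.sub K.subtype Subtype.val_injective
  obtain ⟨h5, h6⟩ := h𝒞 M K h4 h3 hc
  rw [hφ.ses M K]
  exact add_nonpos (ih _ (hn ▸ sub_lt h1) (M.sub K) h4 h5 rfl)
    (hb _ h3 h6 (Submodule.Quotient.nontrivial_iff.2 h1) h2)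

theorem slopeP [Module.Finite k A] {U : Cx k A} (hU : EZ U U) {M : FM k A} (hM : TP U M) :
    (finrank k M : ℤ) + hd U.P1 (FM.reg k A) * pr U M ≤ 0 := by
  refine bgF_ind U (φ := fun M => (finrank k M : ℤ) + hd U.P1 (FM.reg k A) * pr U M)
    ⟨fun Z N => ?_, fun e => ?_⟩ (fun _ => True) (fun _ _ _ _ _ => ⟨trivial, trivial⟩) ?_ M hM trivial
  · rw [dim_ses Z N, pr_ses U Z N]; push_cast; ring
  · rw [dim_congr e, pr_congr U e]
  · intro Y hY _ hn hD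
    have h1 := (hU.TP_iff.1 hY).neg hn
    have h2 : (finrank k Y : ℤ) ≤ hd U.P1 (FM.reg k A) := by exact_mod_cast hD
    nlinarith [Nat.cast_nonneg (α := ℤ) (hd U.P1 (FM.reg k A))]

theorem slopeG {U : Cx k A} (hU : EZ U U) {M : FM k A} (hM : G U M) :
    (finrank k M : ℤ) ≤ finrank k U.P0 * pr U M := by
  induction hn : finrank k M using Nat.strong_induction_on generalizing M with
  | _ n ih =>
  rcases subsingleton_or_nontrivial M with h | h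
  · rw [pr_zero, ← hn, Module.finrank_zero_of_subsingleton]; simp
  obtain ⟨a, ha⟩ : ∃ a : U.H →ₗ[A] M, a ≠ 0 := by
    by_contra hc
    push Not at hc
    exact not_subsingleton M (HZ.self (hM M (F_of_hom hc)))
  have h1 : G U (M.sub (LinearMap.range a)) := (G_H U).quot a.rangeRestrict a.surjective_rangeRestrict
  have h2 := (hU.G_iff.1 h1).pos (nontriv_range ha)
  have h3 := ih _ (hn ▸ quo_lt fun h => ha (LinearMap.range_eq_bot.1 h))
    (hM.quot (Y := M.quo (LinearMap.range a)) (Submodule.mkQ _) (Submodule.mkQ_surjective _)) rfl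
  have h4 := dim_le_of_surj (X := U.P0) (Y := M.sub (LinearMap.range a))
    (a.rangeRestrict ∘ₗ (LinearMap.range U.f).mkQ)
    (a.surjective_rangeRestrict.comp (Submodule.mkQ_surjective _))
  have h5 : (finrank k (M.sub (LinearMap.range a)) : ℤ) ≤ finrank k U.P0 := by exact_mod_cast h4
  rw [← hn, dim_ses M (LinearMap.range a), pr_ses U M (LinearMap.range a)]
  push_cast
  nlinarith [Nat.cast_nonneg (α := ℤ) (finrank k U.P0)]

/-- lexicographic refinement -/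
noncomputable def Lx (U0 : Cx k A) (b : FM k A → ℝ) (M : FM k A) : ℤ ×ₗ ℝ := toLex (pr U0 M, b M)

theorem Lx_adv (U0 : Cx k A) {b : FM k A → ℝ} (hb : Adv b) : Adv (Lx U0 b) :=
  ⟨fun Z N => by unfold Lx; rw [pr_ses U0 Z N, hb.ses Z N]; rfl,
    fun e => by unfold Lx; rw [pr_congr U0 e, hb.congr e]⟩

theorem Lx_nonneg {U0 : Cx k A} {b : FM k A → ℝ} {M : FM k A} :
    0 ≤ Lx U0 b M ↔ 0 < pr U0 M ∨ pr U0 M = 0 ∧ 0 ≤ b M := by
  change toLex ((0 : ℤ), (0 : ℝ)) ≤ toLex _ ↔ _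
  rw [Prod.Lex.toLex_le_toLex, eq_comm]

theorem Lx_pos {U0 : Cx k A} {b : FM k A → ℝ} {M : FM k A} :
    0 < Lx U0 b M ↔ 0 < pr U0 M ∨ pr U0 M = 0 ∧ 0 < b M := by
  change toLex ((0 : ℤ), (0 : ℝ)) < toLex _ ↔ _
  rw [Prod.Lex.toLex_lt_toLex, eq_comm]

theorem Lx_nonpos {U0 : Cx k A} {b : FM k A → ℝ} {M : FM k A} :
    Lx U0 b M ≤ 0 ↔ pr U0 M < 0 ∨ pr U0 M = 0 ∧ b M ≤ 0 := by
  change toLex _ ≤ toLex ((0 : ℤ), (0 : ℝ)) ↔ _
  rw [Prod.Lex.toLex_le_toLex]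

theorem Lx_neg {U0 : Cx k A} {b : FM k A → ℝ} {M : FM k A} :
    Lx U0 b M < 0 ↔ pr U0 M < 0 ∨ pr U0 M = 0 ∧ b M < 0 := by
  change toLex _ < toLex ((0 : ℤ), (0 : ℝ)) ↔ _
  rw [Prod.Lex.toLex_lt_toLex]

theorem Lx_zero {U0 : Cx k A} {b : FM k A → ℝ} {M : FM k A} (h : Lx U0 b M = 0) :
    pr U0 M = 0 ∧ b M = 0 :=
  ⟨congrArg (fun z => (ofLex z).1) h, congrArg (fun z => (ofLex z).2) h⟩

theorem sT.lx1 {U0 : Cx k A} {b : FM k A → ℝ} {M : FM k A} (h : sT (Lx U0 b) M) :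
    sT (pr U0) M := fun Y p hp => by
  rcases Lx_nonneg.1 (h Y p hp) with h1 | h1
  · exact h1.le
  · exact h1.1.ge

theorem sF.lx1 {U0 : Cx k A} {b : FM k A → ℝ} {M : FM k A} (h : sF (Lx U0 b) M) :
    sF (pr U0) M := fun Y p hp => by
  rcases Lx_nonpos.1 (h Y p hp) with h1 | h1
  · exact h1.le
  · exact h1.1.le

theorem AllRigid.cls (hA : AllRigid k A) (V : Cx k A) : ∃ U, EZ U U ∧ ∀ M, pr U M = pr V M := by
  obtain ⟨M, hM, ⟨i⟩⟩ := hA V
  refine ⟨M, hM, fun Z => ?_⟩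
  have h1 := hd_congr (P := M.P0.prod V.P1) (Q := V.P0.prod M.P1) i Z
  simp only [hd_prod] at h1
  unfold pr
  omega

theorem prR_adv (Y : Cx k A) : Adv (fun M => (pr Y M : ℝ)) :=
  ⟨fun Z N => by rw [pr_ses Y Z N]; push_cast; rfl, fun e => by rw [pr_congr Y e]⟩

theorem lift [Module.Finite k A] (hA : AllRigid k A) {U0 : Cx k A} (hU0 : EZ U0 U0) (Y : Cx k A) :
    ∃ U, EZ U U ∧ (∀ M, T U M ↔ sT (Lx U0 fun M => (pr Y M : ℝ)) M) ∧
      ∀ M, F U M ↔ sF (Lx U0 fun M => (pr Y M : ℝ)) M := by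
  have hm : ∀ N : ℕ, ∃ V : Cx k A, ∀ M, pr V M = N * pr U0 M + pr Y M := by
    intro N
    induction N with
    | zero => exact ⟨Y, fun M => by simp⟩
    | succ N ih =>
      obtain ⟨V, hV⟩ := ih
      exact ⟨U0.sum V, fun M => by rw [pr_sum, hV]; push_cast; ring⟩
  obtain ⟨V, hV⟩ := hm (finrank k Y.P1 * finrank k U0.P0 +
    finrank k Y.P0 * hd U0.P1 (FM.reg k A) + 1)
  obtain ⟨U, hU, hc⟩ := hA.cls V
  have hb : ∀ M : FM k A, -((finrank k Y.P1 : ℤ) * finrank k M) ≤ pr Y M ∧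
      pr Y M ≤ (finrank k Y.P0 : ℤ) * finrank k M := fun M => by
    have h1 := (Retr.refl Y).pr_bound M
    have h2 : (hd Y.P1 M : ℤ) ≤ finrank k Y.P1 * finrank k M := by exact_mod_cast hd_le Y.P1 M
    have h3 : (hd Y.P0 M : ℤ) ≤ finrank k Y.P0 * finrank k M := by exact_mod_cast hd_le Y.P0 M
    constructor <;> linarith [h1.1, h1.2]
  have n1 := Nat.cast_nonneg (α := ℤ) (finrank k Y.P1)
  have n2 := Nat.cast_nonneg (α := ℤ) (finrank k Y.P0)
  have n3 := Nat.cast_nonneg (α := ℤ) (finrank k U0.P0)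
  have n4 := Nat.cast_nonneg (α := ℤ) (hd U0.P1 (FM.reg k A))
  have hG : ∀ M, G U0 M → Nontrivial M → 0 < pr U M := fun M hM hn => by
    have h1 := slopeG hU0 hM
    have h2 := (hU0.G_iff.1 hM).pos hn
    have h3 := mul_le_mul_of_nonneg_left h1 n1
    have h4 := mul_nonneg (mul_nonneg n2 n4) h2.le
    rw [hc, hV]
    push_cast
    nlinarith [(hb M).1]
  have hP : ∀ M, TP U0 M → Nontrivial M → pr U M < 0 := fun M hM hn => by
    have h1 := slopeP hU0 hM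
    have h2 := (hU0.TP_iff.1 hM).neg hn
    have h3 := mul_nonpos_of_nonneg_of_nonpos n2 h1
    have h4 := mul_nonpos_of_nonneg_of_nonpos (mul_nonneg n1 n3) h2.le
    rw [hc, hV]
    push_cast
    nlinarith [(hb M).2]
  have h0 : ∀ M, pr U0 M = 0 → pr U M = pr Y M := fun M h => by rw [hc, hV, h]; simp
  have hG' : ∀ M, G U0 M → 0 ≤ pr U M := fun M hM => by
    rcases subsingleton_or_nontrivial M with h | h
    · exact (pr_zero U M).ge
    · exact (hG M hM h).le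
  have hP' : ∀ M, TP U0 M → pr U M ≤ 0 := fun M hM => by
    rcases subsingleton_or_nontrivial M with h | h
    · exact (pr_zero U M).le
    · exact (hP M hM h).le
  refine ⟨U, hU, fun M => ⟨fun h Z p hp => ?_, fun h => hU.T_iff.2 fun Z p hp => ?_⟩,
    fun M => ⟨fun h Z p hp => ?_, fun h => hU.F_iff.2 fun Z p hp => ?_⟩⟩
  · have h1 := h.quot p hp
    have h2 : T U0 Z := T_of_TP fun L hL => h1.st.hz fun L' i hi => hP L' (hL.sub i hi)
    rcases h2.nonneg.lt_or_eq with h3 | h3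
    · exact Lx_nonneg.2 (Or.inl h3)
    · exact Lx_nonneg.2 (Or.inr ⟨h3.symm, by exact_mod_cast h0 Z h3.symm ▸ h1.nonneg⟩)
  · obtain ⟨t, h1, h2⟩ := G_part U0 Z
    rw [pr_ses U Z t]
    refine add_nonneg (hG' _ h1) ?_
    rcases Lx_nonneg.1 ((h.quot p hp) (Z.quo t) t.mkQ t.mkQ_surjective) with h3 | h3
    · exact absurd h2.nonpos h3.not_ge
    · rw [h0 _ h3.1]; exact_mod_cast h3.2
  · have h1 := h.sub p hp
    have h2 : F U0 Z := F_of_hom
      (sG.hz (fun L' i hi => hG L' ((G_H U0).quot i hi)) h1.sf)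
    rcases h2.nonpos.lt_or_eq with h3 | h3
    · exact Lx_nonpos.2 (Or.inl h3)
    · exact Lx_nonpos.2 (Or.inr ⟨h3, by exact_mod_cast h0 Z h3 ▸ h1.nonpos⟩)
  · obtain ⟨t, h1, h2⟩ := T_part U0 Z
    rw [pr_ses U Z t]
    refine add_nonpos ?_ (hP' _ h2)
    rcases Lx_nonpos.1 ((h.sub p hp) (Z.sub t) t.subtype Subtype.val_injective) with h3 | h3
    · exact absurd h1.nonneg h3.not_ge
    · rw [h0 _ h3.1]; exact_mod_cast h3.2

end Pool.Agent.Work.MP_ccf6ab_al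
end

-- merged part: Pool.Agent.Work.MP_ccf6ab_al.Bd.Sep
section
set_option autoImplicit false

namespace Pool.Agent.Work.MP_ccf6ab_al

open Module

variable {k : Type} [Field k] {A : Type} [Ring A] [Algebra k A]

/-- common kernel of all maps to members of a class -/
def cker (M : FM k A) (𝒞 : FM k A → Prop) : Submodule A M where
  carrier := {x | ∀ S, 𝒞 S → ∀ ρ : M →ₗ[A] S, ρ x = 0}
  add_mem' := fun {x y} hx hy S hS ρ => by rw [map_add, hx S hS, hy S hS, add_zero]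
  zero_mem' := fun S _ ρ => map_zero ρ
  smul_mem' := fun a x hx S hS ρ => by rw [map_smul, hx S hS, smul_zero]

theorem cker_sep (M : FM k A) (𝒞 : FM k A → Prop) (x : M.quo (cker M 𝒞))
    (hx : ∀ S, 𝒞 S → ∀ ρ : M.quo (cker M 𝒞) →ₗ[A] S, ρ x = 0) : x = 0 := by
  obtain ⟨x, rfl⟩ := (cker M 𝒞).mkQ_surjective x
  exact (Submodule.Quotient.mk_eq_zero _).2 fun S hS ρ =>
    hx S hS ((cker M 𝒞).liftQ ρ fun y hy => hy S hS ρ)

section
variable {Γ : Type} [AddCommGroup Γ] [LinearOrder Γ] [IsOrderedAddMonoid Γ] {Θ : FM k A → Γ}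

theorem cker_sF (hΘ : Adv Θ) (M : FM k A) {𝒞 : FM k A → Prop} (h : ∀ S, 𝒞 S → sF Θ S) :
    sF Θ (M.quo (cker M 𝒞)) := by
  refine sF_of hΘ fun Z hZ g => ?_
  ext z
  exact cker_sep M 𝒞 _ fun S hS ρ => LinearMap.congr_fun (hZ.hz (h S hS) (ρ ∘ₗ g)) z

theorem cog (hΘ : Adv Θ) {𝒞 : FM k A → Prop} (h : ∀ S, 𝒞 S → Stb Θ S) {N : FM k A}
    (hN : ∀ S, 𝒞 S → HZ S N) (M : FM k A) (hM : sT Θ M)
    (hs : ∀ x : M, (∀ S, 𝒞 S → ∀ ρ : M →ₗ[A] S, ρ x = 0) → x = 0) : HZ M N := by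
  induction hn : finrank k M using Nat.strong_induction_on generalizing M with
  | _ n ih =>
  by_cases hex : ∃ S, 𝒞 S ∧ ∃ ρ : M →ₗ[A] S, ρ ≠ 0
  · obtain ⟨S, hS, ρ, hρ⟩ := hex
    have h1 := (h S hS).surj hM hρ
    have h2 := ih _ (hn ▸ ker_lt ρ h1 (h S hS).1) (M.sub (LinearMap.ker ρ))
      (sW_ker hΘ hM ρ (h S hS).2.2.1)
      (fun x hx => Subtype.ext (hs x fun S' hS' ρ' => hx S' hS' (ρ' ∘ₗ Submodule.subtype _))) rfl
    intro g
    exact factor_zero ρ h1 g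
      (fun x hx => LinearMap.congr_fun (h2 (g ∘ₗ Submodule.subtype _)) ⟨x, hx⟩) (hN S hS)
  · push Not at hex
    exact HZ.of_sub_left (subsingleton_of_forall_eq 0 fun x =>
      hs x fun S hS ρ => by rw [hex S hS ρ]; rfl)

theorem cker_sup (hΘ : Adv Θ) (M : FM k A) (hM : sT Θ M) {𝒞 𝒟 : FM k A → Prop}
    (h1 : ∀ S, 𝒞 S → Stb Θ S) (h2 : ∀ S, 𝒟 S → Stb Θ S) (h : ∀ S S', 𝒞 S → 𝒟 S' → HZ S S') :
    cker M 𝒞 ⊔ cker M 𝒟 = ⊤ := by
  by_contra hc
  let N := M.quo (cker M 𝒞 ⊔ cker M 𝒟)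
  have hN : Nontrivial N := Submodule.Quotient.nontrivial_iff.2 hc
  have f1 := cker_sF hΘ M fun S hS => (h1 S hS).2.2.1
  have f2 := cker_sF hΘ M fun S hS => (h2 S hS).2.2.1
  have t1 : sT Θ (M.quo (cker M 𝒞)) := hM.quot (Submodule.mkQ _) (Submodule.mkQ_surjective _)
  have t2 : sT Θ (M.quo (cker M 𝒟)) := hM.quot (Submodule.mkQ _) (Submodule.mkQ_surjective _)
  let p1 : M.quo (cker M 𝒞) →ₗ[A] N := Submodule.factor le_sup_left
  let p2 : M.quo (cker M 𝒟) →ₗ[A] N := Submodule.factor le_sup_right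
  have s1 : Function.Surjective p1 := Submodule.factor_surjective _
  have s2 : Function.Surjective p2 := Submodule.factor_surjective _
  have k2 : sT Θ (M.sub (LinearMap.ker (cker M 𝒟).mkQ)) :=
    sW_ker hΘ hM (Y := M.quo (cker M 𝒟)) _ f2
  have k3 : sT Θ ((M.quo (cker M 𝒞)).sub (LinearMap.ker p1)) := by
    refine k2.quot (LinearMap.codRestrict _ ((cker M 𝒞).mkQ ∘ₗ Submodule.subtype _) fun x => ?_) ?_
    · exact (Submodule.Quotient.mk_eq_zero _).2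
        (Submodule.mem_sup_right ((Submodule.Quotient.mk_eq_zero _).1 x.2))
    · rintro ⟨y, hy⟩
      obtain ⟨y, rfl⟩ := (cker M 𝒞).mkQ_surjective y
      obtain ⟨u, hu, v, hv, rfl⟩ := Submodule.mem_sup.1 ((Submodule.Quotient.mk_eq_zero _).1 hy)
      refine ⟨⟨v, (Submodule.Quotient.mk_eq_zero _).2 hv⟩, Subtype.ext ?_⟩
      exact ((Submodule.Quotient.eq _).2 (by simpa using hu)).symm
  have z : Θ N = 0 := by
    have e := hΘ.surj p1 s1
    rw [t1.zero f1, k3.zero (f1.sub (Submodule.subtype _) Subtype.val_injective), zero_add] at e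
    exact e.symm
  obtain ⟨S, q, hq, hS⟩ := exists_stb_quo hΘ hN (t1.quot p1 s1) ((t1.quot p1 s1).toF hΘ z.le)
  have a1 : ∃ S1, 𝒞 S1 ∧ ∃ ρ : S1 →ₗ[A] S, ρ ≠ 0 := by
    by_contra hc
    push Not at hc
    exact not_subsingleton_iff_nontrivial.2 hS.1
      ((cog hΘ h1 hc _ t1 (cker_sep M 𝒞)).quot (q ∘ₗ p1) (hq.comp s1)).self
  have a2 : ∃ S2, 𝒟 S2 ∧ ∃ ρ : S2 →ₗ[A] S, ρ ≠ 0 := by
    by_contra hc
    push Not at hc
    exact not_subsingleton_iff_nontrivial.2 hS.1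
      ((cog hΘ h2 hc _ t2 (cker_sep M 𝒟)).quot (q ∘ₗ p2) (hq.comp s2)).self
  obtain ⟨S1, c1, ρ1, n1⟩ := a1
  obtain ⟨S2, c2, ρ2, n2⟩ := a2
  let e := LinearEquiv.ofBijective ρ2
    ⟨(h2 S2 c2).inj hΘ hS.2.2.1 n2, hS.surj (h2 S2 c2).2.1 n2⟩
  exact n1 ((h S1 S2 c1 c2).sub e.symm.toLinearMap e.symm.injective ρ1)

end

theorem sep {U Y : Cx k A} (hU : EZ U U) (hY : Pj U Y) (𝒮 : Set (FM k A))
    (h𝒮 : ∀ S ∈ 𝒮, Stb (pr U) S) : ∃ Y' : Cx k A, Nonempty (Retr Y' Y) ∧ (∀ S ∈ 𝒮, F Y' S) ∧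
      ∀ S0, Stb (pr U) S0 → (∀ S ∈ 𝒮, HZ S S0) → F Y' S0 → F Y S0 := by
  let 𝒟 : FM k A → Prop := fun S0 => Stb (pr U) S0 ∧ ∀ S ∈ 𝒮, HZ S S0
  have hM := hY.1.st
  have hsup := cker_sup (pr_adv U) Y.H hM (𝒞 := fun S => S ∈ 𝒮) (𝒟 := 𝒟) h𝒮 (fun S h => h.1)
    (fun S S' h h' => h'.2 S h)
  let K1 := cker Y.H fun S => S ∈ 𝒮
  let K2 := cker Y.H 𝒟
  have t1 : sT (pr U) (Y.H.sub (LinearMap.ker K1.mkQ)) := sW_ker (pr_adv U) hM (Y := Y.H.quo K1) _
    (cker_sF (pr_adv U) Y.H fun S hS => (h𝒮 S hS).2.2.1)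
  let p : Y.H.sub (LinearMap.ker K1.mkQ) →ₗ[A] Y.H.quo K2 := K2.mkQ ∘ₗ Submodule.subtype _
  have hp : Function.Surjective p := by
    intro y
    obtain ⟨y, rfl⟩ := K2.mkQ_surjective y
    obtain ⟨u, hu, v, hv, rfl⟩ := Submodule.mem_sup.1 (hsup ▸ Submodule.mem_top (x := y))
    exact ⟨⟨u, (Submodule.Quotient.mk_eq_zero _).2 hu⟩,
      ((Submodule.Quotient.eq _).2 (by simpa using hv)).symm⟩
  have t2 := sW_ker (pr_adv U) t1 p (cker_sF (pr_adv U) Y.H fun S hS => hS.1.2.2.1)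
  obtain ⟨c, hc, hc'⟩ := T.liftS p hp (hY.2 _ (hU.T_iff.2 t2))
    (K2.mkQ ∘ₗ (LinearMap.range Y.f).mkQ)
    (by rw [LinearMap.comp_assoc, LinearMap.range_mkQ_comp, LinearMap.comp_zero])
  obtain ⟨p1, p0, hch, hq⟩ := exists_chain2 Y Y (Submodule.subtype _ ∘ₗ c)
    (by rw [LinearMap.comp_assoc, hc, LinearMap.comp_zero])
  obtain ⟨n, W, R, e1, -⟩ := fitting2 Y p1 p0 hch
  refine ⟨W, ⟨R⟩, fun S hS a ha => ?_, fun S0 h0 h1 hF a ha => ?_⟩
  · have a0 : ∀ x, a (W.f x) = 0 := fun x => LinearMap.congr_fun ha x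
    ext x
    obtain ⟨y, hy⟩ : R.i0 x ∈ LinearMap.range (p0 ^ (n + 1)) := e1 ▸ ⟨x, rfl⟩
    have h2 : (LinearMap.range Y.f).mkQ (R.i0 x) ∈ K1 := by
      rw [← hy, pow_succ', Module.End.mul_apply, hq]
      exact (Submodule.Quotient.mk_eq_zero _).1 (c _).2
    have h3 : a (R.r0 (R.i0 x)) = 0 := h2 S hS ((LinearMap.range Y.f).liftQ (a ∘ₗ R.r0) (by
      rintro _ ⟨z, rfl⟩
      simp [R.hr, a0]))
    simpa [R.h0, a0] using h3
  · have a0 : ∀ x, a (Y.f x) = 0 := fun x => LinearMap.congr_fun ha x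
    have h2 : ∀ x, a (p0 x) = a x := fun x => by
      have h3 : (LinearMap.range Y.f).mkQ (p0 x) - (LinearMap.range Y.f).mkQ x ∈ K2 := by
        rw [hq]
        exact (Submodule.Quotient.eq _).1 (LinearMap.congr_fun hc' x)
      have h4 := h3 S0 ⟨h0, h1⟩ ((LinearMap.range Y.f).liftQ a (LinearMap.range_le_ker_iff.2 ha))
      rw [map_sub] at h4
      exact sub_eq_zero.1 h4
    have h3 : ∀ j : ℕ, ∀ x, a ((p0 ^ j) x) = a x := by
      intro j
      induction j with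
      | zero => intro x; rfl
      | succ j ih => intro x; rw [pow_succ', Module.End.mul_apply, h2, ih]
    have h4 := hF (a ∘ₗ R.i0) (by ext x; simp [R.hi, a0])
    ext x
    obtain ⟨y, hy⟩ : (p0 ^ (n + 1)) x ∈ LinearMap.range R.i0 := e1 ▸ ⟨x, rfl⟩
    rw [← h3 (n + 1), ← hy]
    exact LinearMap.congr_fun h4 y

theorem sepB {U B : Cx k A} {e : ℕ} (hU : EZ U U) (hB : Bong U B e) (𝒮 : Set (FM k A))
    (h𝒮 : ∀ S ∈ 𝒮, Stb (pr U) S) : ∃ Y : Cx k A, Nonempty (Retr Y B) ∧ (∀ S ∈ 𝒮, F Y S) ∧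
      ∀ S0, Stb (pr U) S0 → F Y S0 → ∃ S ∈ 𝒮, ¬ HZ S S0 := by
  obtain ⟨Y, R, h1, h2⟩ := sep hU hB.pj 𝒮 h𝒮
  refine ⟨Y, R, h1, fun S0 h0 hF => ?_⟩
  by_contra hc
  push Not at hc
  exact hB.notF (hU.T_iff.2 h0.2.1) h0.1 (h2 S0 h0 hc hF)

theorem filt {U Y : Cx k A} (hU : EZ U U) (hY : Pj U Y) {𝒮 : Set (FM k A)}
    (h𝒮 : ∀ S ∈ 𝒮, Stb (pr U) S) (h2 : ∀ S0, Stb (pr U) S0 → F Y S0 → ∃ S ∈ 𝒮, ¬ HZ S S0)
    {N : FM k A} (hN : ∀ S ∈ 𝒮, HZ S N) (M : FM k A) (hT : T U M) (hF : F U M) (hY' : F Y M) :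
    HZ M N := by
  induction hn : finrank k M using Nat.strong_induction_on generalizing M with
  | _ n ih =>
  rcases subsingleton_or_nontrivial M with h | h
  · exact HZ.of_sub_left h
  obtain ⟨L, hL, hs⟩ := exists_stb_sub h hT.st hF.sf
  obtain ⟨S, hS, hρ⟩ := h2 _ hs (hY'.sub L.subtype Subtype.val_injective)
  unfold HZ at hρ
  push Not at hρ
  obtain ⟨ρ, hρ⟩ := hρ
  have tL := hU.T_iff.2 hs.2.1
  exact HZ.ext_left L ((hN S hS).quot ρ (hs.surj (h𝒮 S hS).2.1 hρ))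
    (ih _ (hn ▸ quo_lt hL) (M.quo L) (hT.quot L.mkQ L.mkQ_surjective) (hF.quo tL)
      (hY'.quo (hY.2 _ tL)) rfl)

theorem hd_quo_le {P : FM k A} [Projective A P] (R : Submodule A P) {N : FM k A}
    (h : HZ (P.quo R) N) (t : Submodule A N) :
    hd (P.quo R) (N.quo t) ≤ finrank k (P.sub R) * finrank k (N.sub t) := by
  let H : Submodule k (P →ₗ[A] N) :=
    { carrier := {g | ∀ x ∈ R, g x ∈ t}
      add_mem' := fun {a b} ha hb x hx => t.add_mem (ha x hx) (hb x hx)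
      zero_mem' := fun x _ => t.zero_mem
      smul_mem' := fun c a ha x hx => t.smul_of_tower_mem c (ha x hx) }
  let α : H →ₗ[k] (P.quo R →ₗ[A] N.quo t) :=
    { toFun := fun g => R.mapQ t g.1 g.2
      map_add' := fun a b => by ext x; rfl
      map_smul' := fun c a => by ext x; rfl }
  let β : H →ₗ[k] (P.sub R →ₗ[A] N.sub t) :=
    { toFun := fun g => g.1.restrict g.2
      map_add' := fun a b => by ext x; rfl
      map_smul' := fun c a => by ext x; rfl }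
  have h1 : Function.Surjective α := by
    intro g
    obtain ⟨g', hg⟩ := Module.projective_lifting_property t.mkQ (g ∘ₗ R.mkQ) t.mkQ_surjective
    refine ⟨⟨g', fun x hx => (Submodule.Quotient.mk_eq_zero t).1 ?_⟩, ?_⟩
    · have := LinearMap.congr_fun hg x
      simp only [LinearMap.comp_apply, Submodule.mkQ_apply,
        (Submodule.Quotient.mk_eq_zero R).2 hx, map_zero] at this
      exact this
    · ext x
      exact LinearMap.congr_fun hg x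
  have h2 : Function.Injective β := by
    rw [← LinearMap.ker_eq_bot, eq_bot_iff]
    rintro ⟨g, hg⟩ h0
    have := h (R.liftQ g fun x hx => congrArg Subtype.val (LinearMap.congr_fun h0 ⟨x, hx⟩))
    apply Subtype.ext
    ext x
    exact LinearMap.congr_fun this (Submodule.Quotient.mk x)
  exact (LinearMap.finrank_le_finrank_of_surjective h1).trans
    ((LinearMap.finrank_le_finrank_of_injective h2).trans (hd_le _ _))

theorem lemV [Module.Finite k A] {U : Cx k A} (hU : EZ U U) {𝒮 : Set (FM k A)}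
    (h𝒮 : ∀ S ∈ 𝒮, Stb (pr U) S) : ∃ V : Cx k A, ∃ C : ℕ, (∀ S ∈ 𝒮, pr V S = 0) ∧
      ∀ N, T U N → (∀ S ∈ 𝒮, HZ S N) → (finrank k N : ℤ) ≤ C * pr V N := by
  obtain ⟨B, e, hB⟩ := exists_bong hU
  obtain ⟨Y, ⟨R⟩, h1, h2⟩ := sepB hU hB 𝒮 h𝒮
  have hY := hB.pj.retr R
  have hV := hU.pj.sum hY
  obtain ⟨b0, hb⟩ := hB.gen
  obtain ⟨τ, g1, g2⟩ := G_part (U.sum Y) B.H
  let π : B.P0 →ₗ[A] B.H.quo τ := τ.mkQ ∘ₗ (LinearMap.range B.f).mkQ
  have hπ : Function.Surjective π := τ.mkQ_surjective.comp (Submodule.mkQ_surjective _)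
  refine ⟨U.sum Y, (1 + finrank k (B.P0.sub (LinearMap.ker π))) * finrank k (U.sum Y).P0,
    fun S hS => ?_, fun N hN hS => ?_⟩
  · have t := hU.T_iff.2 (h𝒮 S hS).2.1
    exact le_antisymm (F_sum (hU.F_iff.2 (h𝒮 S hS).2.2.1) (h1 S hS)).nonpos (hV.2 S t).nonneg
  obtain ⟨t, t1, t2⟩ := G_part (U.sum Y) N
  have t3 : T U (N.quo t) := hN.quot t.mkQ t.mkQ_surjective
  have e0 : pr (U.sum Y) (N.quo t) = 0 := le_antisymm t2.nonpos (hV.2 _ t3).nonneg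
  have q1 : HZ (B.H.quo τ) N := filt hU hY h𝒮 h2 hS _
    (hB.pj.1.quot τ.mkQ τ.mkQ_surjective) ((Retr.inl U Y).F g2) ((Retr.inr U Y).F g2)
  let E : B.P0.quo (LinearMap.ker π) ≃ₗ[A] B.H.quo τ := π.quotKerEquivOfSurjective hπ
  have q2 := hd_quo_le (LinearMap.ker π) (q1.quot E.symm.toLinearMap E.symm.surjective) t
  have q3 : finrank k (N.quo t) ≤ hd (B.P0.quo (LinearMap.ker π)) (N.quo t) := by
    let ev : (B.P0.quo (LinearMap.ker π) →ₗ[A] N.quo t) →ₗ[k] N.quo t :=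
      { toFun := fun g => g (Submodule.Quotient.mk b0)
        map_add' := fun _ _ => rfl
        map_smul' := fun _ _ => rfl }
    refine LinearMap.finrank_le_finrank_of_surjective (f := ev) fun x => ?_
    obtain ⟨g, hg, hx⟩ := hb _ t3 x
    refine ⟨(LinearMap.ker π).liftQ g fun y hy => ?_, hx⟩
    exact LinearMap.congr_fun (g1 _ t2 ((LinearMap.range B.f).liftQ g
      (LinearMap.range_le_ker_iff.2 hg) ∘ₗ τ.subtype))
      ⟨(LinearMap.range B.f).mkQ y, (Submodule.Quotient.mk_eq_zero τ).1 hy⟩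
  have q4 := slopeG hV.ez t1
  have q5 : (finrank k (N.quo t) : ℤ) ≤
      finrank k (B.P0.sub (LinearMap.ker π)) * finrank k (N.sub t) := by
    exact_mod_cast q3.trans q2
  have q6 := mul_le_mul_of_nonneg_left q4
    (Nat.cast_nonneg (α := ℤ) (finrank k (B.P0.sub (LinearMap.ker π))))
  rw [dim_ses N t, pr_ses _ N t, e0]
  push_cast
  nlinarith

end Pool.Agent.Work.MP_ccf6ab_al
end

-- merged part: Pool.Agent.Work.MP_ccf6ab_al.Bd.Label
section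
set_option autoImplicit false

namespace Pool.Agent.Work.MP_ccf6ab_al

open Module

variable {k : Type} [Field k] {A : Type} [Ring A] [Algebra k A]

theorem Tors.comap {𝒯 : FM k A → Prop} (h : Tors 𝒯) {X Y : FM k A} {t : Submodule A X}
    (ht : 𝒯 (X.sub t)) (hY : 𝒯 Y) (ρ : Y →ₗ[A] X.quo t) :
    𝒯 (X.sub ((LinearMap.range ρ).comap t.mkQ)) := by
  have hle : t ≤ (LinearMap.range ρ).comap t.mkQ := fun x hx => by
    simp [(Submodule.Quotient.mk_eq_zero t).2 hx]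
  apply h.ext (X.sub t) (X.sub ((LinearMap.range ρ).comap t.mkQ))
    ((X.quo t).sub (LinearMap.range ρ)) (Submodule.inclusion hle)
    (LinearMap.codRestrict (LinearMap.range ρ)
      (t.mkQ ∘ₗ ((LinearMap.range ρ).comap t.mkQ).subtype)
      (fun x : ((LinearMap.range ρ).comap t.mkQ) => x.2)) _ _ ht
    (h.quot Y _ ρ.rangeRestrict ρ.surjective_rangeRestrict hY)
  · rintro ⟨y, hy⟩
    obtain ⟨x, rfl⟩ := t.mkQ_surjective y
    exact ⟨⟨x, hy⟩, rfl⟩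
  · intro x hx
    exact ⟨⟨x.1, (Submodule.Quotient.mk_eq_zero t).1 (congrArg Subtype.val hx)⟩, rfl⟩

theorem lab_simple {U Tn : Cx k A} (hTn : Pj U Tn) {𝒴 : Set (FM k A)} (h𝒴 : ∀ Y ∈ 𝒴, T U Y)
    {Z : FM k A} (hZ : ∀ Y ∈ 𝒴, HZ Y Z)
    (hmin : ∀ Z' : FM k A, Nontrivial Z' → T U Z' → (∀ Y ∈ 𝒴, HZ Y Z') →
      finrank k (LinearMap.ker (pre Z Tn.f)) ≤ finrank k (LinearMap.ker (pre Z' Tn.f)))
    {Y Y' : Cx k A} (hY : Pj U Y) (R : Retr Y' Tn) (φ : Y.P0 →ₗ[A] Z) (hφ : φ ∘ₗ Y.f = 0)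
    (hφ0 : φ ≠ 0) (ψ : Y'.P0 →ₗ[A] Z) (hψ : ψ ∘ₗ Y'.f = 0) :
    ∃ r1 : Y'.P1 →ₗ[A] Y.P1, ∃ r0 : Y'.P0 →ₗ[A] Y.P0, (∀ x, r0 (Y'.f x) = Y.f (r1 x)) ∧
      ∀ x, φ (r0 x) = ψ x := by
  let φb : Y.H →ₗ[A] Z := (LinearMap.range Y.f).liftQ φ (LinearMap.range_le_ker_iff.2 hφ)
  obtain ⟨K, ⟨hK1, hK2⟩, hmax⟩ := exists_maximal_of_wellFoundedGT
    (fun K : Submodule A Y.H => K ≤ LinearMap.ker φb ∧ T U (Y.H.sub K))
    ⟨⊥, bot_le, (T_tors U).zero _ (inferInstanceAs (Subsingleton (⊥ : Submodule A Y.H)))⟩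
  let j : Y.H.quo K →ₗ[A] Z := K.liftQ φb hK1
  have star : ∀ X, T U X → ∀ g : X →ₗ[A] Y.H.quo K, j ∘ₗ g = 0 → g = 0 := by
    intro X hX g hg
    have h1 := hmax (y := (LinearMap.range g).comap K.mkQ) ⟨?_, (T_tors U).comap hK2 hX g⟩
      (fun x hx => by simp [(Submodule.Quotient.mk_eq_zero K).2 hx])
    · ext x
      obtain ⟨y, hy⟩ := K.mkQ_surjective (g x)
      rw [← hy]
      exact (Submodule.Quotient.mk_eq_zero K).2 (h1 ⟨x, hy.symm⟩)
    · rintro y ⟨x, hx⟩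
      have := LinearMap.congr_fun hg x
      rw [LinearMap.comp_apply, hx] at this
      exact this
  have hn : Nontrivial (Y.H.quo K) := Submodule.Quotient.nontrivial_iff.2 fun ht => hφ0 (by
    ext x
    exact hK1 (ht ▸ trivial : (LinearMap.range Y.f).mkQ x ∈ K))
  have h2 := hmin _ hn (hY.1.quot K.mkQ K.mkQ_surjective)
    fun Y0 h0 g => star Y0 (h𝒴 Y0 h0) g (hZ Y0 h0 _)
  let J : LinearMap.ker (pre (Y.H.quo K) Tn.f) →ₗ[k] LinearMap.ker (pre Z Tn.f) :=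
    (post Tn.P0 j).restrict fun a ha => by
      change (j ∘ₗ a) ∘ₗ Tn.f = 0
      rw [LinearMap.comp_assoc, show a ∘ₗ Tn.f = 0 from ha, LinearMap.comp_zero]
  have hJ : Function.Injective J := by
    rw [← LinearMap.ker_eq_bot, eq_bot_iff]
    rintro ⟨a, ha⟩ h0
    have := star _ hTn.1 ((LinearMap.range Tn.f).liftQ a (LinearMap.range_le_ker_iff.2 ha)) (by
      ext x
      exact LinearMap.congr_fun (congrArg Subtype.val h0) x)
    apply Subtype.ext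
    ext x
    exact LinearMap.congr_fun this (Submodule.Quotient.mk x)
  have hJ' : Function.Surjective J :=
    (LinearMap.injective_iff_surjective_of_finrank_eq_finrank
      (le_antisymm (LinearMap.finrank_le_finrank_of_injective hJ) h2)).1 hJ
  have ψ0 : ∀ x, ψ (Y'.f x) = 0 := fun x => LinearMap.congr_fun hψ x
  obtain ⟨⟨χ, hχ⟩, e⟩ := hJ' ⟨ψ ∘ₗ R.r0, by ext x; simp [R.hr, ψ0]⟩
  have e1 : ∀ x, j (χ x) = ψ (R.r0 x) := fun x => LinearMap.congr_fun (congrArg Subtype.val e) x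
  have χ0 : ∀ x, χ (Tn.f x) = 0 := fun x => LinearMap.congr_fun hχ x
  obtain ⟨c, hc, hc'⟩ := ((hTn.retr R).2 _ hK2).lift (χ ∘ₗ R.i0) (by ext x; simp [R.hi, χ0])
  obtain ⟨r1, r0, h3, h4⟩ := exists_chain2 Y' Y c hc
  refine ⟨r1, r0, h3, fun x => ?_⟩
  have e2 : φ (r0 x) = j (K.mkQ ((LinearMap.range Y.f).mkQ (r0 x))) := rfl
  have e3 : K.mkQ (c x) = χ (R.i0 x) := LinearMap.congr_fun hc' x
  rw [e2, h4, e3, e1, R.h0, map_add, ψ0, add_zero]

theorem lab_dec {U Tn : Cx k A} (hTn : Pj U Tn) {𝒴 : Set (FM k A)} (h𝒴 : ∀ Y ∈ 𝒴, T U Y)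
    {Z : FM k A} (hZ : ∀ Y ∈ 𝒴, HZ Y Z)
    (hmin : ∀ Z' : FM k A, Nontrivial Z' → T U Z' → (∀ Y ∈ 𝒴, HZ Y Z') →
      finrank k (LinearMap.ker (pre Z Tn.f)) ≤ finrank k (LinearMap.ker (pre Z' Tn.f)))
    (hF : ¬ F Tn Z) : ∃ Tj : Cx k A, Pj U Tj ∧ ¬ F Tj Z ∧ ∀ Y : Cx k A, Retr Y Tn →
      ∃ a : ℕ, ∃ Y' : Cx k A, Nonempty (Retr Y' Y) ∧ F Y' Z ∧
        ∀ M, pr Y M = a * pr Tj M + pr Y' M := by
  obtain ⟨Tj, ⟨⟨Rj⟩, hj⟩, hm⟩ := exists_minimalFor_of_wellFoundedLT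
    (fun W : Cx k A => Nonempty (Retr W Tn) ∧ ¬ F W Z) Cx.sz ⟨Tn, ⟨Retr.refl _⟩, hF⟩
  refine ⟨Tj, hTn.retr Rj, hj, fun Y R => ?_⟩
  induction hn : Y.sz using Nat.strong_induction_on generalizing Y with
  | _ n ih =>
  by_cases hY : F Y Z
  · exact ⟨0, Y, ⟨Retr.refl _⟩, hY, fun M => by simp⟩
  have hj' := hj
  unfold F at hY hj'
  push Not at hY hj'
  obtain ⟨ψ, ψ1, ψ0⟩ := hY
  obtain ⟨φ, φ1, φ0⟩ := hj'
  obtain ⟨r1, r0, hr, hr'⟩ := lab_simple hTn h𝒴 hZ hmin (hTn.retr R) Rj ψ ψ1 ψ0 φ φ1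
  obtain ⟨s1, s0, hs, hs'⟩ := lab_simple hTn h𝒴 hZ hmin (hTn.retr Rj) R φ φ1 φ0 ψ ψ1
  obtain ⟨m, W, RW, e1, e2, e3⟩ := fitting2 Tj (s1 ∘ₗ r1) (s0 ∘ₗ r0)
    (fun x => by simp [hr, hs])
  have h3 : ∀ j : ℕ, ∀ x, φ (((s0 ∘ₗ r0) ^ j) x) = φ x := by
    intro j
    induction j with
    | zero => intro x; rfl
    | succ j ih => intro x; rw [pow_succ', Module.End.mul_apply, LinearMap.comp_apply, hs', hr', ih]
  have hW : ¬ F W Z := fun hF => φ0 (by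
    have h4 := hF (φ ∘ₗ RW.i0) (by
      ext x
      simp only [LinearMap.comp_apply, RW.hi]
      exact LinearMap.congr_fun φ1 _)
    ext x
    obtain ⟨y, hy⟩ : ((s0 ∘ₗ r0) ^ (m + 1)) x ∈ LinearMap.range RW.i0 := e1 ▸ ⟨x, rfl⟩
    rw [← h3 (m + 1), ← hy]
    exact LinearMap.congr_fun h4 y)
  obtain ⟨b0, b1⟩ := e3 (hm ⟨⟨RW.trans Rj⟩, hW⟩ e2)
  obtain ⟨Y', ⟨R'⟩, c1, c2⟩ := split_off Tj Y r1 r0 s1 s0 hr hs b1 b0
  have hpos : 0 < finrank k Tj.P0 := by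
    apply dim_pos
    by_contra hc
    exact φ0 (HZ.of_sub_left (not_nontrivial_iff_subsingleton.1 hc) φ)
  obtain ⟨a, Y'', ⟨R''⟩, d1, d2⟩ := ih Y'.sz (by unfold Cx.sz at *; omega) Y' (R'.trans R) rfl
  exact ⟨a + 1, Y'', ⟨R''.trans R'⟩, d1, fun M => by rw [c1, d2]; push_cast; ring⟩

theorem label [Module.Finite k A] {U0 U : Cx k A} (hU : EZ U U) (hs : Star U0 U)
    (𝒴 : Set (FM k A)) (h𝒴 : ∀ Y ∈ 𝒴, T U Y) {N : FM k A} (hn : Nontrivial N)
    (hT : T U N) (hN : ∀ Y ∈ 𝒴, HZ Y N) :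
    ∃ Z : FM k A, ∃ U' : Cx k A, Nontrivial Z ∧ T U Z ∧ (∀ Y ∈ 𝒴, HZ Y Z) ∧
      Nonempty (Retr U' U) ∧ F U' Z ∧
      ((∀ L, T U0 L → F U0 L → pr U' L = 0) → ∀ L, T U0 L → F U0 L → T U L) := by
  obtain ⟨B, e, hB⟩ := exists_bong hU
  have hTn := hU.pj.sum hB.pj
  obtain ⟨Z, ⟨z1, z2, z3⟩, hm⟩ := exists_minimalFor_of_wellFoundedLT
    (fun Z : FM k A => Nontrivial Z ∧ T U Z ∧ ∀ Y ∈ 𝒴, HZ Y Z)
    (fun Z => finrank k (LinearMap.ker (pre Z (U.sum B).f))) ⟨N, hn, hT, hN⟩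
  obtain ⟨Tj, hj, hj', hd⟩ := lab_dec hTn h𝒴 z3
    (fun Z' a b c => le_of_not_gt fun h => h.not_ge (hm ⟨a, b, c⟩ h.le))
    (fun h => hB.notF z2 z1 ((Retr.inr U B).F h))
  obtain ⟨a, U', ⟨R⟩, u1, u2⟩ := hd U (Retr.inl U B)
  obtain ⟨b, B', ⟨R'⟩, v1, v2⟩ := hd B (Retr.inr U B)
  refine ⟨Z, U', z1, z2, z3, ⟨R⟩, u1, fun hz L l1 l2 => ?_⟩
  have hB' := hB.pj.retr R'
  have g0 : 0 < pr Tj Z := lt_of_not_ge fun h => hj' ((hj.2 _ z2).toF h)
  have e1 := hB.cls Z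
  have e2 : pr B' Z = 0 := le_antisymm v1.nonpos (hB'.2 _ z2).nonneg
  have e3 : pr U' Z = 0 := le_antisymm u1.nonpos (R.T z2).nonneg
  have e4 : (0 : ℤ) < finrank k Z := by exact_mod_cast dim_pos z1
  rw [v2, u2, e2, e3] at e1
  have hb : (e : ℤ) * a < b := by nlinarith
  have hV := ((hs.pj hU).sum hB').sum hj
  obtain ⟨t, t1, t2⟩ := G_part ((U0.sum B').sum Tj) L
  have f1 := (Retr.inr (U0.sum B') Tj).F t2
  have f2 := (Retr.inl (U0.sum B') Tj).F t2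
  have f3 := (Retr.inr U0 B').F f2
  have f4 := (Retr.inl U0 B').F f2
  have e5 := hB.cls (L.quo t)
  rw [v2, u2, hz _ (l1.quot t.mkQ t.mkQ_surjective) f4] at e5
  have e6 : finrank k (L.quo t) = 0 := by
    have := f1.nonpos
    have := f3.nonpos
    have : (finrank k (L.quo t) : ℤ) ≤ 0 := by nlinarith
    omega
  exact (T_tors U).of_top (Submodule.Quotient.subsingleton_iff.1
    (Module.finrank_zero_iff (R := k) (M := L.quo t) |>.1 e6)) (hV.T_of_G t1)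

end Pool.Agent.Work.MP_ccf6ab_al
end

-- merged part: Pool.Agent.Work.MP_ccf6ab_al.Bd.Lin
section
set_option autoImplicit false

namespace Pool.Agent.Work.MP_ccf6ab_al

open Module Filter Topology

variable {n : ℕ}

theorem rat_near (𝒜 : Set (Fin n → ℕ)) (y0 : Fin n → ℝ)
    (h : ∀ x ∈ 𝒜, y0 ⬝ᵥ (fun l => (x l : ℝ)) = 0) {𝒩 : Set (Fin n → ℝ)} (h𝒩 : 𝒩 ∈ 𝓝 y0) :
    ∃ q : Fin n → ℚ, (fun l => (q l : ℝ)) ∈ 𝒩 ∧
      ∀ x ∈ 𝒜, (fun l => (q l : ℝ)) ⬝ᵥ (fun l => (x l : ℝ)) = 0 := by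
  let W : Submodule ℚ ℝ := Submodule.span ℚ (Set.range y0)
  have : Module.Finite ℚ W := Module.Finite.span_of_finite ℚ (Set.finite_range y0)
  let b := Module.finBasis ℚ W
  let w : Fin n → W := fun l => ⟨y0 l, Submodule.subset_span ⟨l, rfl⟩⟩
  let Y : (Fin (finrank ℚ W) → ℝ) → Fin n → ℝ := fun t l => ∑ j, (b.repr (w l) j : ℝ) * t j
  have hc : Continuous Y := by fun_prop
  have h0 : Y (fun j => (b j : ℝ)) = y0 := by
    funext l
    have := congrArg W.subtype (b.sum_repr (w l))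
    rw [map_sum] at this
    exact (Finset.sum_congr rfl fun j _ => (Rat.smul_def _ _).symm).trans this
  have hd : DenseRange (Pi.map fun (_ : Fin (finrank ℚ W)) (q : ℚ) => (q : ℝ)) :=
    DenseRange.piMap fun _ => Rat.denseRange_cast
  obtain ⟨t, ht⟩ := hd.mem_nhds (hc.continuousAt.preimage_mem_nhds (h0 ▸ h𝒩))
  have e : (fun l => ((∑ j, b.repr (w l) j * t j : ℚ) : ℝ)) =
      Y (Pi.map (fun (_ : Fin (finrank ℚ W)) (q : ℚ) => (q : ℝ)) t) := by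
    funext l
    simp [Y]
  refine ⟨fun l => ∑ j, b.repr (w l) j * t j, e ▸ ht, fun x hx => ?_⟩
  have h1 : ∑ l, (x l : ℚ) • w l = 0 := by
    apply Subtype.ext
    have := h x hx
    simp only [dotProduct] at this
    simpa [w, Rat.smul_def, mul_comm] using this
  have h2 : ∀ j, ∑ l, (x l : ℚ) * b.repr (w l) j = 0 := fun j => by
    have := congrArg (fun z => b.repr z j) h1
    simpa using this
  have h3 : ∑ l, (∑ j, b.repr (w l) j * t j) * (x l : ℚ) = 0 := by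
    simp only [Finset.sum_mul]
    rw [Finset.sum_comm]
    refine Finset.sum_eq_zero fun j _ => ?_
    have := congrArg (fun z => z * t j) (h2 j)
    simp only [Finset.sum_mul, zero_mul] at this
    rw [← this]
    exact Finset.sum_congr rfl fun l _ => by ring
  simp only [dotProduct]
  exact_mod_cast h3

theorem exists_den (q : Fin n → ℚ) : ∃ m : ℕ, 0 < m ∧ ∃ z : Fin n → ℤ, ∀ l, (z l : ℚ) = m * q l := by
  refine ⟨∏ l, (q l).den, Finset.prod_pos fun l _ => (q l).den_pos, ?_⟩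
  have : ∀ l, ∃ z : ℤ, (z : ℚ) = (∏ l, (q l).den : ℕ) * q l := fun l => by
    obtain ⟨c, hc⟩ := Finset.dvd_prod_of_mem (fun l => (q l).den) (Finset.mem_univ l)
    refine ⟨c * (q l).num, ?_⟩
    rw [hc]
    push_cast
    rw [← Rat.mul_den_eq_num]
    ring
  exact ⟨fun l => (this l).choose, fun l => (this l).choose_spec⟩

theorem exists_orth (Λ : Submodule ℝ (Fin n → ℝ)) (v : Fin n → ℝ) :
    ∃ u ∈ Λ, ∀ x ∈ Λ, u ⬝ᵥ x = v ⬝ᵥ x := by
  let B : (Fin n → ℝ) →ₗ[ℝ] (Fin n → ℝ) →ₗ[ℝ] ℝ := LinearMap.mk₂ ℝ (fun u x => u ⬝ᵥ x)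
    add_dotProduct smul_dotProduct dotProduct_add (fun c u x => dotProduct_smul c u x)
  let B' : Λ →ₗ[ℝ] Module.Dual ℝ Λ := B.compl₁₂ Λ.subtype Λ.subtype
  have hi : Function.Injective B' := by
    rw [← LinearMap.ker_eq_bot, eq_bot_iff]
    intro u hu
    exact Subtype.ext (dotProduct_self_eq_zero.1 (LinearMap.congr_fun hu u))
  obtain ⟨u, hu⟩ := (LinearMap.injective_iff_surjective_of_finrank_eq_finrank
    Subspace.dual_finrank_eq.symm).1 hi (B v ∘ₗ Λ.subtype)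
  exact ⟨u, u.2, fun x hx => LinearMap.congr_fun hu ⟨x, hx⟩⟩

theorem lim_dir {α : Type*} [Nonempty α] (r : α → α → Prop) (hr : ∀ a b c, r a b → r b c → r a c)
    (hd : ∀ a b, ∃ c, r a c ∧ r b c) (Λ : Submodule ℝ (Fin n → ℝ)) (v : α → Fin n → ℝ)
    (hv : ∀ a, ∃ x ∈ Λ, v a ⬝ᵥ x ≠ 0) :
    ∃ θ ∈ Λ, θ ≠ 0 ∧ ∀ a, ∀ x ∈ Λ, (0 < θ ⬝ᵥ x → ∃ b, r a b ∧ 0 < v b ⬝ᵥ x) ∧
      (θ ⬝ᵥ x < 0 → ∃ b, r a b ∧ v b ⬝ᵥ x < 0) := by
  choose u hu hu' using fun a => exists_orth Λ (v a)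
  have h0 : ∀ a, 0 < ‖u a‖ := fun a => by
    rw [norm_pos_iff]
    intro h
    obtain ⟨x, hx, h1⟩ := hv a
    rw [← hu' a x hx, h] at h1
    exact h1 (zero_dotProduct x)
  let w : α → Fin n → ℝ := fun a => ‖u a‖⁻¹ • u a
  let K : Set (Fin n → ℝ) := Metric.sphere 0 1 ∩ Λ
  have hK : IsCompact K := (isCompact_sphere 0 1).inter_right Λ.closed_of_finiteDimensional
  have hw : ∀ a, w a ∈ K := fun a => ⟨by
    simp [w, norm_smul, (h0 a).ne'], Λ.smul_mem _ (hu a)⟩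
  have hsub : ∀ a, closure (w '' {b | r a b}) ⊆ K := fun a =>
    closure_minimal (by rintro _ ⟨b, -, rfl⟩; exact hw b) hK.isClosed
  obtain ⟨θ, hθ⟩ := IsCompact.nonempty_iInter_of_directed_nonempty_isCompact_isClosed
    (fun a => closure (w '' {b | r a b}))
    (fun a b => by
      obtain ⟨c, h1, h2⟩ := hd a b
      exact ⟨c, closure_mono (Set.image_mono fun d hd => hr _ _ _ h1 hd),
        closure_mono (Set.image_mono fun d hd => hr _ _ _ h2 hd)⟩)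
    (fun a => by
      obtain ⟨c, h1, -⟩ := hd a a
      exact ⟨w c, subset_closure ⟨c, h1, rfl⟩⟩)
    (fun a => hK.of_isClosed_subset isClosed_closure (hsub a)) (fun a => isClosed_closure)
  rw [Set.mem_iInter] at hθ
  have h1 := hsub _ (hθ (Classical.arbitrary α))
  refine ⟨θ, h1.2, fun h => by simpa [h] using h1.1, fun a x hx => ⟨fun h => ?_, fun h => ?_⟩⟩
  · obtain ⟨_, h2, b, h3, rfl⟩ := mem_closure_iff.1 (hθ a) {y | 0 < y ⬝ᵥ x}
      (isOpen_lt continuous_const (by fun_prop)) h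
    refine ⟨b, h3, ?_⟩
    rw [← hu' b x hx]
    simp only [w, Set.mem_ofPred_eq, smul_dotProduct, smul_eq_mul] at h2
    exact (mul_pos_iff_of_pos_left (inv_pos.2 (h0 b))).1 h2
  · obtain ⟨_, h2, b, h3, rfl⟩ := mem_closure_iff.1 (hθ a) {y | y ⬝ᵥ x < 0}
      (isOpen_lt (by fun_prop) continuous_const) h
    refine ⟨b, h3, ?_⟩
    rw [← hu' b x hx]
    simp only [w, Set.mem_ofPred_eq, smul_dotProduct, smul_eq_mul] at h2
    exact neg_of_mul_neg_right h2 (inv_pos.2 (h0 b)).le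

theorem sign_near (s : Set (Fin n → ℝ)) (hs : s.Finite) (θ : Fin n → ℝ) :
    ∀ᶠ y in 𝓝 θ, ∀ x ∈ s, (θ ⬝ᵥ x < 0 → y ⬝ᵥ x < 0) ∧ (0 < θ ⬝ᵥ x → 0 < y ⬝ᵥ x) := by
  rw [eventually_all_finite hs]
  intro x _
  have hc : Continuous fun y : Fin n → ℝ => y ⬝ᵥ x := by fun_prop
  refine Eventually.and ?_ ?_
  · by_cases h : θ ⬝ᵥ x < 0
    · exact (hc.continuousAt.eventually_lt continuousAt_const h).mono fun y hy _ => hy
    · exact Eventually.of_forall fun y h' => absurd h' h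
  · by_cases h : 0 < θ ⬝ᵥ x
    · exact (continuousAt_const.eventually_lt hc.continuousAt h).mono fun y hy _ => hy
    · exact Eventually.of_forall fun y h' => absurd h' h

theorem orth_span {s : Set (Fin n → ℝ)} {y x : Fin n → ℝ} (h : ∀ x ∈ s, y ⬝ᵥ x = 0)
    (hx : x ∈ Submodule.span ℝ s) : y ⬝ᵥ x = 0 := by
  induction hx using Submodule.span_induction with
  | mem x hx => exact h x hx
  | zero => exact dotProduct_zero y
  | add a b _ _ h1 h2 => rw [dotProduct_add, h1, h2, add_zero]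
  | smul c a _ h1 => rw [dotProduct_smul, h1, smul_zero]

end Pool.Agent.Work.MP_ccf6ab_al
end

-- merged part: Pool.Agent.Work.MP_ccf6ab_al.Bd.Coord
section
set_option autoImplicit false

namespace Pool.Agent.Work.MP_ccf6ab_al

open Module Filter Topology

variable {k : Type} [Field k] {A : Type} [Ring A] [Algebra k A]

theorem simples_of (M : FM k A) : ∃ l : List (FM k A), ∀ S : FM k A, IsSimpleModule A S →
    ¬ HZ M S → ∃ L ∈ l, Nonempty (S ≃ₗ[A] L) := by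
  induction hn : finrank k M using Nat.strong_induction_on generalizing M with
  | _ n ih =>
  rcases subsingleton_or_nontrivial M with h | h
  · exact ⟨[], fun S _ hS => absurd (HZ.of_sub_left h) hS⟩
  obtain ⟨N, hN⟩ := simple_quo M
  have h1 : N ≠ ⊤ := Submodule.Quotient.nontrivial_iff.1 (IsSimpleModule.nontrivial A _)
  obtain ⟨l, hl⟩ := ih _ (hn ▸ sub_lt h1) (M.sub N) rfl
  refine ⟨M.quo N :: l, fun S hS hM => ?_⟩
  by_cases h2 : HZ (M.sub N) S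
  · obtain ⟨ρ, hρ⟩ : ∃ ρ : M.quo N →ₗ[A] S, ρ ≠ 0 := by
      by_contra hc
      push Not at hc
      exact hM (HZ.ext_left N h2 hc)
    exact ⟨M.quo N, List.mem_cons_self,
      ⟨(LinearEquiv.ofBijective ρ (LinearMap.bijective_of_ne_zero hρ)).symm⟩⟩
  · obtain ⟨L, hL, e⟩ := hl S hS h2
    exact ⟨L, List.mem_cons_of_mem _ hL, e⟩

theorem exists_det [Module.Finite k A] : ∃ n : ℕ, ∃ S : Fin n → FM k A,
    ∀ {Γ : Type} [AddCommGroup Γ] (φ ψ : FM k A → Γ), Adv φ → Adv ψ →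
      (∀ l, φ (S l) = ψ (S l)) → φ = ψ := by
  obtain ⟨l, hl⟩ := simples_of (FM.reg k A)
  refine ⟨l.length, l.get, fun φ ψ hφ hψ h => funext fun M => ?_⟩
  induction hn : finrank k M using Nat.strong_induction_on generalizing M with
  | _ n ih =>
  rcases subsingleton_or_nontrivial M with h0 | h0
  · rw [hφ.zero h0, hψ.zero h0]
  obtain ⟨N, hN⟩ := simple_quo M
  have h1 : N ≠ ⊤ := Submodule.Quotient.nontrivial_iff.1 (IsSimpleModule.nontrivial A _)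
  obtain ⟨L, hL, ⟨e⟩⟩ := hl (M.quo N) hN (fun hz => by
    have := IsSimpleModule.nontrivial A (M ⧸ N)
    obtain ⟨x, hx⟩ := exists_ne (0 : M ⧸ N)
    exact hx ((one_smul A x).symm.trans
      (LinearMap.congr_fun (hz (LinearMap.toSpanSingleton A _ x)) (1 : A))))
  obtain ⟨j, rfl⟩ := List.get_of_mem hL
  rw [hφ.ses M N, hψ.ses M N, ih _ (hn ▸ sub_lt h1) (M.sub N) rfl, hφ.congr e, hψ.congr e, h j]

theorem fin_retr [Module.Finite k A] (U : Cx k A) :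
    Set.Finite {φ : FM k A → ℤ | ∃ Y, Nonempty (Retr Y U) ∧ pr Y = φ} := by
  obtain ⟨n, S, hS⟩ := exists_det (k := k) (A := A)
  apply Set.Finite.of_finite_image (f := fun φ l => φ (S l))
  · apply (Set.Finite.pi' fun l => Set.finite_Icc (-(hd U.P1 (S l) : ℤ)) (hd U.P0 (S l))).subset
    rintro _ ⟨_, ⟨Y, ⟨R⟩, rfl⟩, rfl⟩ l
    exact R.pr_bound (S l)
  · rintro _ ⟨Y, -, rfl⟩ _ ⟨Y', -, rfl⟩ h
    exact hS _ _ (pr_adv Y) (pr_adv Y') (congrFun h)

theorem hd_adv (P : FM k A) [Projective A P] : Adv (fun M => (hd P M : ℝ)) :=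
  ⟨fun Z N => by rw [hd_ses P Z N]; push_cast; rfl, fun e => by rw [hd_congr_right P e]⟩

/-- coordinates on the Grothendieck group -/
structure Coord (k : Type) [Field k] (A : Type) [Ring A] [Algebra k A] where
  n : ℕ
  P : Fin n → FM k A
  proj : ∀ l, Projective A (P l)
  vec : Cx k A → Fin n → ℝ
  hvec : ∀ U M, (pr U M : ℝ) = vec U ⬝ᵥ fun l => (hd (P l) M : ℝ)

theorem exists_coord [Module.Finite k A] : Nonempty (Coord k A) := by
  classical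
  obtain ⟨n, S, hS⟩ := exists_det (k := k) (A := A)
  let W : Submodule ℝ (FM k A → ℝ) :=
    { carrier := {φ | Adv φ}
      add_mem' := fun {a b} ha hb => ⟨fun Z N => by
        simp only [Pi.add_apply]; rw [ha.ses Z N, hb.ses Z N]; ring,
        fun e => by simp only [Pi.add_apply]; rw [ha.congr e, hb.congr e]⟩
      zero_mem' := ⟨fun Z N => by simp, fun e => rfl⟩
      smul_mem' := fun c a ha => ⟨fun Z N => by
        simp only [Pi.smul_apply]; rw [ha.ses Z N, smul_add],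
        fun e => by simp only [Pi.smul_apply]; rw [ha.congr e]⟩ }
  have hW : Module.Finite ℝ W := Module.Finite.of_injective
    (LinearMap.funLeft ℝ ℝ S ∘ₗ W.subtype) fun a b h => Subtype.ext (hS _ _ a.2 b.2 (congrFun h))
  let s : Set (FM k A → ℝ) := {φ | ∃ P : FM k A, Projective A P ∧ φ = fun M => (hd P M : ℝ)}
  have hs : Submodule.span ℝ s ≤ W := Submodule.span_le.2 (by
    rintro _ ⟨P, hP, rfl⟩
    exact hd_adv P)
  have : Module.Finite ℝ (Submodule.span ℝ s) := Submodule.finiteDimensional_of_le hs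
  obtain ⟨t, ht, e⟩ := (Submodule.fg_span_iff_fg_span_finset_subset s).1
    (Module.Finite.iff_fg.1 this)
  choose P hP hP' using fun l : Fin t.card => ht (t.equivFin.symm l).2
  have hr : (t : Set (FM k A → ℝ)) = Set.range fun l M => (hd (P l) M : ℝ) := by
    ext φ
    constructor
    · intro h
      exact ⟨t.equivFin ⟨φ, h⟩, (hP' _).symm.trans (by simp)⟩
    · rintro ⟨l, hl⟩
      exact ((hP' l).trans hl) ▸ (t.equivFin.symm l).2
  have hv : ∀ U : Cx k A, ∃ v : Fin t.card → ℝ, ∀ M,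
      (pr U M : ℝ) = v ⬝ᵥ fun l => (hd (P l) M : ℝ) := fun U => by
    have h1 : (fun M => (hd U.P0 M : ℝ)) - (fun M => (hd U.P1 M : ℝ)) ∈ Submodule.span ℝ s :=
      Submodule.sub_mem _ (Submodule.subset_span ⟨_, U.pr0, rfl⟩)
        (Submodule.subset_span ⟨_, U.pr1, rfl⟩)
    rw [e, hr, Submodule.mem_span_range_iff_exists_fun] at h1
    obtain ⟨c, hc⟩ := h1
    refine ⟨c, fun M => ?_⟩
    have := congrFun hc M
    simp only [Finset.sum_apply, Pi.smul_apply, smul_eq_mul, Pi.sub_apply] at this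
    unfold pr
    push_cast
    exact this.symm
  choose v hv using hv
  exact ⟨⟨t.card, P, hP, v, hv⟩⟩

variable (C : Coord k A)

/-- class of a module -/
noncomputable def Coord.cv (M : FM k A) : Fin C.n → ℝ := fun l => (hd (C.P l) M : ℝ)

/-- value of a functional -/
noncomputable def Coord.ev (y : Fin C.n → ℝ) (M : FM k A) : ℝ := y ⬝ᵥ C.cv M

theorem Coord.ev_vec (U : Cx k A) (M : FM k A) : C.ev (C.vec U) M = pr U M := (C.hvec U M).symm

theorem Coord.cv_adv : Adv C.cv :=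
  ⟨fun Z N => funext fun l => (@hd_adv k _ A _ _ (C.P l) (C.proj l)).ses Z N,
    fun e => funext fun l => (@hd_adv k _ A _ _ (C.P l) (C.proj l)).congr e⟩

theorem Coord.ev_adv (y : Fin C.n → ℝ) : Adv (C.ev y) :=
  ⟨fun Z N => by unfold Coord.ev; rw [C.cv_adv.ses Z N, dotProduct_add],
    fun e => by unfold Coord.ev; rw [C.cv_adv.congr e]⟩

theorem Coord.fin_cv (D : ℕ) : Set.Finite {x | ∃ M : FM k A, finrank k M ≤ D ∧ C.cv M = x} := by
  apply (Set.Finite.pi' fun l =>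
    (Set.finite_Iic (finrank k (C.P l) * D)).image (Nat.cast : ℕ → ℝ)).subset
  rintro _ ⟨M, hM, rfl⟩ l
  exact ⟨_, (hd_le _ M).trans (Nat.mul_le_mul_left _ hM), rfl⟩

theorem Coord.bound : ∃ K : ℝ, 0 < K ∧ ∀ y M, C.ev y M ≤ ‖y‖ * K * finrank k M := by
  refine ⟨∑ l, (finrank k (C.P l) : ℝ) + 1, by positivity, fun y M => ?_⟩
  have h1 : C.ev y M ≤ ∑ l, ‖y‖ * (finrank k (C.P l) * finrank k M) := by
    unfold Coord.ev dotProduct
    refine Finset.sum_le_sum fun l _ => ?_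
    have h2 : (hd (C.P l) M : ℝ) ≤ finrank k (C.P l) * finrank k M := by
      exact_mod_cast hd_le _ M
    exact mul_le_mul ((le_abs_self _).trans (norm_le_pi_norm y l)) h2 (Nat.cast_nonneg _)
      (norm_nonneg _)
  rw [← Finset.mul_sum, ← Finset.sum_mul] at h1
  have h3 := mul_nonneg (norm_nonneg y) (Nat.cast_nonneg (α := ℝ) (finrank k M))
  nlinarith

theorem exists_mul (U : Cx k A) (N : ℕ) : ∃ V : Cx k A, ∀ M, pr V M = N * pr U M := by
  induction N with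
  | zero => exact ⟨Cx.mk U.P0 U.P0 0, fun M => by simp [pr]⟩
  | succ N ih =>
    obtain ⟨V, hV⟩ := ih
    exact ⟨U.sum V, fun M => by rw [pr_sum, hV]; push_cast; ring⟩

/-- a complex of the opposite class -/
abbrev Cx.neg (U : Cx k A) : Cx k A := Cx.mk U.P0 U.P1 0

theorem pr_neg (U : Cx k A) (M : FM k A) : pr U.neg M = -pr U M := by simp [pr]

/-- the zero module -/
abbrev FM.zero (k : Type) [Field k] (A : Type) [Ring A] [Algebra k A] : FM k A := FM.mk PUnit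

/-- the zero complex -/
abbrev Cx.zero (k : Type) [Field k] (A : Type) [Ring A] [Algebra k A] : Cx k A :=
  Cx.mk (FM.zero k A) (FM.zero k A) 0

theorem Coord.exists_cx (z : Fin C.n → ℤ) :
    ∃ Y : Cx k A, ∀ M, (pr Y M : ℝ) = C.ev (fun l => (z l : ℝ)) M := by
  have h1 : ∀ l, ∃ Y : Cx k A, ∀ M, pr Y M = z l * hd (C.P l) M := fun l => by
    have := C.proj l
    have h0 : ∀ M, pr (Cx.mk (FM.zero k A) (C.P l) 0) M = hd (C.P l) M := fun M => by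
      have : hd (FM.zero k A) M = 0 := hd_zero (HZ.of_sub_left inferInstance)
      simp [pr, this]
    obtain ⟨m, hm | hm⟩ := (z l).eq_nat_or_neg
    · obtain ⟨V, hV⟩ := exists_mul (Cx.mk (FM.zero k A) (C.P l) 0) m
      exact ⟨V, fun M => by rw [hV, h0, hm]⟩
    · obtain ⟨V, hV⟩ := exists_mul (Cx.mk (FM.zero k A) (C.P l) 0) m
      exact ⟨V.neg, fun M => by rw [pr_neg, hV, h0, hm]; ring⟩
  have h2 : ∀ s : Finset (Fin C.n), ∃ Y : Cx k A, ∀ M,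
      pr Y M = ∑ l ∈ s, z l * hd (C.P l) M := fun s => by
    induction s using Finset.induction_on with
    | empty => exact ⟨Cx.zero k A, fun M => by simp [pr]⟩
    | insert l s hl ih =>
      obtain ⟨Y, hY⟩ := ih
      obtain ⟨Y', hY'⟩ := h1 l
      exact ⟨Y'.sum Y, fun M => by rw [pr_sum, hY, hY', Finset.sum_insert hl]⟩
  obtain ⟨Y, hY⟩ := h2 Finset.univ
  exact ⟨Y, fun M => by rw [hY]; simp [Coord.ev, Coord.cv, dotProduct]⟩

/-- `U` realises the refinement of `U0` by `b` -/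
def Rl (U0 : Cx k A) (b : FM k A → ℝ) (U : Cx k A) : Prop :=
  EZ U U ∧ (∀ M, T U M ↔ sT (Lx U0 b) M) ∧ ∀ M, F U M ↔ sF (Lx U0 b) M

theorem Rl.star {U0 U : Cx k A} {b : FM k A → ℝ} (h : Rl U0 b U) (hU0 : EZ U0 U0) : Star U0 U :=
  ⟨fun M hM => hU0.T_iff.2 ((h.2.1 M).1 hM).lx1, fun M hM => hU0.F_iff.2 ((h.2.2 M).1 hM).lx1⟩

theorem Coord.liftR [Module.Finite k A] (hA : AllRigid k A) {U0 : Cx k A} (hU0 : EZ U0 U0)
    (𝒜 : Set (FM k A)) (y0 : Fin C.n → ℝ) (h : ∀ M ∈ 𝒜, C.ev y0 M = 0)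
    {𝒩 : Set (Fin C.n → ℝ)} (h𝒩 : 𝒩 ∈ 𝓝 y0) :
    ∃ y ∈ 𝒩, (∀ M ∈ 𝒜, C.ev y M = 0) ∧ ∃ U, Rl U0 (C.ev y) U := by
  obtain ⟨q, h1, h2⟩ := rat_near ((fun M l => hd (C.P l) M) '' 𝒜) y0
    (by rintro _ ⟨M, hM, rfl⟩; exact h M hM) h𝒩
  obtain ⟨m, hm, z, hz⟩ := exists_den q
  obtain ⟨Y, hY⟩ := C.exists_cx z
  obtain ⟨U, hU, hT, hF⟩ := lift hA hU0 Y
  have hm' : (0 : ℝ) < m := by exact_mod_cast hm
  have e : ∀ M, (pr Y M : ℝ) = m * C.ev (fun l => (q l : ℝ)) M := fun M => by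
    have : (fun l => (z l : ℝ)) = (m : ℝ) • fun l => (q l : ℝ) := funext fun l => by
      change (z l : ℝ) = m * q l
      exact_mod_cast hz l
    rw [hY, this]
    exact smul_dotProduct _ _ _
  refine ⟨_, h1, fun M hM => h2 _ ⟨M, hM, rfl⟩, U, hU, fun M => (hT M).trans ?_,
    fun M => (hF M).trans ?_⟩
  · simp only [sT, Lx_nonneg, e, mul_nonneg_iff_of_pos_left hm']
  · have : ∀ x : ℝ, m * x ≤ 0 ↔ x ≤ 0 := fun x => by
      rw [← not_lt, ← not_lt, mul_pos_iff_of_pos_left hm']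
    simp only [sF, Lx_nonpos, e, this]

/-- signs of `θ` are kept on small modules -/
def Coord.Sg (θ : Fin C.n → ℝ) (D : ℕ) : Set (Fin C.n → ℝ) :=
  {y | ∀ M : FM k A, finrank k M ≤ D →
    (C.ev θ M < 0 → C.ev y M < 0) ∧ (0 < C.ev θ M → 0 < C.ev y M)}

theorem Coord.Sg_nhds (θ : Fin C.n → ℝ) (D : ℕ) : C.Sg θ D ∈ 𝓝 θ :=
  (sign_near _ (C.fin_cv D) θ).mono fun _ hy M hM => hy _ ⟨M, hM, rfl⟩

end Pool.Agent.Work.MP_ccf6ab_al
end

-- merged part: Pool.Agent.Work.MP_ccf6ab_al.Bd.Key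
section
set_option autoImplicit false

namespace Pool.Agent.Work.MP_ccf6ab_al

open Module Filter Topology

variable {k : Type} [Field k] {A : Type} [Ring A] [Algebra k A]

section
variable {C : Coord k A} {U0 : Cx k A} {θ y : Fin C.n → ℝ} {D : ℕ}

/-- the semistable modules of the refinement -/
def Coord.SW (C : Coord k A) (U0 : Cx k A) (θ : Fin C.n → ℝ) : Set (FM k A) :=
  {M | sT (Lx U0 (C.ev θ)) M ∧ sF (Lx U0 (C.ev θ)) M}

theorem tr_neg (hy : y ∈ C.Sg θ D) {M : FM k A} (hM : finrank k M ≤ D)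
    (h : Lx U0 (C.ev θ) M < 0) : Lx U0 (C.ev y) M < 0 :=
  Lx_neg.2 ((Lx_neg.1 h).imp_right fun h => ⟨h.1, (hy M hM).1 h.2⟩)

theorem tr_pos (hy : y ∈ C.Sg θ D) {M : FM k A} (hM : finrank k M ≤ D)
    (h : 0 < Lx U0 (C.ev θ) M) : 0 < Lx U0 (C.ev y) M :=
  Lx_pos.2 ((Lx_pos.1 h).imp_right fun h => ⟨h.1, (hy M hM).2 h.2⟩)

theorem tr_T (hy : y ∈ C.Sg θ D) (ho : ∀ M ∈ C.SW U0 θ, C.ev y M = 0) {M : FM k A}
    (hM : finrank k M ≤ D) (h : sT (Lx U0 (C.ev θ)) M) : sT (Lx U0 (C.ev y)) M := by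
  intro Y p hp
  rcases (h Y p hp).lt_or_eq with h1 | h1
  · exact (tr_pos hy ((dim_le_of_surj p hp).trans hM) h1).le
  · have h2 := h.quot p hp
    exact Lx_nonneg.2 (Or.inr ⟨(Lx_zero h1.symm).1,
      (ho Y ⟨h2, h2.toF (Lx_adv U0 (C.ev_adv θ)) h1.ge⟩).ge⟩)

theorem tr_F (hy : y ∈ C.Sg θ D) (ho : ∀ M ∈ C.SW U0 θ, C.ev y M = 0) {M : FM k A}
    (hM : finrank k M ≤ D) (h : sF (Lx U0 (C.ev θ)) M) : sF (Lx U0 (C.ev y)) M := by
  intro Y p hp
  rcases (h Y p hp).lt_or_eq with h1 | h1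
  · exact (tr_neg hy ((dim_le_of_inj p hp).trans hM) h1).le
  · have h2 := h.sub p hp
    exact Lx_nonpos.2 (Or.inr ⟨(Lx_zero h1).1,
      (ho Y ⟨h2.toT (Lx_adv U0 (C.ev_adv θ)) h1.ge, h2⟩).le⟩)

theorem tr_S (hy : y ∈ C.Sg θ D) (ho : ∀ M ∈ C.SW U0 θ, C.ev y M = 0) {M : FM k A}
    (hM : finrank k M ≤ D) (h : Stb (Lx U0 (C.ev θ)) M) : Stb (Lx U0 (C.ev y)) M := by
  refine ⟨h.1, tr_T hy ho hM h.2.1, tr_F hy ho hM h.2.2.1, fun N hN => h.2.2.2 N ?_⟩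
  have h2 : sF (Lx U0 (C.ev θ)) (M.sub N) := h.2.2.1.sub N.subtype Subtype.val_injective
  refine h2.toT (Lx_adv U0 (C.ev_adv θ)) (not_lt.1 fun h3 => ?_)
  exact (tr_neg hy ((sub_finrank_le N).trans hM) h3).not_ge hN.nonneg

theorem key0 (hU0 : EZ U0 U0) (ho : ∀ M ∈ C.SW U0 θ, C.ev y M = 0)
    (h : ∀ N, sP (Lx U0 (C.ev θ)) N → T U0 N → F U0 N → sG (Lx U0 (C.ev y)) N → C.ev y N ≤ 0)
    {M : FM k A} (hM : sG (Lx U0 (C.ev y)) M) : sG (Lx U0 (C.ev θ)) M := by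
  have a1 := Lx_adv U0 (C.ev_adv θ)
  have a2 := Lx_adv U0 (C.ev_adv y)
  refine sG_of a1 fun Z' hZ' ρ => ?_
  by_contra hρ
  have h1 : sG (Lx U0 (C.ev y)) (Z'.sub (LinearMap.range ρ)) :=
    hM.quot ρ.rangeRestrict ρ.surjective_rangeRestrict
  have h2 : sF (Lx U0 (C.ev θ)) (Z'.sub (LinearMap.range ρ)) :=
    hZ'.sub (Submodule.subtype _) Subtype.val_injective
  have hn := nontriv_range hρ
  generalize Z'.sub (LinearMap.range ρ) = Z at h1 h2 hn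
  obtain ⟨t, h3, h4⟩ := sT_part a1 Z
  have h5 : sG (Lx U0 (C.ev y)) (Z.quo t) := h1.quot t.mkQ t.mkQ_surjective
  have h6 : T U0 (Z.quo t) := hU0.T_iff.2 (h5.toT a2).lx1
  have h7 : F U0 (Z.quo t) := hU0.F_iff.2 (h4.toF a1).lx1
  rcases subsingleton_or_nontrivial (Z.quo t) with h8 | h8
  · have h9 := (sT_tors a1).of_top (Submodule.Quotient.subsingleton_iff.1 h8) h3
    rcases Lx_pos.1 (h1.pos hn) with h10 | h10
    · exact h10.ne' (Lx_zero (h9.zero h2)).1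
    · exact h10.2.ne' (ho Z ⟨h9, h2⟩)
  · rcases Lx_pos.1 (h5.pos h8) with h10 | h10
    · exact h10.not_ge h7.nonpos
    · exact h10.2.not_ge (h _ h4 h6 h7 h5)

theorem key1 [Module.Finite k A] (hA : AllRigid k A) (hU0 : EZ U0 U0) (v : Fin C.n → ℝ)
    (hv : ∀ M ∈ C.SW U0 θ, C.ev v M = 0) {𝒩 : Set (Fin C.n → ℝ)} (h𝒩 : 𝒩 ∈ 𝓝 θ)
    (h : ∀ y ∈ 𝒩, ∀ N, sP (Lx U0 (C.ev θ)) N → T U0 N → F U0 N → sG (Lx U0 (C.ev y)) N →
      (finrank k N : ℝ) ≤ C.ev v N) :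
    ∃ y ∈ 𝒩, (∀ M ∈ C.SW U0 θ, C.ev y M = 0) ∧ (∃ U, Rl U0 (C.ev y) U) ∧
      ∀ M, sG (Lx U0 (C.ev y)) M → sG (Lx U0 (C.ev θ)) M := by
  obtain ⟨K, hK, hb⟩ := C.bound
  have hc : Continuous fun e : ℝ => θ - e • v := by fun_prop
  have h1 : ∀ᶠ e : ℝ in 𝓝 0, θ - e • v ∈ interior 𝒩 :=
    hc.continuousAt.preimage_mem_nhds (by simpa using h𝒩)
  obtain ⟨e, h2, he⟩ := ((h1.filter_mono (nhdsWithin_le_nhds (s := Set.Ioi 0))).and
    self_mem_nhdsWithin).exists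
  have he' : 0 < e := he
  obtain ⟨y, ⟨h3, h4⟩, h5, h6⟩ := C.liftR hA hU0 (C.SW U0 θ) (θ - e • v) (fun M hM => by
    have h7 := (Lx_zero (hM.1.zero hM.2)).2
    have h8 := hv M hM
    unfold Coord.ev at h7 h8 ⊢
    rw [sub_dotProduct, smul_dotProduct, h7, h8]
    simp) (inter_mem (mem_interior_iff_mem_nhds.1 h2) (Metric.ball_mem_nhds _ (div_pos he' hK)))
  refine ⟨y, h3, h5, h6, fun M => key0 hU0 h5 fun N n1 n2 n3 n4 => ?_⟩
  have h7 := h y h3 N n1 n2 n3 n4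
  have h8 : C.ev θ N ≤ 0 := by
    rcases Lx_nonpos.1 (n1.toF (Lx_adv U0 (C.ev_adv θ))).nonpos with h | h
    · exact absurd n2.nonneg h.not_ge
    · exact h.2
  have h9 := hb (y - (θ - e • v)) N
  have h10 : ‖y - (θ - e • v)‖ * K ≤ e := by
    rw [← le_div_iff₀ hK]
    exact (mem_ball_iff_norm.1 h4).le
  have h11 : C.ev (y - (θ - e • v)) N = C.ev y N - C.ev θ N + e * C.ev v N := by
    unfold Coord.ev
    rw [sub_dotProduct, sub_dotProduct, smul_dotProduct, smul_eq_mul]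
    ring
  have h12 := mul_le_mul_of_nonneg_right h10 (Nat.cast_nonneg (α := ℝ) (finrank k N))
  have h13 := mul_le_mul_of_nonneg_left h7 he'.le
  linarith

end

theorem topW {U0 U : Cx k A} (hU : EZ U U) (hs : Star U0 U)
    (h : ∀ L, T U0 L → F U0 L → T U L) {M : FM k A} (hM : T U0 M) : T U M := by
  obtain ⟨t, h1, h2⟩ := G_part U0 M
  exact (T_tors U).ses t (hU.T_of_G (hs.G h1)) (h _ (hM.quot t.mkQ t.mkQ_surjective) h2)

theorem topW' {U0 U : Cx k A} (hU : EZ U U) (hs : Star U0 U)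
    (h : ∀ L, T U0 L → F U0 L → pr U L = 0) {M : FM k A} (hM : T U0 M) : T U M := by
  refine topW hU hs (fun L h1 h2 => hU.T_iff.2 fun Y p hp => ?_) hM
  obtain ⟨t, h3, h4⟩ := G_part U0 Y
  rw [pr_ses U Y t, h _ ((h1.quot p hp).quot t.mkQ t.mkQ_surjective) h4, add_zero]
  exact (hU.T_of_G (hs.G h3)).nonneg

theorem top_ans [Module.Finite k A] (hA : AllRigid k A) {U0 : Cx k A} (hU0 : EZ U0 U0)
    (𝒮 : Set (FM k A)) (h𝒮 : ∀ S ∈ 𝒮, Stb (pr U0) S) :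
    ∃ z, EZ z z ∧ Star U0 z ∧ (∀ S ∈ 𝒮, Stb (pr z) S) ∧
      ∀ M, F U0 M → (∀ S ∈ 𝒮, HZ S M) → TP z M := by
  obtain ⟨B, e, hB⟩ := exists_bong hU0
  obtain ⟨Y, ⟨R⟩, h1, h2⟩ := sepB hU0 hB 𝒮 h𝒮
  have hY := hB.pj.retr R
  obtain ⟨z, hz⟩ : ∃ z, Rl U0 (fun M => (pr Y.neg M : ℝ)) z := lift hA hU0 Y.neg
  have a1 := Lx_adv U0 (prR_adv Y.neg)
  refine ⟨z, hz.1, hz.star hU0, fun S hS => ?_, fun M hM hM' Z hZ => ((hz.2.1 Z).1 hZ).hz ?_⟩
  · have s1 := h𝒮 S hS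
    have s2 : sF (Lx U0 fun M => (pr Y.neg M : ℝ)) S := fun L i hi => by
      have l1 := (hU0.F_iff.2 s1.2.2.1).sub i hi
      rcases l1.nonpos.lt_or_eq with l2 | l2
      · exact Lx_nonpos.2 (Or.inl l2)
      · refine Lx_nonpos.2 (Or.inr ⟨l2, ?_⟩)
        have := (hY.2 L (l1.toT l2.ge)).nonneg
        rw [pr_neg]
        exact_mod_cast neg_nonpos.2 this
    have s3 := s2.toT a1 (Lx_nonneg.2 (Or.inr ⟨s1.2.1.zero s1.2.2.1, by
      have := (h1 S hS).nonpos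
      rw [pr_neg]
      exact_mod_cast neg_nonneg.2 this⟩))
    exact ⟨s1.1, ((hz.2.1 S).2 s3).st, ((hz.2.2 S).2 s2).sf,
      fun N hN => s1.2.2.2 N ((hz.star hU0).1 _ (hz.1.T_iff.2 hN)).st⟩
  · intro L i hi hL
    have l1 := hM.sub i hi
    rcases l1.nonpos.lt_or_eq with l2 | l2
    · exact Lx_neg.2 (Or.inl l2)
    refine Lx_neg.2 (Or.inr ⟨l2, ?_⟩)
    have l3 := l1.toT l2.ge
    have l4 : 0 < pr Y L := by
      by_contra l5
      have l6 := (hY.2 L l3).toF (not_lt.1 l5)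
      obtain ⟨N, -, l7⟩ := exists_stb_sub hL l3.st l1.sf
      obtain ⟨S, hS, l8⟩ := h2 _ l7 (l6.sub N.subtype Subtype.val_injective)
      exact l8 ((hM' S hS).sub (i ∘ₗ N.subtype) (hi.comp Subtype.val_injective))
    rw [pr_neg]
    exact_mod_cast neg_neg_of_pos l4

theorem wit [Module.Finite k A] (hA : AllRigid k A) {U1 a : Cx k A} (h1 : EZ U1 U1) (ha : EZ a a) :
    ∃ z, EZ z z ∧ Star U1 z ∧ (∀ S, T U1 S → F U1 S → Stb (pr a) S → Stb (pr z) S) ∧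
      ∀ M, T U1 M → T a M → T z M := by
  obtain ⟨z, hz⟩ : ∃ z, Rl U1 (fun M => (pr a M : ℝ)) z := lift hA h1 a
  have hT : ∀ M, T U1 M → T a M → T z M := fun M m1 m2 => (hz.2.1 M).2 fun Y p hp => by
    rcases (m1.quot p hp).nonneg.lt_or_eq with h | h
    · exact Lx_nonneg.2 (Or.inl h)
    · exact Lx_nonneg.2 (Or.inr ⟨h.symm, by exact_mod_cast (m2.quot p hp).nonneg⟩)
  refine ⟨z, hz.1, hz.star h1, fun S s1 s2 s3 => ⟨s3.1, (hT S s1 (ha.T_iff.2 s3.2.1)).st,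
    ((hz.2.2 S).2 fun Y p hp => ?_).sf, fun N hN => s3.2.2.2 N ?_⟩, hT⟩
  · rcases (s2.sub p hp).nonpos.lt_or_eq with h | h
    · exact Lx_nonpos.2 (Or.inl h)
    · exact Lx_nonpos.2 (Or.inr ⟨h, by exact_mod_cast s3.2.2.1 Y p hp⟩)
  · refine (s3.2.2.1.sub (Y := S.sub N) N.subtype Subtype.val_injective).toT (pr_adv a) ?_
    rcases Lx_nonneg.1 ((hz.2.1 _).1 (hz.1.T_iff.2 hN)).nonneg with h | h
    · exact absurd (s2.sub (Y := S.sub N) N.subtype Subtype.val_injective).nonpos h.not_ge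
    · exact_mod_cast h.2

theorem unif (C : Coord k A) {I : Type} (𝒰 : Ultrafilter I) (X : I → FM k A) (D : ℕ)
    (hX : ∀ i, finrank k (X i) ≤ D) :
    ∀ᶠ i in (𝒰 : Filter I), ∀ U : Cx k A, EZ U U → (∀ᶠ j in (𝒰 : Filter I), T U (X j)) →
      T U (X i) := by
  let Q : I → Set (Fin C.n → ℝ) := fun i =>
    {x | ∃ Y : FM k A, (∃ p : X i →ₗ[A] Y, Function.Surjective p) ∧ C.cv Y = x}
  obtain ⟨Q0, -, h⟩ := (𝒰.eventually_exists_mem_iff (P := fun Q0 i => Q i = Q0)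
    (C.fin_cv D).finite_subsets).1 (Eventually.of_forall fun i => ⟨Q i, by
      rintro _ ⟨Y, ⟨p, hp⟩, rfl⟩
      exact ⟨Y, (dim_le_of_surj p hp).trans (hX i), rfl⟩, rfl⟩)
  refine h.mono fun i hi U hU hj => hU.T_iff.2 fun Y p hp => ?_
  obtain ⟨j, h1, h2⟩ := (h.and hj).exists
  obtain ⟨Y', ⟨q, hq⟩, e⟩ : C.cv Y ∈ Q j := by rw [h1, ← hi]; exact ⟨Y, ⟨p, hp⟩, rfl⟩
  have h3 : (0 : ℝ) ≤ pr U Y' := by exact_mod_cast (h2.quot q hq).nonneg
  rw [← C.ev_vec, Coord.ev, e, ← Coord.ev, C.ev_vec] at h3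
  exact_mod_cast h3

theorem jh (C : Coord k A) {Γ : Type} [AddCommGroup Γ] [LinearOrder Γ] [IsOrderedAddMonoid Γ]
    {Θ : FM k A → Γ} (hΘ : Adv Θ) : ∃ D : ℕ, ∀ M, sT Θ M → sF Θ M →
      C.cv M ∈ Submodule.span ℝ (C.cv '' {S | Stb Θ S ∧ finrank k S ≤ D}) := by
  let f : ℕ →o Submodule ℝ (Fin C.n → ℝ) :=
    ⟨fun D => Submodule.span ℝ (C.cv '' {S | Stb Θ S ∧ finrank k S ≤ D}),
      fun a b hab => Submodule.span_mono (Set.image_mono fun S hS => ⟨hS.1, hS.2.trans hab⟩)⟩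
  obtain ⟨D, hD⟩ := monotone_stabilizes_iff_noetherian.2 inferInstance f
  refine ⟨D, fun M h1 h2 => ?_⟩
  induction hn : finrank k M using Nat.strong_induction_on generalizing M with
  | _ n ih =>
  rcases subsingleton_or_nontrivial M with h0 | h0
  · rw [C.cv_adv.zero h0]
    exact Submodule.zero_mem _
  obtain ⟨N, h3, h4⟩ := exists_stb_sub h0 h1 h2
  rw [C.cv_adv.ses M N]
  refine Submodule.add_mem _ ?_ (ih _ (hn ▸ quo_lt h3) _ (h1.quot N.mkQ N.mkQ_surjective)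
    (sW_quo hΘ h1 h2 N h4.2.1) rfl)
  change _ ∈ f D
  rw [hD _ (le_max_left D (finrank k (M.sub N)))]
  exact Submodule.subset_span ⟨_, ⟨h4, le_max_right _ _⟩, rfl⟩

end Pool.Agent.Work.MP_ccf6ab_al
end

-- merged part: Pool.Agent.Work.MP_ccf6ab_al.Bd.Ind
section
set_option autoImplicit false

namespace Pool.Agent.Work.MP_ccf6ab_al

open Module Filter Topology

variable {k : Type} [Field k] {A : Type} [Ring A] [Algebra k A] {I : Type}

/-- admissible presilting complexes -/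
structure PP (𝒰 : Ultrafilter I) (U0 : Cx k A) (𝒮 : Set (FM k A)) (X : I → FM k A) (U : Cx k A) :
    Prop where
  ez : EZ U U
  st : Star U0 U
  sb : ∀ S ∈ 𝒮, Stb (pr U) S
  ev : ∀ᶠ i in (𝒰 : Filter I), T U (X i)

/-- the torsion-free class of `z` is as large as possible -/
def Big (𝒰 : Ultrafilter I) (U0 : Cx k A) (𝒮 : Set (FM k A)) (X : I → FM k A) (z : Cx k A) :
    Prop :=
  ∀ᶠ i in (𝒰 : Filter I), ∀ M, F U0 M → (∀ S ∈ 𝒮, HZ S M) → HZ (X i) M → TP z M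

/-- admissible data -/
structure Ok (𝒮 : Set (FM k A)) (X : I → FM k A) (D : ℕ) : Prop where
  d1 : ∀ S ∈ 𝒮, finrank k S ≤ D
  d2 : ∀ i, finrank k (X i) ≤ D
  alt : 𝒮 = ∅ ∨ ∀ i, Subsingleton (X i)

/-- span of the classes of semistable modules -/
noncomputable def Coord.La (C : Coord k A) (U0 : Cx k A) : Submodule ℝ (Fin C.n → ℝ) :=
  Submodule.span ℝ (C.cv '' {L | T U0 L ∧ F U0 L})

/-- the induction parameter -/
noncomputable def Coord.mu (C : Coord k A) (U0 : Cx k A) (𝒮 : Set (FM k A)) : ℕ :=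
  finrank ℝ (C.La U0) - finrank ℝ (Submodule.span ℝ (C.cv '' 𝒮))

/-- the induction hypothesis -/
def IH (C : Coord k A) (𝒰 : Ultrafilter I) (m : ℕ) : Prop :=
  ∀ (U0 : Cx k A) (𝒮 : Set (FM k A)) (X : I → FM k A) (D : ℕ), EZ U0 U0 → Ok 𝒮 X D →
    C.mu U0 𝒮 < m → ∀ U, PP 𝒰 U0 𝒮 X U → ∃ z, PP 𝒰 U0 𝒮 X z ∧ Big 𝒰 U0 𝒮 X z

variable {C : Coord k A} {𝒰 : Ultrafilter I} {U0 : Cx k A} {𝒮 : Set (FM k A)} {X : I → FM k A}
  {D : ℕ}

theorem PP.T {U : Cx k A} (h : PP 𝒰 U0 𝒮 X U) {S : FM k A} (hS : S ∈ 𝒮) : T U S :=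
  h.ez.T_iff.2 (h.sb S hS).2.1

theorem PP.F {U : Cx k A} (h : PP 𝒰 U0 𝒮 X U) {S : FM k A} (hS : S ∈ 𝒮) : F U S :=
  h.ez.F_iff.2 (h.sb S hS).2.2.1

theorem PP.le {U : Cx k A} (h : PP 𝒰 U0 𝒮 X U) : Submodule.span ℝ (C.cv '' 𝒮) ≤ C.La U0 :=
  Submodule.span_mono (Set.image_mono fun S hS => ⟨h.st.1 S (h.T hS), h.st.2 S (h.F hS)⟩)

theorem new_step (ih : IH C 𝒰 (C.mu U0 𝒮)) (hok : Ok 𝒮 X D) {U1 : Cx k A} (h1 : EZ U1 U1)
    (hs : Star U0 U1) (w : Fin C.n → ℝ) {L : FM k A} (l1 : T U0 L) (l2 : F U0 L)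
    (l3 : C.ev w L ≠ 0) (hw : ∀ M, T U1 M → F U1 M → C.ev w M = 0) {a : Cx k A}
    (ha : PP 𝒰 U1 𝒮 X a) : ∃ z, PP 𝒰 U0 𝒮 X z ∧ Big 𝒰 U1 𝒮 X z := by
  have e1 : C.La U1 < C.La U0 := by
    refine lt_of_le_of_ne (Submodule.span_mono (Set.image_mono fun S hS =>
      ⟨hs.1 S hS.1, hs.2 S hS.2⟩)) fun e => l3 ?_
    have : C.cv L ∈ C.La U1 := e ▸ Submodule.subset_span ⟨L, ⟨l1, l2⟩, rfl⟩
    exact orth_span (by rintro _ ⟨M, hM, rfl⟩; exact hw M hM.1 hM.2) this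
  have e2 := Submodule.finrank_lt_finrank_of_lt e1
  have e3 := Submodule.finrank_mono (ha.le (C := C))
  obtain ⟨z, z1, z2⟩ := ih U1 𝒮 X D h1 hok (by unfold Coord.mu; omega) a ha
  exact ⟨z, ⟨z1.ez, hs.trans z1.st, z1.sb, z1.ev⟩, z2⟩

theorem chain_step [Module.Finite k A] (hA : AllRigid k A) (hU0 : EZ U0 U0)
    (ih : IH C 𝒰 (C.mu U0 𝒮)) (hok : Ok 𝒮 X D) {α : Type 1} [Nonempty α] (u : α → Cx k A)
    (hu : ∀ a, PP 𝒰 U0 𝒮 X (u a))
    (hdir : ∀ a b, ∃ c, (∀ M, TP (u a) M → TP (u c) M) ∧ ∀ M, TP (u b) M → TP (u c) M)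
    (hn : ∀ a, ∃ L, T U0 L ∧ F U0 L ∧ pr (u a) L ≠ 0) :
    ∃ z, PP 𝒰 U0 𝒮 X z ∧ ∀ a M, TP (u a) M → TP z M := by
  obtain ⟨θ, t1, t2, lim⟩ := lim_dir (fun a b => ∀ M, TP (u a) M → TP (u b) M)
    (fun a b c h h' M hM => h' M (h M hM)) hdir (C.La U0) (fun a => C.vec (u a)) (fun a => by
      obtain ⟨L, l1, l2, l3⟩ := hn a
      refine ⟨C.cv L, Submodule.subset_span ⟨L, ⟨l1, l2⟩, rfl⟩, ?_⟩
      rw [← Coord.ev, C.ev_vec]
      exact_mod_cast l3)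
  obtain ⟨L0, l1, l2, l3⟩ : ∃ L, T U0 L ∧ F U0 L ∧ C.ev θ L ≠ 0 := by
    by_contra hc
    push Not at hc
    exact t2 (dotProduct_self_eq_zero.1
      (orth_span (by rintro _ ⟨M, hM, rfl⟩; exact hc M hM.1 hM.2) t1))
  have limp : ∀ a L, T U0 L → F U0 L → 0 < C.ev θ L →
      ∃ b, (∀ M, TP (u a) M → TP (u b) M) ∧ 0 < pr (u b) L := fun a L h1 h2 h3 => by
    obtain ⟨b, h4, h5⟩ := (lim a (C.cv L) (Submodule.subset_span ⟨L, ⟨h1, h2⟩, rfl⟩)).1 h3
    rw [← Coord.ev, C.ev_vec] at h5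
    exact ⟨b, h4, by exact_mod_cast h5⟩
  have limn : ∀ L, T U0 L → F U0 L → C.ev θ L < 0 → ∃ b, pr (u b) L < 0 := fun L h1 h2 h3 => by
    obtain ⟨b, -, h5⟩ := (lim (Classical.arbitrary α) (C.cv L)
      (Submodule.subset_span ⟨L, ⟨h1, h2⟩, rfl⟩)).2 h3
    rw [← Coord.ev, C.ev_vec] at h5
    exact ⟨b, by exact_mod_cast h5⟩
  have a1 := Lx_adv U0 (C.ev_adv θ)
  have L0' : ∀ a M, TP (u a) M → Lx U0 (C.ev θ) M ≤ 0 := fun a M hM => by
    have h1 : F U0 M := ((hu a).st.pj (hu a).ez).F_of_TP hM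
    rcases h1.nonpos.lt_or_eq with h2 | h2
    · exact Lx_nonpos.2 (Or.inl h2)
    refine Lx_nonpos.2 (Or.inr ⟨h2, not_lt.1 fun h3 => ?_⟩)
    obtain ⟨b, h4, h5⟩ := limp a M (h1.toT h2.ge) h1 h3
    exact h5.not_ge ((hu b).ez.F_of_TP (h4 M hM)).nonpos
  have L1 : ∀ a M, TP (u a) M → sF (Lx U0 (C.ev θ)) M := fun a M hM Y i hi =>
    L0' a Y (hM.sub i hi)
  have L2 : ∀ M, (∀ a, T (u a) M) → sT (Lx U0 (C.ev θ)) M := fun M hM Y p hp => by
    have h1 : T U0 Y := (hu (Classical.arbitrary α)).st.1 _ ((hM _).quot p hp)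
    rcases h1.nonneg.lt_or_eq with h2 | h2
    · exact Lx_nonneg.2 (Or.inl h2)
    refine Lx_nonneg.2 (Or.inr ⟨h2.symm, not_lt.1 fun h3 => ?_⟩)
    obtain ⟨b, h5⟩ := limn Y h1 (h1.toF h2.ge) h3
    exact h5.not_ge ((hM b).quot p hp).nonneg
  have L3 : ∀ M, (∀ a, F (u a) M) → sF (Lx U0 (C.ev θ)) M := fun M hM Y p hp => by
    have h1 : F U0 Y := (hu (Classical.arbitrary α)).st.2 _ ((hM _).sub p hp)
    rcases h1.nonpos.lt_or_eq with h2 | h2
    · exact Lx_nonpos.2 (Or.inl h2)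
    refine Lx_nonpos.2 (Or.inr ⟨h2, not_lt.1 fun h3 => ?_⟩)
    obtain ⟨b, -, h5⟩ := limp (Classical.arbitrary α) Y (h1.toT h2.ge) h1 h3
    exact h5.not_ge ((hM b).sub p hp).nonpos
  have hS : ∀ S ∈ 𝒮, S ∈ C.SW U0 θ := fun S hS =>
    ⟨L2 S fun a => (hu a).T hS, L3 S fun a => (hu a).F hS⟩
  have main : ∀ D' : ℕ, ∃ y ∈ C.Sg θ D', (∀ M ∈ C.SW U0 θ, C.ev y M = 0) ∧
      (∃ U, Rl U0 (C.ev y) U) ∧ ∀ M, sG (Lx U0 (C.ev y)) M → sG (Lx U0 (C.ev θ)) M := by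
    intro D'
    by_cases hc : ∀ M ∈ C.SW U0 θ, C.cv M ∈ Submodule.span ℝ (C.cv '' 𝒮)
    · let a := Classical.arbitrary α
      have h1 : ∀ M, TP (u a) M → Nontrivial M → Lx U0 (C.ev θ) M < 0 := fun M hM hn => by
        refine lt_of_le_of_ne (L0' a M hM) fun h2 => ?_
        have h3 := orth_span (y := C.vec (u a)) (by
          rintro _ ⟨S, hS, rfl⟩
          rw [← Coord.ev, C.ev_vec, (((hu a).sb S hS).2.1).zero ((hu a).sb S hS).2.2.1]
          simp) (hc M ⟨(L1 a M hM).toT a1 h2.ge, L1 a M hM⟩)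
        rw [← Coord.ev, C.ev_vec] at h3
        exact (((hu a).ez.TP_iff.1 hM).neg hn).ne (by exact_mod_cast h3)
      obtain ⟨V, c, v1, v2⟩ := lemV (hu a).ez (hu a).sb
      obtain ⟨y, y1, y2⟩ := key1 hA hU0 ((c : ℝ) • C.vec V) (fun M hM => orth_span (by
          rintro _ ⟨S, hS, rfl⟩
          rw [smul_dotProduct, ← Coord.ev, C.ev_vec, v1 S hS]
          simp) (hc M hM))
        (inter_mem (C.Sg_nhds θ D') (C.Sg_nhds θ (hd (u a).P1 (FM.reg k A))))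
        (fun y hy N n1 n2 n3 n4 => by
          have h2 : T (u a) N := T_of_TP fun Z hZ => n4.hz fun Y i hi =>
            bgF_ind (u a) (Lx_adv U0 (C.ev_adv y)) (fun _ => True)
              (fun _ _ _ _ _ => ⟨trivial, trivial⟩)
              (fun Y h3 _ h4 h5 => (tr_neg hy.2 h5 (h1 Y h3 h4)).le) Y (hZ.sub i hi) trivial
          have h3 := v2 N h2 fun S hS' => (hS S hS').1.hz n1
          rw [Coord.ev, smul_dotProduct, ← Coord.ev, C.ev_vec, smul_eq_mul]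
          exact_mod_cast h3)
      exact ⟨y, y1.1, y2⟩
    · obtain ⟨D1, hD1⟩ := jh C a1
      let 𝒮' : Set (FM k A) := {S | Stb (Lx U0 (C.ev θ)) S ∧ finrank k S ≤ D1}
      obtain ⟨y, y1, y2, U, hU⟩ := C.liftR hA hU0 (C.SW U0 θ) θ
        (fun M hM => (Lx_zero (hM.1.zero hM.2)).2) (C.Sg_nhds θ D1)
      have hU' : PP 𝒰 U0 𝒮' (fun _ => FM.zero k A) U := ⟨hU.1, hU.star hU0, fun S hS =>
        (tr_S y1 y2 hS.2 hS.1).congr (fun M => (hU.2.1 M).symm.trans hU.1.T_iff)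
          (fun M => (hU.2.2 M).symm.trans hU.1.F_iff),
        Eventually.of_forall fun _ => (T_tors U).zero _ inferInstance⟩
      have e1 : Submodule.span ℝ (C.cv '' 𝒮) < Submodule.span ℝ (C.cv '' 𝒮') := by
        refine lt_of_le_of_ne (Submodule.span_le.2 ?_) fun e => hc fun M hM => ?_
        · rintro _ ⟨S, hS', rfl⟩
          exact hD1 S (hS S hS').1 (hS S hS').2
        · rw [e]
          exact hD1 M hM.1 hM.2
      have e2 := Submodule.finrank_lt_finrank_of_lt e1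
      have e3 := Submodule.finrank_mono (hU'.le (C := C))
      obtain ⟨z, z1, z2⟩ := ih U0 𝒮' (fun _ => FM.zero k A) D1 hU0
        ⟨fun S hS => hS.2, fun _ => (Module.finrank_zero_of_subsingleton).le.trans (Nat.zero_le _),
          Or.inr fun _ => inferInstance⟩ (by unfold Coord.mu; omega) U hU'
      obtain ⟨i, z3⟩ := z2.exists
      refine key1 hA hU0 (-(hd z.P1 (FM.reg k A) : ℝ) • C.vec z) (fun M hM => orth_span (by
          rintro _ ⟨S, hS, rfl⟩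
          rw [smul_dotProduct, ← Coord.ev, C.ev_vec, ((z1.sb S hS).2.1).zero (z1.sb S hS).2.2.1]
          simp) (hD1 M hM.1 hM.2)) (C.Sg_nhds θ D') fun y _ N n1 n2 n3 _ => ?_
      have h3 := slopeP z1.ez (z3 N n3 (fun S hS => hS.1.2.1.hz n1) (HZ.of_sub_left inferInstance))
      rw [Coord.ev, smul_dotProduct, ← Coord.ev, C.ev_vec, smul_eq_mul]
      have h4 : (finrank k N : ℝ) + hd z.P1 (FM.reg k A) * pr z N ≤ 0 := by exact_mod_cast h3
      linarith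
  obtain ⟨y, y1, y2, ⟨U1, hU1⟩, y3⟩ := main (max D (finrank k L0))
  have hI := unif C 𝒰 X D hok.d2
  obtain ⟨w, w1, w2, w3, w4⟩ := wit hA hU1.1 (hu (Classical.arbitrary α)).ez
  obtain ⟨z, z1, z2⟩ := new_step ih hok hU1.1 (hU1.star hU0) y l1 l2 (by
      rcases lt_or_gt_of_ne l3 with h | h
      · exact ((y1 L0 (le_max_right _ _)).1 h).ne
      · exact ((y1 L0 (le_max_right _ _)).2 h).ne')
    (fun M m1 m2 => (Lx_zero (((hU1.2.1 M).1 m1).zero ((hU1.2.2 M).1 m2))).2)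
    (a := w) ⟨w1, w2, fun S hS' => w3 S
      ((hU1.2.1 S).2 (tr_T y1 y2 ((hok.d1 S hS').trans (le_max_left _ _)) (hS S hS').1))
      ((hU1.2.2 S).2 (tr_F y1 y2 ((hok.d1 S hS').trans (le_max_left _ _)) (hS S hS').2))
      ((hu _).sb S hS'), hI.mono fun i hi => w4 _
      ((hU1.2.1 _).2 (tr_T y1 y2 ((hok.d2 i).trans (le_max_left _ _))
        (L2 _ fun a => hi _ (hu a).ez (hu a).ev))) (hi _ (hu _).ez (hu _).ev)⟩
  obtain ⟨i, h1, h2⟩ := (hI.and z2).exists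
  refine ⟨z, z1, fun a M hM => h2 M (F_of_hom ?_) (fun S hS' => hM S ((hu a).T hS'))
    (hM _ (h1 _ (hu a).ez (hu a).ev))⟩
  exact (y3 _ (sG_of (Lx_adv U0 (C.ev_adv y)) fun Z hZ => ((hU1.2.2 Z).2 hZ).hz)).hz (L1 a M hM)

theorem contra (ih : IH C 𝒰 (C.mu U0 𝒮)) (hok : Ok 𝒮 X D) {U : Cx k A} (hU : PP 𝒰 U0 𝒮 X U)
    (hmax : ∀ V, PP 𝒰 U0 𝒮 X V → (∀ M, TP U M → TP V M) → ∀ M, TP V M → TP U M)
    {Y : Cx k A} (hY : Pj U Y) {L : FM k A} (l1 : T U0 L) (l2 : F U0 L) (l3 : pr Y L ≠ 0)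
    {a : Cx k A} (ha : PP 𝒰 (U0.sum Y) 𝒮 X a)
    (h : ∀ᶠ i in (𝒰 : Filter I), ∃ Z : FM k A, Nontrivial Z ∧ T U Z ∧ F U0 Z ∧ pr Y Z ≤ 0 ∧
      (∀ S ∈ 𝒮, HZ S Z) ∧ HZ (X i) Z) : False := by
  have h1 := (hU.st.pj hU.ez).sum hY
  obtain ⟨z, z1, z2⟩ := new_step ih hok h1.ez (Star.sum U0 Y) (C.vec Y) l1 l2
    (by rw [C.ev_vec]; exact_mod_cast l3) (fun M m1 m2 => by
      rw [C.ev_vec]
      exact_mod_cast ((Retr.inr U0 Y).T m1).st.zero ((Retr.inr U0 Y).F m2).sf) ha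
  obtain ⟨i, ⟨h2, h3⟩, Z, n1, n2, n3, n4, n5, n6⟩ := ((z2.and hU.ev).and h).exists
  exact not_subsingleton Z (HZ.self (hmax z z1
    (fun M hM => h2 M (h1.F_of_TP hM) (fun S hS => hM S (hU.T hS)) (hM _ h3)) Z
    (h2 Z (F_sum n3 ((hY.2 Z n2).toF n4)) n5 n6) Z n2))

theorem max_step [Module.Finite k A] (hA : AllRigid k A) (hU0 : EZ U0 U0)
    (ih : IH C 𝒰 (C.mu U0 𝒮)) (hok : Ok 𝒮 X D) {U : Cx k A} (hU : PP 𝒰 U0 𝒮 X U)
    (hmax : ∀ V, PP 𝒰 U0 𝒮 X V → (∀ M, TP U M → TP V M) → ∀ M, TP V M → TP U M) :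
    ∃ z, PP 𝒰 U0 𝒮 X z ∧ Big 𝒰 U0 𝒮 X z := by
  by_cases hb : Big 𝒰 U0 𝒮 X U
  · exact ⟨U, hU, hb⟩
  have h1 : ∀ᶠ i in (𝒰 : Filter I), ∃ φ ∈ {φ : FM k A → ℤ | ∃ Y, Nonempty (Retr Y U) ∧ pr Y = φ},
      ∃ Z : FM k A, (Nontrivial Z ∧ T U Z ∧ F U0 Z ∧ φ Z ≤ 0 ∧ (∀ S ∈ 𝒮, HZ S Z) ∧ HZ (X i) Z) ∧
        ((∀ L, T U0 L → F U0 L → φ L = 0) → ∀ L, T U0 L → F U0 L → T U L) := by
    refine ((Ultrafilter.eventually_not.2 hb).and hU.ev).mono fun i hi => ?_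
    obtain ⟨h2, h3⟩ := hi
    push Not at h2
    obtain ⟨M, m1, m2, m3, m4⟩ := h2
    obtain ⟨t, t1, t2⟩ := T_part U M
    have t3 : t ≠ ⊥ := fun h => m4 (t2.sub t.mkQ (of_bot h))
    obtain ⟨Z, U', n1, n2, n3, n4, n5, n6⟩ := label hU.ez hU.st (insert U0.H (insert (X i) 𝒮))
      (by
        rintro Y (rfl | rfl | hY)
        exacts [(hU.st.pj hU.ez).1, h3, hU.T hY])
      (Submodule.nontrivial_iff_ne_bot.2 t3) t1 (by
        rintro Y (rfl | rfl | hY)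
        exacts [m1.hz.sub t.subtype Subtype.val_injective, m3.sub t.subtype Subtype.val_injective,
          (m2 Y hY).sub t.subtype Subtype.val_injective])
    exact ⟨_, ⟨U', n4, rfl⟩, Z, ⟨n1, n2, F_of_hom (n3 _ (Or.inl rfl)), n5.nonpos,
      fun S hS => n3 S (Or.inr (Or.inr hS)), n3 _ (Or.inr (Or.inl rfl))⟩, n6⟩
  obtain ⟨_, ⟨Y, ⟨R⟩, rfl⟩, h2⟩ := (𝒰.eventually_exists_mem_iff (fin_retr U)).1 h1
  by_cases hc : ∀ L, T U0 L → F U0 L → pr Y L = 0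
  swap
  · push Not at hc
    obtain ⟨L, l1, l2, l3⟩ := hc
    exact (contra ih hok hU hmax (hU.ez.pj.retr R) l1 l2 l3
      ⟨hU.ez, hU.st.of_sum R, hU.sb, hU.ev⟩ (h2.mono fun i ⟨Z, hZ, _⟩ => ⟨Z, hZ⟩)).elim
  have hT : ∀ M, T U0 M → T U M := fun M hM => by
    obtain ⟨i, Z, -, hZ⟩ := h2.exists
    exact topW hU.ez hU.st (hZ hc) hM
  obtain ⟨z, z1, z2, z3, z4⟩ := top_ans hA hU0 𝒮 fun S hS =>
    ⟨(hU.sb S hS).1, (hU.st.1 S (hU.T hS)).st, (hU.st.2 S (hU.F hS)).sf,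
      fun N hN => (hU.sb S hS).2.2.2 N (hT _ (hU0.T_iff.2 hN)).st⟩
  refine ⟨z, ⟨z1, z2, z3, ?_⟩, Eventually.of_forall fun i M m1 m2 _ => z4 M m1 m2⟩
  rcases hok.alt with rfl | h0
  swap
  · exact Eventually.of_forall fun i => (T_tors z).zero _ (h0 i)
  obtain ⟨B, e, hB⟩ := exists_bong hU0
  have h3 : ∀ᶠ i in (𝒰 : Filter I), ∃ φ ∈ {φ : FM k A → ℤ | ∃ Y, Nonempty (Retr Y B) ∧ pr Y = φ},
      ∃ Z : FM k A, Stb (pr U0) Z ∧ φ Z ≤ 0 ∧ HZ (X i) Z ∧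
        ∀ S0, Stb (pr U0) S0 → φ S0 = 0 → ¬ HZ Z S0 := by
    refine h2.mono fun i ⟨Z, ⟨n1, n2, n3, _, _, n6⟩, _⟩ => ?_
    obtain ⟨N, -, s1⟩ := exists_stb_sub n1 (hU.st.1 Z n2).st n3.sf
    obtain ⟨Y', ⟨R'⟩, y1, y2⟩ := sepB hU0 hB {Z.sub N} (by rintro _ rfl; exact s1)
    refine ⟨_, ⟨Y', ⟨R'⟩, rfl⟩, Z.sub N, s1, (y1 _ rfl).nonpos,
      n6.sub N.subtype Subtype.val_injective, fun S0 s2 s3 => ?_⟩
    obtain ⟨_, rfl, s4⟩ := y2 S0 s2 (((hB.pj.retr R').2 S0 (hU0.T_iff.2 s2.2.1)).toF s3.le)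
    exact s4
  obtain ⟨_, ⟨Y', ⟨R'⟩, rfl⟩, h4⟩ := (𝒰.eventually_exists_mem_iff (fin_retr B)).1 h3
  have hY' := hB.pj.retr R'
  by_cases hc' : ∀ L, T U0 L → F U0 L → pr Y' L = 0
  · refine (h4.and hU.ev).mono fun i ⟨⟨Z, s1, _, s3, s4⟩, s5⟩ => z1.T_of_G (z2.G ?_)
    obtain ⟨t, t1, t2⟩ := G_part U0 (X i)
    refine (G_tors U0).of_top ?_ t1
    by_contra t3
    obtain ⟨S0, p, hp, s6⟩ := exists_stb_quo (pr_adv U0) (X := (X i).quo t)
      (Submodule.Quotient.nontrivial_iff.2 t3)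
      ((hU.st.1 _ s5).quot t.mkQ t.mkQ_surjective).st t2.sf
    obtain ⟨ρ, hρ⟩ : ∃ ρ : Z →ₗ[A] S0, ρ ≠ 0 := by
      by_contra h5
      push Not at h5
      exact s4 S0 s6 (hc' S0 (hU0.T_iff.2 s6.2.1) (hU0.F_iff.2 s6.2.2.1)) h5
    let E := LinearEquiv.ofBijective ρ ⟨s1.inj (pr_adv U0) s6.2.2.1 hρ, s6.surj s1.2.1 hρ⟩
    have := s6.1
    exact not_subsingleton S0 (HZ.self ((s3.quot (p ∘ₗ t.mkQ) (hp.comp t.mkQ_surjective)).sub
      E.symm.toLinearMap E.symm.injective))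
  · push Not at hc'
    obtain ⟨L, l1, l2, l3⟩ := hc'
    have hY2 : Pj U Y' := ⟨hT _ hY'.1, fun M hM => hY'.2 M (hU.st.1 M hM)⟩
    have h5 := (hU.st.pj hU.ez).sum hY2
    exact (contra ih hok hU hmax hY2 l1 l2 l3
      ⟨h5.ez, Star.refl _, fun S hS => hS.elim, hU.ev.mono fun i hi => h5.2 _ hi⟩
      (h4.mono fun i ⟨Z, s1, s2, s3, _⟩ => ⟨Z, s1.1, hT Z (hU0.T_iff.2 s1.2.1),
        hU0.F_iff.2 s1.2.2.1, s2, fun S hS => hS.elim, s3⟩)).elim

theorem propR [Module.Finite k A] (hA : AllRigid k A) (C : Coord k A) (𝒰 : Ultrafilter I)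
    (m : ℕ) : IH C 𝒰 m := by
  induction m using Nat.strong_induction_on with
  | _ m ihm =>
  intro U0 𝒮 X D hU0 hok hm U hU
  have ih := ihm _ hm
  have : Nonempty {V // PP 𝒰 U0 𝒮 X V} := ⟨⟨U, hU⟩⟩
  obtain ⟨z, hz⟩ := exists_maximal_of_nonempty_chains_bounded
    (r := fun a b : {V // PP 𝒰 U0 𝒮 X V} => ∀ M, TP a.1 M → TP b.1 M) (fun c hc ⟨a0, h0⟩ => by
      have low : ∀ a b : {V // PP 𝒰 U0 𝒮 X V}, (∀ L, T U0 L → F U0 L → pr a.1 L = 0) →
          ∀ M, TP a.1 M → TP b.1 M := fun a b h M hM =>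
        b.2.st.TP fun Y hY => hM Y (topW' a.2.ez a.2.st h hY)
      by_cases hn : ∃ a ∈ c, ∃ L, T U0 L ∧ F U0 L ∧ pr a.1 L ≠ 0
      · have : Nonempty {a // a ∈ c ∧ ∃ L, T U0 L ∧ F U0 L ∧ pr a.1 L ≠ 0} :=
          ⟨⟨hn.choose, hn.choose_spec⟩⟩
        obtain ⟨z, z1, z2⟩ := chain_step hA hU0 ih hok
          (fun a : {a // a ∈ c ∧ ∃ L, T U0 L ∧ F U0 L ∧ pr a.1 L ≠ 0} => a.1.1) (fun a => a.1.2)
          (fun a b => by
            by_cases e : a.1 = b.1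
            · exact ⟨b, fun M hM => e ▸ hM, fun M hM => hM⟩
            · rcases hc a.2.1 b.2.1 e with h | h
              · exact ⟨b, h, fun M hM => hM⟩
              · exact ⟨a, fun M hM => hM, h⟩) (fun a => a.2.2)
        refine ⟨⟨z, z1⟩, fun a ha => ?_⟩
        by_cases h : ∃ L, T U0 L ∧ F U0 L ∧ pr a.1 L ≠ 0
        · exact z2 ⟨a, ha, h⟩
        · push Not at h
          exact low a _ h
      · push Not at hn
        exact ⟨a0, fun a ha => low a a0 (hn a ha)⟩)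
    (fun h h' M hM => h' M (h M hM))
  exact max_step hA hU0 ih hok z.2 fun V hV h => hz ⟨V, hV⟩ h

theorem bounded_family [Module.Finite k A] (hA : AllRigid k A) (𝒰 : Ultrafilter I)
    (X : I → FM k A) (D : ℕ) (hX : ∀ i, finrank k (X i) ≤ D) :
    ∃ z : Cx k A, EZ z z ∧ ∀ᶠ i in (𝒰 : Filter I), ∀ M, TP z M ↔ HZ (X i) M := by
  obtain ⟨C⟩ := exists_coord (k := k) (A := A)
  have h0 : ∀ M, T (Cx.zero k A) M := fun M h => ⟨0, Subsingleton.elim _ _⟩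
  have h1 : ∀ M, F (Cx.zero k A) M := fun M a _ => Subsingleton.elim _ _
  obtain ⟨z, z1, z2⟩ := propR hA C 𝒰 (C.mu (Cx.zero k A) ∅ + 1) (Cx.zero k A) ∅ X D
    (EZ_of_T (h0 _)) ⟨fun S hS => hS.elim, hX, Or.inl rfl⟩ (Nat.lt_succ_self _) (Cx.zero k A)
    ⟨EZ_of_T (h0 _), Star.refl _, fun S hS => hS.elim, Eventually.of_forall fun i => h0 _⟩
  exact ⟨z, z1.ez, (z2.and z1.ev).mono fun i hi M =>
    ⟨fun h => h _ hi.2, hi.1 M (h1 M) fun S hS => hS.elim⟩⟩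

end Pool.Agent.Work.MP_ccf6ab_al
end
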