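import Pool.Agent.Work.MP_ccf6ab_al.Bd.Ind

set_option autoImplicit false

namespace Pool.Agent.Work.MP_ccf6ab_al

open Module Filter

variable {k : Type} [Field k] {A : Type} [Ring A] [Algebra k A]

theorem compact_ff [Module.Finite k A] (hA : AllRigid k A) (X : FM k A) :
    ∃ z : Cx k A, EZ z z ∧ ∀ M, TP z M ↔ HZ X M := by
  obtain ⟨z, h1, h2⟩ := bounded_family hA (pure () : Ultrafilter Unit) (fun _ => X) _
    fun _ => le_rfl
  obtain ⟨_, h3⟩ := h2.exists
  exact ⟨z, h1, h3⟩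

theorem compact_fac [Module.Finite k A] (hA : AllRigid k A) (X : FM k A) :
    ∃ N : FM k A, ∀ M : FM k A, (∀ Z, HZ X Z → HZ M Z) ↔
      ∃ r : ℕ, ∃ p : (Fin r → N) →ₗ[A] M, Function.Surjective p := by
  obtain ⟨z, h1, h2⟩ := compact_ff hA X
  obtain ⟨B, e, hB⟩ := exists_bong h1
  refine ⟨B.H, fun M => ⟨fun h => ?_, fun ⟨r, p, hp⟩ Z hZ ρ => ?_⟩⟩
  · have hT : T z M := T_of_TP fun Z hZ => h Z ((h2 Z).1 hZ)
    obtain ⟨b0, hb⟩ := hB.gen
    let c := Module.finBasis k M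
    choose g g1 g2 using fun i => hb M hT (c i)
    let g' : Fin (finrank k M) → (B.H →ₗ[A] M) := fun i =>
      (LinearMap.range B.f).liftQ (g i) (LinearMap.range_le_ker_iff.2 (g1 i))
    refine ⟨_, ∑ i, g' i ∘ₗ LinearMap.proj i, fun x => ⟨fun i => c.repr x i •
      (LinearMap.range B.f).mkQ b0, ?_⟩⟩
    simp only [LinearMap.coe_sum, Finset.sum_apply, LinearMap.comp_apply, LinearMap.proj_apply,
      LinearMap.map_smul_of_tower]
    exact (Finset.sum_congr rfl fun i _ => congrArg (c.repr x i • ·) (g2 i)).trans (c.sum_repr x)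
  · ext y
    obtain ⟨x, rfl⟩ := hp y
    rw [← Finset.univ_sum_single x, map_sum, map_sum]
    exact Finset.sum_eq_zero fun i _ => LinearMap.congr_fun ((h2 Z).2 hZ _ hB.pj.1
      (ρ ∘ₗ p ∘ₗ LinearMap.single A (fun _ : Fin r => B.H) i)) (x i)

theorem exists_brick_im {X : FM k A} (hX : Nontrivial X) : ∃ S : FM k A, Brick S ∧
    (∃ p : X →ₗ[A] S, Function.Surjective p) ∧ ∃ i : S →ₗ[A] X, Function.Injective i := by
  obtain ⟨S, ⟨h1, ⟨p, hp⟩, i, hi⟩, hm⟩ := exists_minimalFor_of_wellFoundedLT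
    (fun S : FM k A => Nontrivial S ∧ (∃ p : X →ₗ[A] S, Function.Surjective p) ∧
      ∃ i : S →ₗ[A] X, Function.Injective i) (fun S => finrank k S)
    ⟨X, hX, ⟨LinearMap.id, Function.surjective_id⟩, LinearMap.id, Function.injective_id⟩
  refine ⟨S, ⟨h1, fun φ => or_iff_not_imp_left.2 fun h0 => ?_⟩, ⟨p, hp⟩, i, hi⟩
  have h2 := hm (j := S.sub (LinearMap.range φ)) ⟨nontriv_range h0,
    ⟨φ.rangeRestrict ∘ₗ p, φ.surjective_rangeRestrict.comp hp⟩,
    i ∘ₗ Submodule.subtype _, hi.comp Subtype.val_injective⟩ (sub_finrank_le _)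
  exact surj_of_pow φ 0 (by rw [zero_add, pow_one]; exact h2)

section
variable {ι : Type} {S : ι → FM k A} {z : Cx k A}

theorem sb_ker (hS : ∀ i, Brick (S i)) (ho : ∀ i j, i ≠ j → HZ (S i) (S j))
    (hz : ∀ M, TP z M ↔ ∀ i, HZ (S i) M) {Y : FM k A} (hY : T z Y) {j : ι} (f : Y →ₗ[A] S j) :
    T z (Y.sub (LinearMap.ker f)) ∧ (f ≠ 0 → Function.Surjective f) := by
  have key : ∀ (Y : FM k A) (f : Y →ₗ[A] S j), T z Y → Nontrivial Y →
      TP z (Y.sub (LinearMap.ker f)) → ∃ g : S j →ₗ[A] Y, Function.Bijective (f ∘ₗ g) := by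
    intro Y f h1 h2 h3
    obtain ⟨i, g, hg⟩ : ∃ i, ∃ g : S i →ₗ[A] Y, g ≠ 0 := by
      by_contra hc
      push Not at hc
      exact not_subsingleton Y (HZ.self ((hz Y).2 hc Y h1))
    have h4 : f ∘ₗ g ≠ 0 := fun h0 => hg (by
      have := (hz _).1 h3 i (LinearMap.codRestrict _ g fun x => LinearMap.congr_fun h0 x)
      ext x
      exact congrArg Subtype.val (LinearMap.congr_fun this x))
    obtain rfl : i = j := by
      by_contra hij
      exact h4 (ho i j hij _)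
    exact ⟨g, ((hS i).2 _).resolve_left h4⟩
  constructor
  · obtain ⟨t, t1, t2⟩ := T_part z (Y.sub (LinearMap.ker f))
    refine (T_tors z).of_top ?_ t1
    by_contra ht
    let t' : Submodule A Y := t.map (LinearMap.ker f).subtype
    have hle : t' ≤ LinearMap.ker f := Submodule.map_subtype_le _ _
    let f' : Y.quo t' →ₗ[A] S j := t'.liftQ f hle
    let q : (Y.sub (LinearMap.ker f)).quo t →ₗ[A] Y.quo t' :=
      t.mapQ t' (LinearMap.ker f).subtype fun x hx => ⟨x, hx, rfl⟩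
    have hq : Function.Injective q := by
      rw [← LinearMap.ker_eq_bot, eq_bot_iff]
      intro x hx
      obtain ⟨x, rfl⟩ := t.mkQ_surjective x
      obtain ⟨y, hy, e⟩ := (Submodule.Quotient.mk_eq_zero t').1 hx
      exact (Submodule.Quotient.mk_eq_zero t).2 ((Subtype.ext e : y = x) ▸ hy)
    have hr : LinearMap.range q = LinearMap.ker f' := by
      ext x
      obtain ⟨x, rfl⟩ := t'.mkQ_surjective x
      exact ⟨fun ⟨y, hy⟩ => by
        obtain ⟨y, rfl⟩ := t.mkQ_surjective y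
        rw [← hy]
        exact y.2, fun h => ⟨t.mkQ ⟨x, h⟩, rfl⟩⟩
    have hn : Nontrivial ((Y.sub (LinearMap.ker f)).quo t) :=
      Submodule.Quotient.nontrivial_iff.2 ht
    let E := (LinearEquiv.ofInjective q hq).trans (LinearEquiv.ofEq _ _ hr)
    have h1 : TP z ((Y.quo t').sub (LinearMap.ker f')) := t2.sub E.symm.toLinearMap E.symm.injective
    have h2 : T z (Y.quo t') := hY.quot t'.mkQ t'.mkQ_surjective
    obtain ⟨g, hg⟩ := key (Y.quo t') f' h2 hq.nontrivial h1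
    have h3 := h1 _ h2 ((LinearMap.ker f').projectionOnto _ (compl_of_bij g f' hg).symm)
    obtain ⟨x, hx⟩ := exists_ne (0 : (Y.sub (LinearMap.ker f)).quo t)
    have h4 := LinearMap.congr_fun h3 (E x)
    rw [Submodule.projectionOnto_apply_left] at h4
    exact hx (E.map_eq_zero_iff.1 h4)
  · intro h0
    obtain ⟨g, hg⟩ := key ((S j).sub (LinearMap.range f)) (Submodule.subtype _)
      (hY.quot f.rangeRestrict f.surjective_rangeRestrict) (nontriv_range h0) (fun _ _ =>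
        HZ.of_sub_right (by rw [Submodule.ker_subtype]; infer_instance))
    intro y
    obtain ⟨x, rfl⟩ := hg.2 y
    exact (g x).2

theorem sb_sep [Module.Finite k A] (hS : ∀ i, Brick (S i)) (ho : ∀ i j, i ≠ j → HZ (S i) (S j))
    (h0 : EZ z z) (hz : ∀ M, TP z M ↔ ∀ i, HZ (S i) M) (j : ι) :
    ∃ Y : Cx k A, 0 < pr Y (S j) ∧ ∀ i, i ≠ j → pr Y (S i) = 0 := by
  obtain ⟨B, e, hB⟩ := exists_bong h0
  have hT : ∀ i, T z (S i) := fun i => T_of_TP fun Z hZ => (hz Z).1 hZ i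
  obtain ⟨Y, ⟨⟨R⟩, hj⟩, hm⟩ := exists_minimalFor_of_wellFoundedLT
    (fun W : Cx k A => Nonempty (Retr W B) ∧ ¬ F W (S j)) Cx.sz
    ⟨B, ⟨Retr.refl _⟩, hB.notF (hT j) (hS j).1⟩
  have hY := hB.pj.retr R
  refine ⟨Y, not_le.1 fun h => hj ((hY.2 _ (hT j)).toF h), fun i hij =>
    (hY.2 _ (hT i)).st.zero (F.sf (F_of_hom fun ψ => ?_))⟩
  by_contra hψ
  obtain ⟨φ, hφ⟩ : ∃ φ : Y.H →ₗ[A] S j, φ ≠ 0 := by
    by_contra hc
    push Not at hc
    exact hj (F_of_hom hc)
  obtain ⟨k1, k2⟩ := sb_ker hS ho hz hY.1 ψ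
  have h1 : φ ∘ₗ (LinearMap.ker ψ).subtype ≠ 0 := fun h => hφ
    (factor_zero ψ (k2 hψ) φ (fun x hx => LinearMap.congr_fun h ⟨x, hx⟩) (ho i j hij))
  obtain ⟨k3, k4⟩ := sb_ker hS ho hz k1 (φ ∘ₗ (LinearMap.ker ψ).subtype)
  obtain ⟨c, hc, hc'⟩ := T.liftS (X := Y.H.sub (LinearMap.ker ψ)) _ (k4 h1) (hY.2 _ k3)
    (φ ∘ₗ (LinearMap.range Y.f).mkQ)
    (by rw [LinearMap.comp_assoc, LinearMap.range_mkQ_comp, LinearMap.comp_zero])
  obtain ⟨p1, p0, hch, hq⟩ := exists_chain2 Y Y (Submodule.subtype _ ∘ₗ c)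
    (by rw [LinearMap.comp_assoc, hc, LinearMap.comp_zero])
  obtain ⟨n, W, RW, e1, e2, e3⟩ := fitting2 Y p1 p0 hch
  have h3 : ∀ m : ℕ, ∀ x, φ ((LinearMap.range Y.f).mkQ ((p0 ^ m) x)) =
      φ ((LinearMap.range Y.f).mkQ x) := by
    intro m
    induction m with
    | zero => intro x; rfl
    | succ m ih =>
      intro x
      rw [pow_succ', Module.End.mul_apply, hq, ← ih]
      exact LinearMap.congr_fun hc' _
  have hW : ¬ F W (S j) := fun hF => hφ (by
    have h4 := hF (φ ∘ₗ (LinearMap.range Y.f).mkQ ∘ₗ RW.i0) (by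
      ext x
      simp only [LinearMap.comp_apply, RW.hi]
      rw [show (LinearMap.range Y.f).mkQ (Y.f (RW.i1 x)) = 0 from
        (Submodule.Quotient.mk_eq_zero _).2 ⟨_, rfl⟩, map_zero]
      rfl)
    apply LinearMap.ext
    intro x
    obtain ⟨x, rfl⟩ := (LinearMap.range Y.f).mkQ_surjective x
    obtain ⟨y, hy⟩ : (p0 ^ (n + 1)) x ∈ LinearMap.range RW.i0 := e1 ▸ ⟨x, rfl⟩
    rw [← h3 (n + 1), ← hy]
    exact LinearMap.congr_fun h4 y)
  obtain ⟨b0, -⟩ := e3 (hm ⟨⟨RW.trans R⟩, hW⟩ e2)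
  apply hψ
  apply LinearMap.ext
  intro x
  obtain ⟨x, rfl⟩ := (LinearMap.range Y.f).mkQ_surjective x
  obtain ⟨y, rfl⟩ := b0.2 x
  rw [hq]
  exact (c y).2

end

theorem orth_bound [Module.Finite k A] (hA : AllRigid k A) (n : ℕ) (X : Fin (n + 1) → FM k A)
    (h1 : ∀ i, Nontrivial (X i)) (h2 : ∀ i j, i ≠ j → HZ (X i) (X j)) :
    ∃ L : Fin (n + 1) → FM k A, (∀ i, IsSimpleModule A (L i)) ∧
      ∀ i j, Nonempty (L i ≃ₗ[A] L j) → i = j := by
  choose S hS hp hi using fun i => exists_brick_im (h1 i)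
  have ho : ∀ i j, i ≠ j → HZ (S i) (S j) := fun i j hij => by
    obtain ⟨p, hp⟩ := hp i
    obtain ⟨q, hq⟩ := hi j
    exact ((h2 i j hij).quot p hp).sub q hq
  obtain ⟨z, z1, z2⟩ := compact_ff hA (FM.mk (∀ i, S i))
  have hz : ∀ M, TP z M ↔ ∀ i, HZ (S i) M := fun M => (z2 M).trans
    ⟨fun h i => h.quot (LinearMap.proj i) (LinearMap.proj_surjective i), fun h ρ => by
      apply LinearMap.ext
      intro x
      rw [← Finset.univ_sum_single x, map_sum]
      exact Finset.sum_eq_zero fun i _ =>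
        LinearMap.congr_fun (h i (ρ ∘ₗ LinearMap.single A (fun i => S i) i)) (x i)⟩
  obtain ⟨C⟩ := exists_coord (k := k) (A := A)
  let V := Submodule.span ℝ (C.cv '' {L | IsSimpleModule A L})
  have hV : ∀ M, C.cv M ∈ V := fun M => by
    induction hn : finrank k M using Nat.strong_induction_on generalizing M with
    | _ n ih =>
    rcases subsingleton_or_nontrivial M with h0 | h0
    · rw [C.cv_adv.zero h0]
      exact V.zero_mem
    obtain ⟨N, hN⟩ := simple_quo M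
    rw [C.cv_adv.ses M N]
    exact V.add_mem (ih _ (hn ▸ sub_lt
      (Submodule.Quotient.nontrivial_iff.1 (IsSimpleModule.nontrivial A _))) (M.sub N) rfl)
      (Submodule.subset_span ⟨_, hN, rfl⟩)
  have hl : LinearIndependent ℝ fun i => (⟨C.cv (S i), hV _⟩ : V) := by
    apply LinearIndependent.of_comp V.subtype
    rw [Fintype.linearIndependent_iff]
    intro g hg j
    obtain ⟨Y, y1, y2⟩ := sb_sep hS ho z1 hz j
    have h3 := congrArg (fun x => C.vec Y ⬝ᵥ x) hg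
    simp only [dotProduct_sum, dotProduct_smul, dotProduct_zero, Function.comp_apply,
      Submodule.subtype_apply] at h3
    rw [Finset.sum_eq_single j (fun i _ hij => by
      rw [← Coord.ev, C.ev_vec, y2 i hij]; simp) (by simp), ← Coord.ev, C.ev_vec] at h3
    exact (mul_eq_zero.1 h3).resolve_right (by exact_mod_cast y1.ne')
  have h3 : n + 1 ≤ finrank ℝ V := by simpa using hl.fintype_card_le_finrank
  obtain ⟨f, f1, -, f2⟩ := Submodule.exists_fun_fin_finrank_span_eq ℝ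
    (C.cv '' {L | IsSimpleModule A L})
  choose L l1 l2 using f1
  refine ⟨fun i => L (Fin.castLE h3 i), fun i => l1 _, fun i j ⟨e⟩ => ?_⟩
  apply Fin.castLE_injective h3
  apply f2.injective
  rw [← l2, ← l2, C.cv_adv.congr e]

end Pool.Agent.Work.MP_ccf6ab_al
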